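import Pool.Agent.Helper73.HX.Top

/-! # HR: atoms, if there are no infinite definable sequences of disjoint stationary sets -/

set_option autoImplicit false

namespace Pool.Agent.Helper16.HR

open Ordinal Cardinal ZFSet Order Pool.Agent.Helper73.HODC Pool.Agent.Helper73.HE
open Pool.Agent.Helper73.HM Pool.Agent.Helper73.HU

/-- the leftmost branch of the splitting tree of `X` -/
def Lf (lam : Ordinal.{0}) (X : Set Ordinal.{0}) (ζ : Ordinal.{0}) : Set Ordinal.{0} :=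
  {a | a ∈ X ∧ a < lam ∧ ∀ η : Set.Iio ζ, ∃ B, LeastOD lam (Spl lam (Lf lam X η.1)) B ∧ a ∈ st B}
termination_by ζ
decreasing_by exact η.2

variable {lam : Ordinal.{0}} {X : Set Ordinal.{0}}

theorem mem_Lf {ζ a : Ordinal.{0}} : a ∈ Lf lam X ζ ↔ a ∈ X ∧ a < lam ∧
    ∀ η < ζ, ∃ B, LeastOD lam (Spl lam (Lf lam X η)) B ∧ a ∈ st B := by
  rw [Lf]
  constructor
  · rintro ⟨h1, h2, h3⟩
    exact ⟨h1, h2, fun η hη => h3 ⟨η, hη⟩⟩
  · rintro ⟨h1, h2, h3⟩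
    exact ⟨h1, h2, fun η => h3 η.1 η.2⟩

theorem Lf_anti {ζ ζ' : Ordinal.{0}} (h : ζ ≤ ζ') : Lf lam X ζ' ⊆ Lf lam X ζ := by
  intro a ha
  rw [mem_Lf] at ha ⊢
  exact ⟨ha.1, ha.2.1, fun η hη => ha.2.2 η (hη.trans_le h)⟩

theorem mem_Lf_succ {ζ a : Ordinal.{0}} : a ∈ Lf lam X (ζ + 1) ↔
    a ∈ Lf lam X ζ ∧ ∃ B, LeastOD lam (Spl lam (Lf lam X ζ)) B ∧ a ∈ st B := by
  constructor
  · intro h
    exact ⟨Lf_anti (lt_add_one ζ).le h, (mem_Lf.1 h).2.2 ζ (lt_add_one ζ)⟩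
  · rintro ⟨h1, h2⟩
    rw [mem_Lf] at h1 ⊢
    refine ⟨h1.1, h1.2.1, fun η hη => ?_⟩
    rcases (lt_add_one_iff.1 hη).lt_or_eq with h | h
    · exact h1.2.2 η h
    · rw [h]; exact h2

theorem dp_Lf (h1 : StRE) (h2 : StLD) (hX : DPs X) :
    DP (fun v => (v 0).rank ∈ Lf lam X (v 1).rank) := by
  refine h1 lam (fun _ ζ => Lf lam X ζ) (fun ζ W a _ => a ∈ X ∧ a < lam ∧
    ∀ η, η < ζ → ∃ B, LeastOD lam (Spl lam (sec W η)) B ∧ a ∈ st B) ?_ ?_ ?_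
  · refine (DPs.at hX 2).and ((DP.rank_lt_ord 2 lam).and ?_)
    refine DP.allO (Q := fun η v => η < (v 0).rank → ∃ B, LeastOD lam (Spl lam
      (sec (v 1) η)) B ∧ (v 2).rank ∈ st B) ?_
    refine (DP.rank_lt 0 1).imp ?_
    refine DP.ex (Q := fun B v => LeastOD lam (Spl lam
      (sec (v 2) (v 0).rank)) B ∧ (v 3).rank ∈ st B) ?_
    refine DP.and ?_ (DP.st 4 0)
    refine h2 lam (fun B v => Spl lam (sec (v 3) (v 1).rank) B) ?_ 0
    refine DP.and ?_ ?_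
    · refine DP.statC (Q := fun a v => a ∈ sec (v 4) (v 2).rank ∧ a ∈ st (v 0)) ?_ lam
      exact (DP.sec 0 5 3).and (DP.st 0 1)
    · refine DP.statC (Q := fun a v => a ∈ sec (v 4) (v 2).rank ∧ a ∉ st (v 0)) ?_ lam
      exact (DP.sec 0 5 3).and (DP.st 0 1).not
  · intro v ζ a ha
    exact (mem_Lf.1 ha).2.1
  · intro v ζ W hW a
    rw [mem_Lf]
    refine and_congr_right fun _ => and_congr_right fun _ => forall_congr' fun η =>
      forall_congr' fun hη => ?_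
    rw [hW η hη]

/-- the right part of the node of level `ζ` -/
def Rt (lam : Ordinal.{0}) (X : Set Ordinal.{0}) (ζ : Ordinal.{0}) : Set Ordinal.{0} :=
  {a | a ∈ Lf lam X ζ ∧ ∃ B, LeastOD lam (Spl lam (Lf lam X ζ)) B ∧ a ∉ st B}

theorem atomW (hRE : StRE) (hLD : StLD) (hLE : StLE) {τ : Ordinal.{0}}
    (hX : DPs X) (hS : Stat X τ) (hno : NoSeqO ℵ₀ τ X) :
    ∃ A, DPs A ∧ (∀ a ∈ A, a ∈ X ∧ a < τ) ∧ Atom τ A := by
  by_contra hcon
  push Not at hcon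
  have hd := dp_Lf (lam := τ) hRE hLD hX
  have hsec : ∀ ζ, DPs (Lf τ X ζ) := fun ζ =>
    dp_subst_at (Q := fun x v => (v 0).rank ∈ Lf τ X x)
      (hd.rename (fun n => if n = 0 then 1 else 0)) ζ
  have hspl : ∀ ζ, Stat (Lf τ X ζ) τ → ∃ B, LeastOD τ (Spl τ (Lf τ X ζ)) B := by
    intro ζ hζ
    have h1 := hcon _ (hsec ζ) (fun a ha => ⟨(mem_Lf.1 ha).1, (mem_Lf.1 ha).2.1⟩)
    have h2 : ∃ x, OD x ∧ x ⊆ τ.toZFSet ∧ Spl τ (Lf τ X ζ) x := by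
      by_contra h3
      push Not at h3
      exact h1 ⟨hζ, fun B hB hB' => h3 B hB hB'⟩
    exact hLE.2 _ _ h2
  have hst : ∀ n : ℕ, Stat (Lf τ X n) τ := by
    intro n
    induction n with
    | zero =>
      refine hS.mono fun a ha haτ => ?_
      rw [mem_Lf]
      refine ⟨ha, haτ, fun η hη => ?_⟩
      rw [Nat.cast_zero] at hη
      exact absurd hη (not_lt.2 zero_le)
    | succ n ih =>
      obtain ⟨B, hB⟩ := hspl _ ih
      rw [Nat.cast_add, Nat.cast_one]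
      refine hB.1.2.2.1.mono fun a ha _ => ?_
      rw [mem_Lf_succ]
      exact ⟨ha.1, B, hB, ha.2⟩
  have hlt : ∀ ξ < (ℵ₀ : Cardinal.{0}).ord, ∃ n : ℕ, ξ = n := by
    intro ξ hξ
    rw [ord_aleph0] at hξ
    exact lt_omega0.1 hξ
  refine hno ⟨Rt τ X, ?_, ?_, ?_, ?_⟩
  · rw [odRel_iff_DP]
    refine (DP.rank_lt_ord 0 _).and ((DP.rank_lt_ord 1 τ).and ?_)
    refine (hd.rename (fun n => if n = 0 then 1 else 0)).and ?_
    refine DP.ex (Q := fun B v => LeastOD τ (Spl τ (Lf τ X (v 0).rank)) B ∧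
      (v 1).rank ∉ st B) ?_
    refine DP.and ?_ (DP.st 2 0).not
    refine hLD τ (fun B v => Spl τ (Lf τ X (v 1).rank) B) ?_ 0
    refine DP.and ?_ ?_
    · refine DP.statC (Q := fun a v => a ∈ Lf τ X (v 2).rank ∧ a ∈ st (v 0)) ?_ τ
      exact (hd.rename (fun n => if n = 0 then 0 else 3)).and (DP.st 0 1)
    · refine DP.statC (Q := fun a v => a ∈ Lf τ X (v 2).rank ∧ a ∉ st (v 0)) ?_ τ
      exact (hd.rename (fun n => if n = 0 then 0 else 3)).and (DP.st 0 1).not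
  · intro ξ hξ
    obtain ⟨n, rfl⟩ := hlt ξ hξ
    obtain ⟨B, hB⟩ := hspl _ (hst n)
    exact hB.1.2.2.2.mono fun a ha _ => ⟨ha.1, B, hB, ha.2⟩
  · intro ξ _ a ha
    exact (mem_Lf.1 ha.1).1
  · intro ξ hξ η hη a ha ha'
    rcases lt_trichotomy ξ η with h | h | h
    · obtain ⟨B, hB, hB'⟩ := ha.2
      obtain ⟨B', hB1, hB2⟩ := (mem_Lf.1 ha'.1).2.2 ξ h
      rw [hLE.1 _ _ _ _ hB1 hB] at hB2
      exact absurd hB2 hB'
    · exact h
    · obtain ⟨B, hB, hB'⟩ := ha'.2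
      obtain ⟨B', hB1, hB2⟩ := (mem_Lf.1 ha.1).2.2 η h
      rw [hLE.1 _ _ _ _ hB1 hB] at hB2
      exact absurd hB2 hB'

end Pool.Agent.Helper16.HR
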