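import Pool.Agent.Helper16.HR.Defs
import Pool.Agent.Helper96.HM.CV
import Pool.Agent.Helper66.HM.DJ
import Pool.Agent.Helper73.HM.Fin

/-! # HR: covering from reflection -/

set_option autoImplicit false

namespace Pool.Agent.Helper16.HR

open Ordinal Cardinal ZFSet Order Pool.Agent.Helper73.HODC Pool.Agent.Helper73.HE
open Pool.Agent.Helper73.HM Pool.Agent.Helper73.HU

/-- the indices of the sets of a definable sequence which are stationary in `σ`: definable, and at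
most `cf σ` many -/
theorem reflIdx {c : Cardinal.{0}} {ν σ : Ordinal.{0}} {S : Ordinal.{0} → Set Ordinal.{0}}
    (hσc : σ < c.ord) (hσ1 : ℵ₀ < σ.cof) (hS : ODRel (fun ξ a => ξ < ν ∧ a < c.ord ∧ a ∈ S ξ))
    (hdisj : ∀ ξ < ν, ∀ η < ν, ∀ a, a ∈ S ξ → a ∈ S η → ξ = η) :
    DP (fun v => (v 0).rank ∈ {ξ | ξ < ν ∧ Stat (S ξ) σ}) ∧
    Cardinal.mk {ξ | ξ < ν ∧ Stat (S ξ) σ} ≤ Cardinal.lift.{1} σ.cof := by
  set Y : Set Ordinal.{0} := {ξ | ξ < ν ∧ Stat (S ξ) σ} with hY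
  refine ⟨?_, Helper66.HM.dj σ Y S hσ1 (fun ξ hξ => hξ.2)
    (fun ξ hξ η hη a => hdisj ξ hξ.1 η hη.1 a)⟩
  rw [odRel_iff_DP] at hS
  have h3 : DP (fun v => Stat {a | (v 0).rank < ν ∧ a < c.ord ∧ a ∈ S (v 0).rank} σ) := by
    refine DP.statC (Q := fun a v => (v 0).rank < ν ∧ a < c.ord ∧ a ∈ S (v 0).rank) ?_ σ
    exact hS.rename (fun n => if n = 0 then 1 else 0)
  refine ((DP.rank_lt_ord 0 ν).and h3).congr fun v => ?_
  constructor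
  · rintro ⟨h4, h5⟩
    exact ⟨h4, h5.mono fun a ha haσ => ⟨h4, haσ.trans hσc, ha⟩⟩
  · rintro ⟨h4, h5⟩
    exact ⟨h4, h5.mono fun a ha _ => ha.2.2⟩

/-- an ordinal `α ≥ κ` with a cofinal set covered by a small definable set is singular in HOD -/
theorem hodSing_of_set {α : Ordinal.{0}} {κ : Cardinal.{0}} {Y : Set Ordinal.{0}}
    (hα : IsSuccLimit α) (hκα : κ.ord ≤ α) (hω : (1 : Ordinal.{0}) < α)
    (hd : DP (fun v => (v 0).rank ∈ Y)) (hY : Cardinal.mk Y < Cardinal.lift.{1} κ)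
    (hc : ∀ β < α, ∃ η ∈ Y, β < η ∧ η < α) : HODSing α := by
  refine hodSing_of_rel (ρ := 1) (κ := κ) (E := fun _ η => η ∈ Y) hα ?_ hω hκα ?_ ?_
  · rw [odRel_iff_DP]
    exact hd.rename (fun _ => 1)
  · intro ξ _
    exact hY
  · intro β hβ
    obtain ⟨η, h1, h2, h3⟩ := hc β hβ
    exact ⟨0, zero_lt_one, η, h3, h2, h1⟩

theorem one_lt_of {κ : Cardinal.{0}} {α : Ordinal.{0}} (hκ : ℵ₀ < κ) (h : κ.ord ≤ α) :
    (1 : Ordinal.{0}) < α := by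
  have : ω ≤ κ.ord := by
    rw [← ord_aleph0]; exact ord_le_ord.2 hκ.le
  exact one_lt_omega0.trans_le (this.trans h)

theorem cvr {χ κ c : Cardinal.{0}} (hR : SimRefl χ κ) (hκ : ℵ₀ < κ) (hc : c.IsRegular)
    (hκc : κ ≤ c) {α ν : Ordinal.{0}} (hα : IsSuccLimit α) (hκα : κ.ord ≤ α) (hαcof : α.cof ≤ χ)
    (hαν : α ≤ ν) {S : Ordinal.{0} → Set Ordinal.{0}}
    (hS : ODRel (fun ξ a => ξ < ν ∧ a < c.ord ∧ a ∈ S ξ))
    (hstat : ∀ ξ < ν, Stat (S ξ) c.ord) (hcof : ∀ ξ < ν, ∀ a ∈ S ξ, a.cof = ℵ₀)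
    (hdisj : ∀ ξ < ν, ∀ η < ν, ∀ a, a ∈ S ξ → a ∈ S η → ξ = η) : HODSing α := by
  obtain ⟨ι, z, hι, hz, hz'⟩ := Helper96.HM.cv_cofinal α
  obtain ⟨σ, hσc, hσ1, hσ2, hσ3⟩ := hR c hc hκc ι (by rw [hι]; exact hαcof) (fun i => S (z i))
    (fun i => hstat _ ((hz i).trans_le hαν)) (fun i => hcof _ ((hz i).trans_le hαν))
  obtain ⟨hd, hYcard⟩ := reflIdx hσc hσ1 hS hdisj
  refine hodSing_of_set hα hκα (one_lt_of hκ hκα) hd
    (lt_of_le_of_lt hYcard (Cardinal.lift_lt.2 hσ2)) fun β hβ => ?_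
  obtain ⟨i, hi⟩ := hz' (succ β) (hα.succ_lt hβ)
  exact ⟨z i, ⟨(hz i).trans_le hαν, hσ3 i⟩, (lt_succ β).trans_le hi, hz i⟩

end Pool.Agent.Helper16.HR
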