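import Pool.Agent.Helper16.HR.CV
import Pool.Agent.Helper29.HM.PW
import Pool.Agent.Helper96.HM.HY

/-! # HR: the HOD Hypothesis and covering -/

set_option autoImplicit false

namespace Pool.Agent.Helper16.HR

open Ordinal Cardinal ZFSet Order Pool.Agent.Helper73.HODC Pool.Agent.Helper73.HE
open Pool.Agent.Helper73.HM Pool.Agent.Helper73.HU

/-- a set of at most `χ` ordinals, indexed by a type of the lowest universe -/
theorem index {χ : Cardinal.{0}} {X : Set Ordinal.{0}} (hX : Cardinal.mk X ≤ Cardinal.lift.{1} χ) :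
    ∃ (ι : Type) (z : ι → Ordinal.{0}), Cardinal.mk ι ≤ χ ∧ Set.range z = X := by
  obtain ⟨c, hc⟩ := Cardinal.mem_range_lift_of_le hX
  have h1 : Cardinal.lift.{1} (Cardinal.mk c.out) = Cardinal.lift.{0} (Cardinal.mk X) := by
    rw [Cardinal.mk_out, Cardinal.lift_uzero, hc]
  obtain ⟨e⟩ := Cardinal.lift_mk_eq'.1 h1
  refine ⟨c.out, fun i => (e i).1, ?_, ?_⟩
  · rw [Cardinal.mk_out]
    rw [← hc] at hX
    exact Cardinal.lift_le.1 hX
  · ext a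
    constructor
    · rintro ⟨i, rfl⟩
      exact (e i).2
    · intro ha
      exact ⟨e.symm ⟨a, ha⟩, by simp⟩

/-- the elements of the set of the ordinals of a set of ordinals -/
theorem mk_ordSet (lam : Ordinal.{0}) (Y : Set Ordinal.{0}) :
    Cardinal.mk {z : ZFSet.{0} // z ∈ ordSet lam Y} ≤ Cardinal.mk Y := by
  have h : ∀ z : {z : ZFSet.{0} // z ∈ ordSet lam Y}, ∃ a, a ∈ Y ∧ z.1 = a.toZFSet := by
    rintro ⟨z, hz⟩
    obtain ⟨a, -, ha, rfl⟩ := (mem_ordSet _ _ _).1 hz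
    exact ⟨a, ha, rfl⟩
  choose f hf hf' using h
  refine Cardinal.mk_le_of_injective (f := fun z => (⟨f z, hf z⟩ : Y)) fun z w hzw => ?_
  apply Subtype.ext
  rw [hf' z, hf' w, (Subtype.mk.inj hzw : f z = f w)]

/-- (1) implies (2) -/
theorem covers_of_hyp (hPW : StPW) {χ κ : Cardinal.{0}} (hR : SimRefl χ κ)
    (hH : HODHypothesis) : HODCovers χ κ := by
  intro X hX
  obtain ⟨ι, z, hι, rfl⟩ := index hX
  obtain ⟨ν, hν⟩ : BddAbove (Set.range z) := Ordinal.bddAbove_of_small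
  set κ₁ : Cardinal.{0} := succ (max (max κ ℵ₀) ν.card) with hκ₁
  have hν' : ν < κ₁.ord := lt_ord.2 (lt_of_le_of_lt (le_max_right _ _) (lt_succ _))
  obtain ⟨c, hc, hc2, hc3⟩ := hH ((2 : Cardinal.{0}) ^ κ₁).ord
  have h2 : (2 : Cardinal.{0}) ^ κ₁ < c := ord_lt_ord.1 hc2
  have hlt : κ₁ < c := (Cardinal.cantor κ₁).trans h2
  have hκc : κ ≤ c := ((le_max_left _ _).trans ((le_max_left _ _).trans (le_succ _))).trans hlt.le
  have hspl : HODSplits κ₁.ord c.ord := by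
    by_contra hcon
    refine hc3 ⟨κ₁, ?_, ord_lt_ord.2 hlt, hPW κ₁ c h2, hcon⟩
    exact (lt_of_le_of_lt zero_le (lt_succ (max (max κ ℵ₀) ν.card))).ne'
  obtain ⟨S, hS1, hS2, hS3, hS4, hS5⟩ := hspl
  have hOD := odRel_of_hod hS5
  obtain ⟨σ, hσc, hσ1, hσ2, hσ3⟩ := hR c hc hκc ι hι (fun i => S (z i))
    (fun i => hS1 _ (lt_of_le_of_lt (hν ⟨i, rfl⟩) hν'))
    (fun i a ha => (hS2 _ (lt_of_le_of_lt (hν ⟨i, rfl⟩) hν') a ha).2)
  obtain ⟨hd, hY⟩ := reflIdx hσc hσ1 hOD hS4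
  refine ⟨ordSet κ₁.ord {ξ | ξ < κ₁.ord ∧ Stat (S ξ) σ}, HOD_ordSet _ _ hd, ?_, ?_⟩
  · rintro a ⟨i, rfl⟩
    have h3 : z i < κ₁.ord := lt_of_le_of_lt (hν ⟨i, rfl⟩) hν'
    exact (mem_ordSet _ _ _).2 ⟨z i, h3, ⟨h3, hσ3 i⟩, rfl⟩
  · exact (mk_ordSet _ _).trans_lt (hY.trans_lt (Cardinal.lift_lt.2 hσ2))

/-- (2) implies (7), for all cofinalities at most `χ` -/
theorem sing_of_covers {χ κ : Cardinal.{0}} (hκ : ℵ₀ < κ) (hC : HODCovers χ κ)
    {α : Ordinal.{0}} (hα : IsSuccLimit α) (hκα : κ.ord ≤ α) (hcof : α.cof ≤ χ) : HODSing α := by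
  obtain ⟨ι, z, hι, hz, hz'⟩ := Helper96.HM.cv_cofinal α
  have hX : Cardinal.mk (Set.range z) ≤ Cardinal.lift.{1} χ := by
    have h1 := Cardinal.mk_range_le_lift (f := z)
    rw [Cardinal.lift_uzero, hι] at h1
    exact h1.trans (Cardinal.lift_le.2 hcof)
  obtain ⟨y, hy, hy1, hy2⟩ := hC _ hX
  refine hodSing_of_set (Y := {a | a.toZFSet ∈ y}) hα hκα (one_lt_of hκ hκα) ?_ ?_ fun β hβ => ?_
  · have h2 : DP (fun v => ∃ u : ZFSet.{0}, (u = u.rank.toZFSet ∧ u.rank = (v 1).rank) ∧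
        u ∈ v 0) := by
      refine DP.ex (Q := fun u v => (u = u.rank.toZFSet ∧ u.rank = (v 1).rank) ∧ u ∈ v 0) ?_
      exact ((DP.isOrd 0).and (DP.rank_eq 0 2)).and (DP.mem 0 1)
    refine (dp_subst_HOD (Q := fun x v => ∃ u : ZFSet.{0}, (u = u.rank.toZFSet ∧
      u.rank = (v 0).rank) ∧ u ∈ x) h2 hy).congr fun v => ?_
    constructor
    · intro h3
      exact ⟨_, ⟨by rw [rank_toZFSet], rank_toZFSet _⟩, h3⟩
    · rintro ⟨u, ⟨h3, h4⟩, h5⟩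
      rw [h3, h4] at h5
      exact h5
  · refine lt_of_le_of_lt ?_ hy2
    refine Cardinal.mk_le_of_injective (f := fun a => (⟨a.1.toZFSet, a.2⟩ :
      {z : ZFSet.{0} // z ∈ y})) fun a b hab => ?_
    exact Subtype.ext (toZFSet_injective (Subtype.mk.inj hab))
  · obtain ⟨i, hi⟩ := hz' (succ β) (hα.succ_lt hβ)
    exact ⟨z i, hy1 _ ⟨i, rfl⟩, (lt_succ β).trans_le hi, hz i⟩

/-- (7) implies (1) -/
theorem hyp_of_sing {κ : Cardinal.{0}} (hκ' : ℵ₀ < κ)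
    (hsing : ∀ α : Ordinal.{0}, κ.ord ≤ α → α.cof = ℵ₀ → HODSing α) : HODHypothesis := by
  intro θ
  set c : Cardinal.{0} := succ (max κ θ.card) with hc
  have h0 : ℵ₀ ≤ max κ θ.card := hκ'.le.trans (le_max_left _ _)
  have hreg : c.IsRegular := isRegular_succ h0
  have hc0 : ℵ₀ < c := lt_of_le_of_lt h0 (lt_succ _)
  have hθ : θ < c.ord := lt_ord.2 (lt_of_le_of_lt (le_max_right _ _) (lt_succ _))
  have hκc : κ.ord < c.ord := ord_lt_ord.2 (lt_of_le_of_lt (le_max_left _ _) (lt_succ _))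
  have hcof : ℵ₀ < c.ord.cof := by rw [hreg.cof_ord]; exact hc0
  refine ⟨c, hreg, hθ, ?_⟩
  rintro ⟨κ₁, h1, h2, -, h3⟩
  apply h3
  refine hodSplits hreg hc0 ?_ κ₁.ord ?_ h2.le
  · refine (Stat.inter_club hcof (stat_cof_omega hcof)
      (club_Ioi (isSuccLimit_of_cof hcof) hκc)).mono ?_
    rintro a ⟨ha1, ha2⟩ -
    have ha1' : a.cof = ℵ₀ := ha1
    have ha2' : κ.ord < a := ha2
    exact ⟨ha1', hsing a ha2'.le ha1'⟩
  · rw [pos_iff_ne_zero]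
    intro h
    exact h1 (ord_eq_zero.1 h)

end Pool.Agent.Helper16.HR
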