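import Pool.Agent.Helper73.HU.Defs
import Pool.Agent.Helper36.HS.Defs2

/-!
# The HOD dichotomy from simultaneous stationary reflection.  Definitions
-/

set_option autoImplicit false

namespace Pool.Agent.Helper16.HR

open Ordinal Cardinal ZFSet Order Pool.Agent.Helper73.HODC Pool.Agent.Helper73.HM
open Pool.Agent.Helper73.HU Pool.Agent.Helper73.HV Pool.Agent.Helper36.HS

/-- Simultaneous reflection: for every regular cardinal `c ≥ κ`, all members of a family of at
most `χ` stationary subsets of `{a < c : cf a = ω}` are stationary in one `σ < c` with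
`ω < cf σ < κ`. -/
def SimRefl (χ κ : Cardinal.{0}) : Prop :=
  ∀ c : Cardinal.{0}, c.IsRegular → κ ≤ c → ∀ ι : Type, Cardinal.mk ι ≤ χ →
    ∀ A : ι → Set Ordinal.{0}, (∀ i, Stat (A i) c.ord) → (∀ i, ∀ a ∈ A i, a.cof = ℵ₀) →
      ∃ σ < c.ord, ℵ₀ < σ.cof ∧ σ.cof < κ ∧ ∀ i, Stat (A i) σ

/-- The reflection principle of Foreman, Magidor and Shelah (a consequence of Martin's Maximum):
for every regular cardinal `c ≥ ℵ₂` and every nonempty family of at most `ℵ₁` stationary subsets
of `{a < c : cf a = ω}` there is `σ < c` of cofinality `ℵ₁` such that all members of the family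
are stationary in `σ` and their union contains a closed unbounded subset of `σ`. -/
def MMRefl : Prop :=
  ∀ c : Cardinal.{0}, c.IsRegular → ℵ_ 2 ≤ c → ∀ ι : Type, Nonempty ι → Cardinal.mk ι ≤ ℵ_ 1 →
    ∀ A : ι → Set Ordinal.{0}, (∀ i, Stat (A i) c.ord) → (∀ i, ∀ a ∈ A i, a.cof = ℵ₀) →
      ∃ σ < c.ord, σ.cof = ℵ_ 1 ∧ (∀ i, Stat (A i) σ) ∧
        ∃ C : Set Ordinal.{0}, Club C σ ∧ ∀ a ∈ C, a < σ → ∃ i, a ∈ A i

/-- Every set of at most `χ` ordinals is covered by a set in HOD of cardinality less than `κ`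
(cardinalities are computed in `V`). -/
def HODCovers (χ κ : Cardinal.{0}) : Prop :=
  ∀ X : Set Ordinal.{0}, Cardinal.mk X ≤ Cardinal.lift.{1} χ →
    ∃ y : ZFSet.{0}, HOD y ∧ (∀ a ∈ X, a.toZFSet ∈ y) ∧
      Cardinal.mk {z : ZFSet.{0} // z ∈ y} < Cardinal.lift.{1} κ

/-- The set `X` of ordinals belongs to HOD. -/
def InHOD (X : Set Ordinal.{0}) : Prop :=
  ∃ x : ZFSet.{0}, HOD x ∧ ∀ z : ZFSet.{0}, z ∈ x ↔ ∃ a ∈ X, z = a.toZFSet

/-- `(σ⁺)^HOD = σ⁺`: the least regular cardinal of HOD above `σ` is `σ⁺`. -/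
def SuccCorrect (σ : Cardinal.{0}) : Prop := HODNext σ.ord (succ σ).ord

/-- `c` is omega-strongly measurable in HOD and measurable in HOD; and the successor `τ` of `c` in
HOD is less than `c⁺` and has cofinality `ω` or `c`, and in the latter case every subset of `τ` of
cardinality less than `c` is covered by a set in HOD of order type less than `c`, and in HOD there
is a `c`-complete fine ultrafilter on the set of the subsets of `τ` of order type less than `c`,
that is, `c` is `τ`-strongly compact in HOD. -/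
def Large (c : Cardinal.{0}) : Prop :=
  OmegaStronglyMeasurable c.ord ∧ (∃ U, HODNormal c.ord U) ∧
    ∀ τ, HODNext c.ord τ → τ < (succ c).ord ∧
      (τ.cof = ℵ₀ ∨ (τ.cof = c ∧ HODCover c τ ∧ ∃ W, HODFine c c.ord τ W))

end Pool.Agent.Helper16.HR
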