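import Pool.Agent.Helper16.HR.Defs
import Pool.Agent.Helper73.HX.Defs

/-!
# The HOD dichotomy from simultaneous stationary reflection.  Further definitions
-/

set_option autoImplicit false

namespace Pool.Agent.Helper16.HR

open Ordinal Cardinal ZFSet Order Pool.Agent.Helper73.HODC Pool.Agent.Helper73.HM

/-- Every proper `κ`-complete filter on a set extends to a `δ`-complete ultrafilter (`κ` is
`δ`-strongly compact in the sense of Bagaria and Magidor). -/
def ExtFilters (δ κ : Cardinal.{0}) : Prop :=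
  ∀ (I : Type) (F : Filter I), F.NeBot → CardinalInterFilter F κ →
    ∃ U : Ultrafilter I, CardinalInterFilter (U : Filter I) δ ∧ (U : Filter I) ≤ F

/-- Exact simultaneous reflection: for every regular cardinal `c ≥ κ` and every nonempty family of
at most `χ` stationary subsets of `{a < c : cf a = ω}` there is `σ < c` with `ω < cf σ < κ` such
that all members of the family are stationary in `σ` and their union contains all points of
cofinality `ω` of a closed unbounded subset of `σ`. -/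
def ExactRefl (χ κ : Cardinal.{0}) : Prop :=
  ∀ c : Cardinal.{0}, c.IsRegular → κ ≤ c → ∀ ι : Type, Nonempty ι → Cardinal.mk ι ≤ χ →
    ∀ A : ι → Set Ordinal.{0}, (∀ i, Stat (A i) c.ord) → (∀ i, ∀ a ∈ A i, a.cof = ℵ₀) →
      ∃ σ < c.ord, ℵ₀ < σ.cof ∧ σ.cof < κ ∧ (∀ i, Stat (A i) σ) ∧
        ∃ C : Set Ordinal.{0}, Club C σ ∧ ∀ a ∈ C, a < σ → a.cof = ℵ₀ → ∃ i, a ∈ A i

/-- `x` is ordinal definable from `A`: for some ordinal `θ`, some formula `φ` and some ordinals
`p 0, p 1, ... < θ`, the set `x` is the only element `y` of `V_θ` such that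
`(V_θ, ∈) ⊨ φ(y, A, p 0, p 1, ...)`. -/
def ODFrom (A x : ZFSet.{0}) : Prop :=
  ∃ (θ : Ordinal.{0}) (φ : Fm) (p : ℕ → Ordinal.{0}), A ∈ V_ θ ∧ (∀ k, p k < θ) ∧ x ∈ V_ θ ∧
    ∀ y ∈ V_ θ, Sat {z | z ∈ V_ θ} φ (cons y (cons A (fun k => (p k).toZFSet))) ↔ y = x

/-- The set `X` of ordinals is ordinal definable from `b`. -/
def SetODFrom (b : ZFSet.{0}) (X : Set Ordinal.{0}) : Prop :=
  ∃ x : ZFSet.{0}, ODFrom b x ∧ ∀ z : ZFSet.{0}, z ∈ x ↔ ∃ a ∈ X, z = a.toZFSet

end Pool.Agent.Helper16.HR
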