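import Pool.Agent.Helper16.HR.Defs2

/-!
# The HOD dichotomy from simultaneous stationary reflection.  The first alternative
-/

set_option autoImplicit false

namespace Pool.Agent.Helper16.HR

open Ordinal Cardinal ZFSet Order Pool.Agent.Helper73.HODC Pool.Agent.Helper73.HM
open Pool.Agent.Helper73.HU Pool.Agent.Helper73.HV Pool.Agent.Helper36.HS

/-- Every set of at most `χ` ordinals less than `ν` is covered by a set in HOD of cardinality less
than `κ` (cardinalities are computed in `V`). -/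
def CoverBelow (χ κ : Cardinal.{0}) (ν : Ordinal.{0}) : Prop :=
  ∀ X : Set Ordinal.{0}, (∀ a ∈ X, a < ν) → Cardinal.mk X ≤ Cardinal.lift.{1} χ →
    ∃ y : ZFSet.{0}, HOD y ∧ (∀ a ∈ X, a.toZFSet ∈ y) ∧
      Cardinal.mk {z : ZFSet.{0} // z ∈ y} < Cardinal.lift.{1} κ

/-- HOD is close to `V` up to `ν`: no regular cardinal `c ∈ (κ, ν]` is omega-strongly measurable in
HOD; every set of at most `χ` ordinals less than `ν` is covered by a set in HOD of cardinality less
than `κ`, and it belongs to HOD if `ExactRefl χ κ` holds; every regular cardinal `τ ∈ [κ, ν]` of HOD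
has cofinality greater than `χ`, and cofinality `|τ|` if `κ < |τ|` or `κ` is regular; and
`(σ⁺)^HOD = σ⁺` for every singular `σ > κ` with `σ⁺ ≤ ν`. -/
def Close (χ κ : Cardinal.{0}) (ν : Ordinal.{0}) : Prop :=
  (∀ c : Cardinal.{0}, c.IsRegular → κ < c → c.ord ≤ ν → ¬ OmegaStronglyMeasurable c.ord) ∧
  CoverBelow χ κ ν ∧
  (ExactRefl χ κ → ∀ X : Set Ordinal.{0}, (∀ a ∈ X, a < ν) →
    Cardinal.mk X ≤ Cardinal.lift.{1} χ → InHOD X) ∧
  (∀ τ, HODReg τ → κ.ord ≤ τ → τ ≤ ν →
    χ < τ.cof ∧ (κ.IsRegular ∨ κ < τ.card → τ.cof = τ.card)) ∧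
  ∀ σ : Cardinal.{0}, κ < σ → σ.IsSingular → (succ σ).ord ≤ ν → SuccCorrect σ

end Pool.Agent.Helper16.HR
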