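import Pool.Agent.Helper16.HR.Succ
import Pool.Agent.Helper86.HU.EX

/-! # HR: a successor cardinal of HOD is not measurable in HOD -/

set_option autoImplicit false

namespace Pool.Agent.Helper16.HR

open Ordinal Cardinal ZFSet Order Pool.Agent.Helper73.HODC Pool.Agent.Helper73.HE
open Pool.Agent.Helper73.HM Pool.Agent.Helper73.HU Pool.Agent.Helper73.HV
open Pool.Agent.Helper36.HS

section
variable {lam : Ordinal.{0}} {U : ZFSet.{0}}

theorem press (h : HODNormal lam U) {f : Ordinal.{0} → Ordinal.{0}}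
    (hf : DP (fun v => f (v 0).rank = (v 1).rank)) {T : Set Ordinal.{0}}
    (hT : ordSet lam T ∈ U) (hlt : ∀ a ∈ T, a < lam → a ≠ 0 → f a < a) :
    ∃ η < lam, ordSet lam {a | f a = η} ∈ U := by
  refine h.normal f (HOD_graph _ _ ?_) _ hT ?_
  · rw [odRel_iff_DP]
    exact (DP.rank_lt_ord 0 lam).and (hf.congr fun v => eq_comm)
  · intro a ha h0
    obtain ⟨b, hb, hb', hab⟩ := (mem_ordSet _ _ _).1 ha
    rw [toZFSet_injective hab] at h0 ⊢
    exact hlt b hb' hb h0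

theorem inter_mem (h : HODNormal lam U) {S T : Set Ordinal.{0}} (hS : ordSet lam S ∈ U)
    (hT : ordSet lam T ∈ U) : ordSet lam {a | a ∈ S ∧ a ∈ T} ∈ U := by
  have h1 := h.inter _ hS _ hT
  have h2 : ordSet lam S ∩ ordSet lam T = ordSet lam {a | a ∈ S ∧ a ∈ T} := by
    ext z
    rw [ZFSet.mem_inter, mem_ordSet, mem_ordSet, mem_ordSet]
    constructor
    · rintro ⟨⟨a, ha, ha', rfl⟩, ⟨b, hb, hb', hab⟩⟩
      rw [← toZFSet_injective hab] at hb hb'
      exact ⟨a, ha, ⟨ha', hb'⟩, rfl⟩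
    · rintro ⟨a, ha, ⟨h3, h4⟩, rfl⟩
      exact ⟨⟨a, ha, h3, rfl⟩, ⟨a, ha, h4, rfl⟩⟩
  rw [h2] at h1
  exact h1

theorem exists_mem (h : HODNormal lam U) (h0 : 0 < lam) {T : Set Ordinal.{0}}
    (hT : ordSet lam T ∈ U) : ∃ a < lam, a ∈ T := by
  by_contra hcon
  push Not at hcon
  have h1 : ordSet lam T = ∅ := by
    rw [ZFSet.eq_empty]
    intro z hz
    obtain ⟨a, ha, ha', -⟩ := (mem_ordSet _ _ _).1 hz
    exact hcon a ha ha'
  rw [h1] at hT
  have h2 : (∅ : ZFSet.{0}) ∈ hodPow lam := h.sub _ hT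
  refine (h.ultra _ h2).1 hT ?_
  have h3 : ordSet lam {a | 0 ≤ a} = lam.toZFSet \ ∅ := by
    ext z
    rw [ZFSet.mem_sdiff, mem_ordSet]
    constructor
    · rintro ⟨a, ha, -, rfl⟩
      exact ⟨mem_toZFSet_iff.2 ⟨a, ha, rfl⟩, ZFSet.notMem_empty _⟩
    · rintro ⟨h4, -⟩
      obtain ⟨a, ha, rfl⟩ := mem_toZFSet_iff.1 h4
      exact ⟨a, ha, (show (0 : Ordinal.{0}) ≤ a from zero_le), rfl⟩
  rw [← h3]
  exact h.tail 0 h0

end

/-- the predecessor of a successor, the cofinality in HOD of a limit ordinal -/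
noncomputable def pf (ρ : Ordinal.{0} → Ordinal.{0}) (a : Ordinal.{0}) : Ordinal.{0} :=
  sInf {b | (IsSuccLimit a ∧ ρ a = b) ∨ (¬ IsSuccLimit a ∧ ∀ c, c < a → c ≤ b)}

theorem pf_lim {ρ : Ordinal.{0} → Ordinal.{0}} {a : Ordinal.{0}} (h : IsSuccLimit a) :
    pf ρ a = ρ a := by
  have h1 : {b | (IsSuccLimit a ∧ ρ a = b) ∨ (¬ IsSuccLimit a ∧ ∀ c, c < a → c ≤ b)} =
      {ρ a} := by
    ext b
    simp only [h, true_and, not_true_eq_false, false_and, or_false, Set.mem_ofPred_eq,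
      Set.mem_singleton_iff]
    exact eq_comm
  rw [pf, h1, csInf_singleton]

theorem pf_not_lim {ρ : Ordinal.{0} → Ordinal.{0}} {a : Ordinal.{0}} (h : ¬ IsSuccLimit a) :
    ∀ c, c < a → c ≤ pf ρ a := by
  have h1 : a ∈ {b | (IsSuccLimit a ∧ ρ a = b) ∨ (¬ IsSuccLimit a ∧ ∀ c, c < a → c ≤ b)} :=
    Or.inr ⟨h, fun c hc => hc.le⟩
  have h2 := csInf_mem (⟨a, h1⟩ : Set.Nonempty _)
  rcases h2 with h3 | h3
  · exact absurd h3.1 h
  · exact h3.2

theorem pf_lt {ρ : Ordinal.{0} → Ordinal.{0}} {a : Ordinal.{0}} (h : ¬ IsSuccLimit a)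
    (h0 : a ≠ 0) : pf ρ a < a := by
  rcases Ordinal.zero_or_succ_or_isSuccLimit a with h1 | ⟨b, hb⟩ | h1
  · exact absurd h1 h0
  · have h2 : b < a := by rw [← hb]; exact lt_succ b
    refine lt_of_le_of_lt ?_ h2
    refine csInf_le' (Or.inr ⟨h, fun c hc => ?_⟩)
    rw [← hb] at hc
    exact lt_succ_iff.1 hc
  · exact absurd h1 h

theorem dp_pf {ρ : Ordinal.{0} → Ordinal.{0}} (hρ : DP (fun v => ρ (v 0).rank = (v 1).rank)) :
    DP (fun v => pf ρ (v 0).rank = (v 1).rank) := by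
  have h1 : DP (fun v => IsSuccLimit (v 0).rank) :=
    (DP.of (dn_dfn_lim 0)).congr fun v => dn_lim_iff.symm
  refine Helper86.HU.EX.dp_sInf (S := fun a => {b | (IsSuccLimit a ∧ ρ a = b) ∨
    (¬ IsSuccLimit a ∧ ∀ c, c < a → c ≤ b)}) ?_ 0 1
  refine (h1.and hρ).or ((DP.not h1).and ?_)
  refine DP.allO (Q := fun c v => c < (v 0).rank → c ≤ (v 1).rank) ?_
  exact (DP.rank_lt 0 1).imp (DP.rank_le 0 2)

theorem not_normal (hRC : Helper36.HS.StRC) {σ : Cardinal.{0}} (hσ : ℵ₀ ≤ σ)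
    (hs : SuccCorrect σ) {U : ZFSet.{0}} (hU : HODNormal (succ σ).ord U) : False := by
  set c : Cardinal.{0} := succ σ with hc
  have hreg : c.IsRegular := isRegular_succ hσ
  have hlim : IsSuccLimit c.ord := isSuccLimit_ord hreg.aleph0_le
  have h0 : (0 : Ordinal.{0}) < c.ord := pos_iff_ne_zero.2 (Ordinal.isSuccLimit_iff.1 hlim).1
  have hσc : σ.ord < c.ord := ord_lt_ord.2 (lt_succ σ)
  obtain ⟨ρ, cf, H⟩ := hRC c.ord
  have hρσ : ∀ a < c.ord, IsSuccLimit a → ρ a ≤ σ.ord := by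
    intro a ha hl
    by_contra hcon
    exact hs.2.2 _ (not_le.1 hcon) ((H.le a ha hl).trans_lt ha) (H.reg a ha hl)
  -- the cofinality in HOD is constant
  obtain ⟨η, hη, hη1⟩ := press hU (f := pf ρ) (dp_pf H.dpr)
    (hU.tail (succ σ.ord) (hlim.succ_lt hσc)) (by
      intro a ha hac h1
      have ha' : σ.ord < a := succ_le_iff.1 ha
      by_cases hl : IsSuccLimit a
      · rw [pf_lim hl]
        exact (hρσ a hac hl).trans_lt ha'
      · exact pf_lt hl h1)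
  have hη2 : succ (succ η) < c.ord := hlim.succ_lt (hlim.succ_lt hη)
  set T : Set Ordinal.{0} := {a | a ∈ {a | pf ρ a = η} ∧ a ∈ {a | succ (succ η) ≤ a}} with hT
  have hTU : ordSet c.ord T ∈ U := inter_mem hU hη1 (hU.tail _ hη2)
  have hTl : ∀ a ∈ T, IsSuccLimit a ∧ ρ a = η := by
    rintro a ⟨h1, h2⟩
    have h1' : pf ρ a = η := h1
    have h2' : succ (succ η) ≤ a := h2
    by_cases hl : IsSuccLimit a
    · rw [pf_lim hl] at h1'
      exact ⟨hl, h1'⟩
    · have h3 := pf_not_lim (ρ := ρ) hl (succ η) (succ_le_iff.1 h2')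
      rw [h1'] at h3
      exact absurd (lt_succ η) (not_lt.2 h3)
  -- the values of the cofinal functions are constant
  have hβ : ∀ x : Set.Iio η, ∃ β < c.ord, ordSet c.ord {a | cf a x.1 = β} ∈ U := by
    rintro ⟨x, hx⟩
    refine press hU (f := fun a => cf a x) ?_ hTU ?_
    · exact dp_subst_at (Q := fun y v => cf (v 0).rank y = (v 1).rank)
        (H.dpc.rename (fun n => if n = 0 then 1 else if n = 1 then 0 else 2)) x
    · intro a ha hac _
      obtain ⟨hl, h1⟩ := hTl a ha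
      refine H.lt a hac hl x ?_
      rw [h1]; exact hx
  choose β hβ1 hβ2 using hβ
  have hsup : (⨆ x : Set.Iio η, β x) < c.ord := by
    refine Ordinal.lift_iSup_lt_of_lt_cof ?_ hβ1
    rw [Cardinal.mk_Iio_ordinal, ← Ordinal.lift_cof, hreg.cof_ord]
    rw [Cardinal.lift_lift, Cardinal.lift_lt]
    exact Cardinal.lt_ord.mp hη
  set s : Ordinal.{0} := ⨆ x : Set.Iio η, β x with hsdef
  have hβs : ∀ x, β x ≤ s := fun x => Ordinal.le_iSup _ x
  set T' : Set Ordinal.{0} := {a | a ∈ T ∧ a ∈ {a | succ s ≤ a}} with hT'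
  have hTU' : ordSet c.ord T' ∈ U := inter_mem hU hTU (hU.tail _ (hlim.succ_lt hsup))
  have hx : ∀ a ∈ T', a < c.ord → s < cf a (sInf {x | s < cf a x}) ∧
      sInf {x | s < cf a x} < η := by
    rintro a ⟨h1, h2⟩ hac
    obtain ⟨hl, h3⟩ := hTl a h1
    obtain ⟨x, hx, h4⟩ := H.unb a hac hl s (succ_le_iff.1 h2)
    have h5 : x ∈ {x | s < cf a x} := h4
    refine ⟨csInf_mem (⟨x, h5⟩ : Set.Nonempty _), (csInf_le' h5).trans_lt ?_⟩
    rw [← h3]; exact hx
  obtain ⟨x, hx1, hx2⟩ := press hU (f := fun a => sInf {x | s < cf a x})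
    (Helper86.HU.EX.dp_sInf (S := fun a => {x | s < cf a x}) (by
      have h1 : DP (fun v => ∃ y : Ordinal.{0}, cf (v 0).rank (v 1).rank = y ∧ s < y) := by
        refine DP.exO (Q := fun y v => cf (v 0).rank (v 1).rank = y ∧ s < y) ?_
        exact (H.dpc.rename (fun n => if n = 0 then 1 else if n = 1 then 2 else 0)).and
          (DP.ord_lt_rank 0 s)
      refine h1.congr fun v => ?_
      constructor
      · intro h
        exact ⟨_, rfl, h⟩
      · rintro ⟨y, h2, h3⟩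
        rw [← h2] at h3
        exact h3) 0 1) hTU' (by
      intro a ha hac _
      refine (hx a ha hac).2.trans_le ?_
      have h1 := hTl a ha.1
      rw [← h1.2]
      exact H.le a hac h1.1)
  obtain ⟨a, hac, h1, h2⟩ := exists_mem hU h0 (inter_mem hU hTU' hx2)
  have h2' : sInf {x | s < cf a x} = x := h2
  obtain ⟨h3, h4⟩ := hx a h1 hac
  rw [h2'] at h3 h4
  obtain ⟨b, hbc, ⟨h5, h6⟩, h7⟩ := exists_mem hU h0
    (inter_mem hU (inter_mem hU hTU' hx2) (hβ2 ⟨x, h4⟩))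
  have h6' : sInf {x | s < cf b x} = x := h6
  have h7' : cf b x = β ⟨x, h4⟩ := h7
  obtain ⟨h8, -⟩ := hx b h5 hbc
  rw [h6', h7'] at h8
  exact absurd (hβs _) (not_le.2 h8)

end Pool.Agent.Helper16.HR
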