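import Pool.Agent.Helper16.HR.Fail
import Pool.Agent.Helper16.HR.Meas

/-! # HR: local form of the alternative -/

set_option autoImplicit false

namespace Pool.Agent.Helper16.HR

open Ordinal Cardinal ZFSet Order Pool.Agent.Helper73.HODC Pool.Agent.Helper73.HE
open Pool.Agent.Helper73.HM Pool.Agent.Helper73.HU Pool.Agent.Helper73.HV
open Pool.Agent.Helper36.HS Pool.Agent.Helper73.HX

/-- covering below the successor of a regular cardinal in HOD -/
theorem coverW (hLE : StLE) (hSD : StSD) (hEXG : StEXG) (hRX : StRX) {c : Cardinal.{0}}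
    (hc : ℵ₀ < c) {τ : Ordinal.{0}} (hn : HODNext c.ord τ) (hcof : τ.cof = c)
    (hc' : c.IsRegular) {A : Set Ordinal.{0}} (hA : DPs A) (hAl : ∀ a ∈ A, a < τ)
    (hAc : ∀ a ∈ A, a.cof = ℵ₀) (hat : Atom τ A) : HODCover c τ := by
  have hτ : ℵ₀ < τ.cof := by rw [hcof]; exact hc
  have hx : ∀ a ∈ A, ∃ x, LeastOD τ (SmallCof c.ord a) x := by
    intro a ha
    have hlim : IsSuccLimit a :=
      Ordinal.one_lt_cof_iff.1 (by rw [hAc a ha]; exact Cardinal.one_lt_aleph0)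
    obtain ⟨γ, hγa, hγ, hγc, x, hx1, hx2, hx3, hx4, hx5⟩ := hEXG τ a hlim (hAl a ha)
    have h1 : γ ≤ c.ord := by
      by_contra h
      exact hn.2.2 γ (not_le.1 h) (hγa.trans_lt (hAl a ha)) hγ
    have h2 : γ < c.ord := by
      refine lt_of_le_of_ne h1 ?_
      rintro rfl
      rw [hc'.cof_ord, hAc a ha] at hγc
      exact hc.ne' hγc
    exact hLE.2 τ _ ⟨x, hx1, hx2, hx3, hx4, otpLt_mono hx5 (add_one_le_iff.2 h2)⟩
  let C : Ordinal.{0} → Ordinal.{0} → Prop := fun a b =>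
    ∃ x, LeastOD τ (SmallCof c.ord a) x ∧ b ∈ st x
  have hC : DP (fun v => C (v 0).rank (v 1).rank) := hSD c.ord τ
  have hCx : ∀ a ∈ A, ∃ x, SmallCof c.ord a x ∧ ∀ b, C a b ↔ b ∈ st x := by
    intro a ha
    obtain ⟨x, hx⟩ := hx a ha
    refine ⟨x, hx.1.2.2, fun b => ⟨?_, fun h => ⟨x, hx, h⟩⟩⟩
    rintro ⟨y, hy, hb⟩
    rwa [hLE.1 _ _ _ _ hy hx] at hb
  obtain ⟨R, hR, hR1, hR2⟩ := hRX c.ord τ A C hτ hn.2.1 hA hAl hat hC
    (fun a ha β hβ => by
      obtain ⟨x, hx, hb⟩ := hCx a ha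
      obtain ⟨b, hb1, hb2, hb3⟩ := hx.2.1 β hβ
      exact ⟨b, (hb b).2 hb1, hb2.le, hb3⟩)
    (fun a ha => by
      obtain ⟨x, hx, hb⟩ := hCx a ha
      have : {b | C a b} = st x := Set.ext hb
      rw [this]
      exact hx.2.2)
  exact cover_of hτ hcof hR hat.1 hR1 hR2

/-- the facts which are used -/
structure Facts : Prop where
  pw : StPW
  nmp : StNMap
  tr : StTR
  nao : StNAO
  nm : StNM
  ps : StPS
  key : StKEY
  rc : Helper36.HS.StRC
  le : StLE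
  sd : StSD
  exg : StEXG
  rx : StRX
  fn : StFN
  nu : StNU
  m : StM
  ma : StMA
  uu : StUU
  ld : StLD
  re : StRE

theorem facts : Facts := by
  have hTC : StTC := Helper77.HM.TC.tc
  have hTS : StTS := Helper12.HM.ts hTC
  have hTD : StTD := td_of hTC hTS
  have hOZ : StOZ := Helper30.HM.oz hTD
  have hHP : StHP := hp_of hTD hOZ
  have hLE : StLE := Helper14.HM.le hTC hOZ
  have hLS : StLS := Helper62.HM.LS.ls hTD
  have hLD : StLD := ld_of hHP hLS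
  have hNE : StNE := ne hLE
  have hND : StND := nd re hLD
  have hUD : StUD := ud_of hHP
  have hNM : StNM := Helper29.HM.NM.nm hHP hUD
  have hCF : StCF := Helper14.HM.cf
  have hNMp : StNMap := Helper68.HU.nmap
  have hTR : StTR := Helper68.HU.tr
  have hFO : StFO := Helper68.HU.fo hNMp hTR
  have hNSO : StNSO := nso hLE hNE hND
  have hNAO : StNAO := nao hLE hNE hND hNSO
  have hEB : StEB := Helper31.HU.EB.eb
  have hBD : StBD := Helper8.HU.bd hEB
  have hWN : StWN := Helper62.HU.WN.wn hFO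
  have hKEY : StKEY := Helper76.HV.key hEB
  have hCU : StCU := Helper38.HVCU.cu hNMp hTR
  have hPB : StPB := Helper17.HV.pb hNMp hTR
  have hEXG : StEXG := Helper76.HV.exg
  have hCP : StCP := Helper76.HV.cp hEXG hLE hLD
  have hPS : StPS := ps hFO hPB
  have hJB : StJB := jb hBD
  exact ⟨Helper29.HM.PW.pw hLE hLD re hHP, hNMp, hTR, hNAO, hNM, hPS, hKEY,
    Helper12.HS.rc hHP hLE hLD, hLE, Helper63.HU.sd hLD, hEXG, Helper22.HV.RX.rx hWN hKEY,
    Helper4.HV.FN.thm_fn hHP, Helper68.HV.nu hCF hNMp, mthm hCP hPS hKEY hJB hCU,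
    ma hCP hPS hKEY hJB hPB, Helper48.HU.UU.uu hUD, hLD, re⟩

/-- normal ultrafilters from atoms -/
theorem normal_at (F : Facts) {θ : Cardinal.{0}} (hθ : ℵ₀ < θ) (hAt : AtomsH (succ ℵ₀) θ)
    {c : Cardinal.{0}} (hc : c.IsRegular) (h : θ < c) : ∃ U, HODNormal c.ord U := by
  have hunc : ℵ₀ < c := hθ.trans h
  have hcof : ℵ₀ < c.ord.cof := by rw [hc.cof_ord]; exact hunc
  obtain ⟨A, hA, hA1, hA2⟩ := hAt c.ord {a | a.cof = ℵ₀} (by rw [hc.cof_ord]; exact h)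
    dps_cof_omega (stat_cof_omega hcof) (fun a ha => by
      have h2 : a.cof = ℵ₀ := ha
      rw [h2]; exact lt_succ _)
  exact ⟨_, F.nm c A hc hunc hA (fun a ha => (hA1 a ha).2) hA2⟩

/-- the alternative, from atoms -/
theorem large_of (F : Facts) {θ : Cardinal.{0}} (hθ : ℵ₀ < θ) (hAt : AtomsH (succ ℵ₀) θ)
    (hosm : ∀ c : Cardinal.{0}, c.IsRegular → θ < c → OmegaStronglyMeasurable c.ord)
    {c : Cardinal.{0}} (hc : c.IsRegular) (hθc : θ < c) : Large c := by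
  have h1θ : succ ℵ₀ ≤ θ := succ_le_of_lt hθ
  have hV : Concl (succ ℵ₀) θ := conclW F.uu F.sd F.le F.exg F.rx F.fn F.nu F.m
    F.ma (lt_succ _) h1θ hAt
  have hc0 : ℵ₀ < c := hθ.trans hθc
  refine ⟨hosm c hc hθc, normal_at F hθ hAt hc hθc, fun τ hτ => ?_⟩
  have hF := conclFW (lt_succ _) h1θ hV F.m hθc τ hτ
  rw [hc.cof_ord] at hF
  have hle : τ ≤ (succ c).ord := by
    by_contra hcon
    exact hτ.2.2 _ (ord_lt_ord.2 (lt_succ c)) (not_le.1 hcon)
      (hodReg_of_regular (isRegular_succ hc.aleph0_le))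
  refine ⟨lt_of_le_of_ne hle ?_, ?_⟩
  · rintro rfl
    obtain ⟨U, hU⟩ := normal_at F hθ hAt (isRegular_succ hc.aleph0_le) (hθc.trans (lt_succ c))
    exact not_normal F.rc hc.aleph0_le hτ hU
  · rcases hF.1 with h | h
    · exact Or.inl h
    · refine Or.inr ⟨h, ?_, hF.2 (by rw [h]; exact hθc)⟩
      obtain ⟨A, hA, hA1, hA2⟩ := hAt τ _ (by rw [h]; exact hθc) dps_cof_omega
        (stat_cof_omega (by rw [h]; exact hc0)) (fun a ha => by
          have h2 : a.cof = ℵ₀ := ha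
          rw [h2]; exact lt_succ _)
      exact coverW F.le F.sd F.exg F.rx hc0 hτ h hc hA (fun a ha => (hA1 a ha).2)
        (fun a ha => (hA1 a ha).1) hA2

/-- no sequence of length `κ₁` in HOD -/
theorem osm_at (F : Facts) {κ₁ c : Cardinal.{0}} (h0 : ℵ₀ ≤ κ₁) (hc : c.IsRegular)
    (h2 : (2 : Cardinal.{0}) ^ κ₁ < c) (hno : NoSeqO κ₁ c.ord {a | a.cof = ℵ₀}) :
    OmegaStronglyMeasurable c.ord := by
  refine ⟨κ₁, (aleph0_pos.trans_le h0).ne', ord_lt_ord.2 ((Cardinal.cantor κ₁).trans h2),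
    F.pw κ₁ c h2, ?_⟩
  rintro ⟨S, hS1, hS2, hS3, hS4, hS5⟩
  exact hno ⟨S, odRel_of_hod hS5, hS1, fun ξ hξ a ha => (hS2 ξ hξ a ha).2, hS4⟩

/-- the alternative, if there are no long sequences -/
theorem large_of_no (F : Facts) {κ₁ : Cardinal.{0}} (h0 : ℵ₀ ≤ κ₁)
    (hno : ∀ τ : Ordinal.{0}, (2 : Cardinal.{0}) ^ κ₁ < τ.cof → NoSeqO κ₁ τ {a | a.cof = ℵ₀})
    {c : Cardinal.{0}} (hc : c.IsRegular) (hθc : (2 : Cardinal.{0}) ^ κ₁ < c) : Large c :=
  large_of F (h0.trans_lt (Cardinal.cantor κ₁)) (atoms_of F.nao h0 hno)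
    (fun d hd h => osm_at F h0 hd h (hno d.ord (by rw [hd.cof_ord]; exact h))) hc hθc

/-- the alternative, from reflection -/
theorem large_of_refl (F : Facts) {χ κ : Cardinal.{0}} (hR : SimRefl χ κ) (hκ : ℵ₀ < κ)
    {α : Ordinal.{0}} (hlim : IsSuccLimit α) (hκα : κ.ord ≤ α) (hα : α.cof ≤ χ)
    (hs : ¬ HODSing α) {c : Cardinal.{0}} (hc : c.IsRegular)
    (hθc : (2 : Cardinal.{0}) ^ (succ α.card) < c) : Large c := by
  refine large_of_no F ?_ (fun τ hτ => noSeq_refl F.nmp F.tr hR hκ hlim hκα hα hs hτ) hc hθc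
  have h1 : κ ≤ succ α.card := by
    rw [← ord_le_ord]
    exact hκα.trans (lt_ord.2 (lt_succ α.card)).le
  exact hκ.le.trans h1

end Pool.Agent.Helper16.HR
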