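import Pool.Agent.Helper16.HR.Cover
import Pool.Agent.Helper16.HR.Loc
import Pool.Agent.Helper36.HS.LS

/-! # HR: exact reflection, the case of Martin's Maximum -/

set_option autoImplicit false

namespace Pool.Agent.Helper16.HR

open Ordinal Cardinal ZFSet Order Pool.Agent.Helper73.HODC Pool.Agent.Helper73.HE
open Pool.Agent.Helper73.HM Pool.Agent.Helper73.HU Pool.Agent.Helper73.HV
open Pool.Agent.Helper36.HS Pool.Agent.Helper73.HX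

theorem aleph_one_lt_two : ℵ_ 1 < (ℵ_ 2 : Cardinal.{0}) := by
  rw [aleph_lt_aleph]
  exact one_lt_two

theorem simRefl_of_MM (h : MMRefl) : SimRefl (ℵ_ 1) (ℵ_ 2) := by
  intro c hc h2 ι hι A hA hAc
  by_cases hne : Nonempty ι
  · obtain ⟨σ, h3, h4, h5, -⟩ := h c hc h2 ι hne hι A hA hAc
    refine ⟨σ, h3, ?_, ?_, h5⟩
    · rw [h4]; exact aleph0_lt_aleph_one
    · rw [h4]; exact aleph_one_lt_two
  · have hc0 : ℵ₀ < c := aleph0_lt_aleph_one.trans (aleph_one_lt_two.trans_le h2)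
    have hcof : ℵ₀ < c.ord.cof := by rw [hc.cof_ord]; exact hc0
    obtain ⟨σ, h3, h4, -, -⟩ := h c hc h2 Unit ⟨()⟩ (by
      rw [Cardinal.mk_fintype, Fintype.card_unit, Nat.cast_one]
      exact (one_lt_aleph0.trans aleph0_lt_aleph_one).le) (fun _ => {a | a.cof = ℵ₀})
      (fun _ => stat_cof_omega hcof) (fun _ a ha => ha)
    refine ⟨σ, h3, ?_, ?_, fun i => absurd ⟨i⟩ hne⟩
    · rw [h4]; exact aleph0_lt_aleph_one
    · rw [h4]; exact aleph_one_lt_two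

/-- exact reflection below ordinals of cofinality at least `ℵ₂` -/
theorem mmO (h2 : StNMap) (h3 : StTR) (hR : MMRefl) {τ : Ordinal.{0}} (hκτ : ℵ_ 2 ≤ τ.cof)
    (ι : Type) (hne : Nonempty ι) (hι : Cardinal.mk ι ≤ ℵ_ 1) (A : ι → Set Ordinal.{0})
    (hA : ∀ i, Stat (A i) τ) (hAc : ∀ i, ∀ a ∈ A i, a.cof = ℵ₀) :
    ∃ σ < τ, σ.cof = ℵ_ 1 ∧ (∀ i, Stat (A i) σ) ∧
        ∃ C : Set Ordinal.{0}, Club C σ ∧ ∀ a ∈ C, a < σ → ∃ i, a ∈ A i := by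
  have hun : ℵ₀ < τ.cof := aleph0_lt_aleph_one.trans (aleph_one_lt_two.trans_le hκτ)
  have hτ : IsSuccLimit τ := isSuccLimit_of_cof hun
  obtain ⟨h, hN, hh⟩ := h2 τ hτ
  have hreg : τ.cof.IsRegular := Helper68.HU.isRegular_cof' hτ
  have hcc : τ.cof.ord.cof = τ.cof := hreg.cof_ord
  have hμ : ℵ₀ < τ.cof.ord.cof := by rw [hcc]; exact hun
  obtain ⟨σ, hσc, hσ1, hσ3, C, hC, hC'⟩ := hR τ.cof hreg hκτ ι hne hι
    (fun i => {j | h j ∈ A i ∧ IsSuccLimit j}) (by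
      intro i
      have h4 : Stat {j | h j ∈ A i} τ.cof.ord := by
        rw [← h3 h hN τ.cof.ord hμ, hh]
        exact hA i
      exact (Stat.inter_club hμ h4 (club_limit hμ)).mono fun a ha _ => ⟨ha.1, ha.2⟩) (by
      rintro i j ⟨hj, hl⟩
      rw [← cof_map_of_isNormal hN hl]
      exact hAc i _ hj)
  have hσ0 : ℵ₀ < σ.cof := by rw [hσ1]; exact aleph0_lt_aleph_one
  have hσlim := isSuccLimit_of_cof hσ0
  have hcof := cof_map_of_isNormal hN hσlim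
  refine ⟨h σ, ?_, by rw [hcof]; exact hσ1, fun i => ?_, _,
    LS.club_img hN hσlim hC.1 hC.2, ?_⟩
  · rw [← hh]
    exact hN.strictMono hσc
  · rw [h3 h hN σ hσ0]
    exact (hσ3 i).mono fun a ha _ => ha.1
  · rintro a ⟨b, hb, hbσ, rfl⟩ -
    obtain ⟨i, hi⟩ := hC' b hb hbσ
    exact ⟨i, hi.1⟩

/-- sets of at most `ℵ₁` indices of a definable sequence of disjoint stationary sets belong to
HOD -/
theorem exact_code (h2 : StNMap) (h3 : StTR) (hR : MMRefl) {τ ν : Ordinal.{0}}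
    (hκτ : ℵ_ 2 ≤ τ.cof) {S : Ordinal.{0} → Set Ordinal.{0}}
    (hS : ODRel (fun ξ a => ξ < ν ∧ a < τ ∧ a ∈ S ξ)) (hstat : ∀ ξ < ν, Stat (S ξ) τ)
    (hcof : ∀ ξ < ν, ∀ a ∈ S ξ, a.cof = ℵ₀)
    (hdisj : ∀ ξ < ν, ∀ η < ν, ∀ a, a ∈ S ξ → a ∈ S η → ξ = η)
    {X : Set Ordinal.{0}} (hX : Cardinal.mk X ≤ Cardinal.lift.{1} (ℵ_ 1 : Cardinal.{0}))
    (hXν : ∀ a ∈ X, a < ν) : InHOD X := by
  obtain ⟨ι, z, hι, rfl⟩ := index hX
  by_cases hne : Nonempty ι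
  swap
  · refine ⟨(0 : Ordinal.{0}).toZFSet, HOD_toZFSet 0, fun w => ⟨fun hw => ?_, ?_⟩⟩
    · obtain ⟨b, hb, -⟩ := mem_toZFSet_iff.1 hw
      exact absurd hb (not_lt.2 zero_le)
    · rintro ⟨a, ⟨i, -⟩, -⟩
      exact absurd ⟨i⟩ hne
  have hz : ∀ i, z i < ν := fun i => hXν _ ⟨i, rfl⟩
  obtain ⟨σ, hσc, hσ1, hσ3, C, hC, hC'⟩ := mmO h2 h3 hR hκτ ι hne hι (fun i => S (z i))
    (fun i => hstat _ (hz i)) (fun i a ha => hcof _ (hz i) a ha)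
  have hσ0 : ℵ₀ < σ.cof := by rw [hσ1]; exact aleph0_lt_aleph_one
  have hd : DP (fun v => (v 0).rank ∈ {ξ | ξ < ν ∧ Stat (S ξ) σ}) := by
    rw [odRel_iff_DP] at hS
    have h3 : DP (fun v => Stat {a | (v 0).rank < ν ∧ a < τ ∧ a ∈ S (v 0).rank} σ) := by
      refine DP.statC (Q := fun a v => (v 0).rank < ν ∧ a < τ ∧ a ∈ S (v 0).rank) ?_ σ
      exact hS.rename (fun n => if n = 0 then 1 else 0)
    refine ((DP.rank_lt_ord 0 ν).and h3).congr fun v => ?_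
    constructor
    · rintro ⟨h4, h5⟩
      exact ⟨h4, h5.mono fun a ha haσ => ⟨h4, haσ.trans hσc, ha⟩⟩
    · rintro ⟨h4, h5⟩
      exact ⟨h4, h5.mono fun a ha _ => ha.2.2⟩
  refine ⟨ordSet ν {ξ | ξ < ν ∧ Stat (S ξ) σ}, HOD_ordSet _ _ hd, fun w => ?_⟩
  rw [mem_ordSet]
  constructor
  · rintro ⟨ξ, h3, ⟨-, h4⟩, rfl⟩
    obtain ⟨a, ha, haC, haσ⟩ := h4 C hC
    obtain ⟨i, hi⟩ := hC' a haC haσ
    exact ⟨ξ, ⟨i, hdisj _ (hz i) _ h3 a hi ha⟩, rfl⟩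
  · rintro ⟨a, ⟨i, rfl⟩, rfl⟩
    exact ⟨z i, hz i, ⟨hz i, hσ3 i⟩, rfl⟩

theorem two_le {κ₁ c : Cardinal.{0}} (h0 : ℵ₀ ≤ κ₁) (h : (2 : Cardinal.{0}) ^ κ₁ < c) :
    ℵ_ 2 ≤ c := by
  have h1 : ℵ_ 1 ≤ (2 : Cardinal.{0}) ^ κ₁ := by
    rw [aleph_one_le_iff]
    exact h0.trans_lt (Cardinal.cantor κ₁)
  have h2 : succ (ℵ_ 1 : Cardinal.{0}) = ℵ_ 2 := by
    rw [succ_aleph, one_add_one_eq_two]
  rw [← h2]
  exact succ_le_of_lt (h1.trans_lt h)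

/-- the alternative, from exact reflection -/
theorem large_of_mm (F : Facts) (hR : MMRefl) {κ₁ : Cardinal.{0}} (h0 : ℵ₀ ≤ κ₁)
    {X : Set Ordinal.{0}} (hX : Cardinal.mk X ≤ Cardinal.lift.{1} (ℵ_ 1 : Cardinal.{0}))
    (hXν : ∀ a ∈ X, a < κ₁.ord) (hn : ¬ InHOD X) {c : Cardinal.{0}} (hc : c.IsRegular)
    (hθc : (2 : Cardinal.{0}) ^ κ₁ < c) : Large c := by
  refine large_of_no F h0 (fun τ hτ => ?_) hc hθc
  rintro ⟨S, hS1, hS2, hS3, hS4⟩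
  exact hn (exact_code F.nmp F.tr hR (two_le h0 hτ) hS1 hS2
    (fun ξ hξ a ha => hS3 ξ hξ a ha) hS4 hX hXν)

end Pool.Agent.Helper16.HR
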