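import Pool.Agent.Helper16.HR.SC

/-! # HR: exact reflection, the general case -/

set_option autoImplicit false

namespace Pool.Agent.Helper16.HR

open Ordinal Cardinal ZFSet Order Pool.Agent.Helper73.HODC Pool.Agent.Helper73.HE
open Pool.Agent.Helper73.HM Pool.Agent.Helper73.HU Pool.Agent.Helper73.HV
open Pool.Agent.Helper36.HS Pool.Agent.Helper73.HX

theorem exact_of_MM (h : MMRefl) : ExactRefl (ℵ_ 1) (ℵ_ 2) := by
  intro c hc hκc ι hne hι A hA hAc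
  obtain ⟨σ, h3, h4, h5, C, hC, hC'⟩ := h c hc hκc ι hne hι A hA hAc
  refine ⟨σ, h3, ?_, ?_, h5, C, hC, fun a ha haσ _ => hC' a ha haσ⟩
  · rw [h4]; exact aleph0_lt_aleph_one
  · rw [h4]; exact aleph_one_lt_two

theorem simRefl_of_exact {χ κ : Cardinal.{0}} (hχ : ℵ₀ ≤ χ) (hκ : χ < κ)
    (h : ExactRefl χ κ) : SimRefl χ κ := by
  intro c hc h2 ι hι A hA hAc
  by_cases hne : Nonempty ι
  · obtain ⟨σ, h3, h4, h5, h6, -⟩ := h c hc h2 ι hne hι A hA hAc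
    exact ⟨σ, h3, h4, h5, h6⟩
  · have hc0 : ℵ₀ < c := (hχ.trans_lt hκ).trans_le h2
    have hcof : ℵ₀ < c.ord.cof := by rw [hc.cof_ord]; exact hc0
    obtain ⟨σ, h3, h4, h5, -, -⟩ := h c hc h2 Unit ⟨()⟩ (by
      rw [Cardinal.mk_fintype, Fintype.card_unit, Nat.cast_one]
      exact one_lt_aleph0.le.trans hχ) (fun _ => {a | a.cof = ℵ₀})
      (fun _ => stat_cof_omega hcof) (fun _ a ha => ha)
    exact ⟨σ, h3, h4, h5, fun i => absurd ⟨i⟩ hne⟩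

/-- exact reflection below ordinals of cofinality at least `κ` -/
theorem exactO (h2 : StNMap) (h3 : StTR) {χ κ : Cardinal.{0}} (hκ0 : ℵ₀ < κ)
    (hR : ExactRefl χ κ) {τ : Ordinal.{0}} (hκτ : κ ≤ τ.cof)
    (ι : Type) (hne : Nonempty ι) (hι : Cardinal.mk ι ≤ χ) (A : ι → Set Ordinal.{0})
    (hA : ∀ i, Stat (A i) τ) (hAc : ∀ i, ∀ a ∈ A i, a.cof = ℵ₀) :
    ∃ σ < τ, ℵ₀ < σ.cof ∧ σ.cof < κ ∧ (∀ i, Stat (A i) σ) ∧
        ∃ C : Set Ordinal.{0}, Club C σ ∧ ∀ a ∈ C, a < σ → a.cof = ℵ₀ → ∃ i, a ∈ A i := by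
  have hun : ℵ₀ < τ.cof := hκ0.trans_le hκτ
  have hτ : IsSuccLimit τ := isSuccLimit_of_cof hun
  obtain ⟨h, hN, hh⟩ := h2 τ hτ
  have hreg : τ.cof.IsRegular := Helper68.HU.isRegular_cof' hτ
  have hcc : τ.cof.ord.cof = τ.cof := hreg.cof_ord
  have hμ : ℵ₀ < τ.cof.ord.cof := by rw [hcc]; exact hun
  obtain ⟨σ, hσc, hσ1, hσ2, hσ3, C, hC, hC'⟩ := hR τ.cof hreg hκτ ι hne hι
    (fun i => {j | h j ∈ A i ∧ IsSuccLimit j}) (by
      intro i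
      have h4 : Stat {j | h j ∈ A i} τ.cof.ord := by
        rw [← h3 h hN τ.cof.ord hμ, hh]
        exact hA i
      exact (Stat.inter_club hμ h4 (club_limit hμ)).mono fun a ha _ => ⟨ha.1, ha.2⟩) (by
      rintro i j ⟨hj, hl⟩
      rw [← cof_map_of_isNormal hN hl]
      exact hAc i _ hj)
  have hσlim := isSuccLimit_of_cof hσ1
  have hcof := cof_map_of_isNormal hN hσlim
  have hC2 : Club {a | a ∈ C ∧ IsSuccLimit a} σ := Club.inter hσ1 hC (club_limit hσ1)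
  refine ⟨h σ, ?_, by rw [hcof]; exact hσ1, by rw [hcof]; exact hσ2, fun i => ?_, _,
    LS.club_img hN hσlim hC2.1 hC2.2, ?_⟩
  · rw [← hh]
    exact hN.strictMono hσc
  · rw [h3 h hN σ hσ1]
    exact (hσ3 i).mono fun a ha _ => ha.1
  · rintro a ⟨b, hb, hbσ, rfl⟩ - ha
    rw [cof_map_of_isNormal hN hb.2] at ha
    obtain ⟨i, hi⟩ := hC' b hb.1 hbσ ha
    exact ⟨i, hi.1⟩

/-- sets of at most `χ` indices of a definable sequence of disjoint stationary sets belong to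
HOD -/
theorem exact_codeG (h2 : StNMap) (h3 : StTR) {χ κ : Cardinal.{0}} (hκ0 : ℵ₀ < κ)
    (hR : ExactRefl χ κ) {τ ν : Ordinal.{0}}
    (hκτ : κ ≤ τ.cof) {S : Ordinal.{0} → Set Ordinal.{0}}
    (hS : ODRel (fun ξ a => ξ < ν ∧ a < τ ∧ a ∈ S ξ)) (hstat : ∀ ξ < ν, Stat (S ξ) τ)
    (hcof : ∀ ξ < ν, ∀ a ∈ S ξ, a.cof = ℵ₀)
    (hdisj : ∀ ξ < ν, ∀ η < ν, ∀ a, a ∈ S ξ → a ∈ S η → ξ = η)
    {X : Set Ordinal.{0}} (hX : Cardinal.mk X ≤ Cardinal.lift.{1} χ)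
    (hXν : ∀ a ∈ X, a < ν) : InHOD X := by
  obtain ⟨ι, z, hι, rfl⟩ := index hX
  by_cases hne : Nonempty ι
  swap
  · refine ⟨(0 : Ordinal.{0}).toZFSet, HOD_toZFSet 0, fun w => ⟨fun hw => ?_, ?_⟩⟩
    · obtain ⟨b, hb, -⟩ := mem_toZFSet_iff.1 hw
      exact absurd hb (not_lt.2 zero_le)
    · rintro ⟨a, ⟨i, -⟩, -⟩
      exact absurd ⟨i⟩ hne
  have hz : ∀ i, z i < ν := fun i => hXν _ ⟨i, rfl⟩
  obtain ⟨σ, hσc, hσ0, -, hσ3, C, hC, hC'⟩ := exactO h2 h3 hκ0 hR hκτ ι hne hι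
    (fun i => S (z i)) (fun i => hstat _ (hz i)) (fun i a ha => hcof _ (hz i) a ha)
  have hd : DP (fun v => (v 0).rank ∈ {ξ | ξ < ν ∧ Stat (S ξ) σ}) := by
    rw [odRel_iff_DP] at hS
    have h3 : DP (fun v => Stat {a | (v 0).rank < ν ∧ a < τ ∧ a ∈ S (v 0).rank} σ) := by
      refine DP.statC (Q := fun a v => (v 0).rank < ν ∧ a < τ ∧ a ∈ S (v 0).rank) ?_ σ
      exact hS.rename (fun n => if n = 0 then 1 else 0)
    refine ((DP.rank_lt_ord 0 ν).and h3).congr fun v => ?_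
    constructor
    · rintro ⟨h4, h5⟩
      exact ⟨h4, h5.mono fun a ha haσ => ⟨h4, haσ.trans hσc, ha⟩⟩
    · rintro ⟨h4, h5⟩
      exact ⟨h4, h5.mono fun a ha _ => ha.2.2⟩
  refine ⟨ordSet ν {ξ | ξ < ν ∧ Stat (S ξ) σ}, HOD_ordSet _ _ hd, fun w => ?_⟩
  rw [mem_ordSet]
  constructor
  · rintro ⟨ξ, h3, ⟨-, h4⟩, rfl⟩
    obtain ⟨a, ha, haC, haσ⟩ := h4 C hC
    obtain ⟨i, hi⟩ := hC' a haC haσ (hcof ξ h3 a ha)
    exact ⟨ξ, ⟨i, hdisj _ (hz i) _ h3 a hi ha⟩, rfl⟩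
  · rintro ⟨a, ⟨i, rfl⟩, rfl⟩
    exact ⟨z i, hz i, ⟨hz i, hσ3 i⟩, rfl⟩

/-- the alternative, from exact reflection -/
theorem large_of_exact (F : Facts) {χ κ : Cardinal.{0}} (hκ0 : ℵ₀ < κ) (hR : ExactRefl χ κ)
    {lam : Cardinal.{0}} (h0 : ℵ₀ ≤ lam) (hlam : κ ≤ succ ((2 : Cardinal.{0}) ^ lam))
    {X : Set Ordinal.{0}} (hX : Cardinal.mk X ≤ Cardinal.lift.{1} χ)
    (hXν : ∀ a ∈ X, a < lam.ord) (hn : ¬ InHOD X) {c : Cardinal.{0}} (hc : c.IsRegular)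
    (hθc : (2 : Cardinal.{0}) ^ lam < c) : Large c := by
  refine large_of_no F h0 (fun τ hτ => ?_) hc hθc
  rintro ⟨S, hS1, hS2, hS3, hS4⟩
  exact hn (exact_codeG F.nmp F.tr hκ0 hR (hlam.trans (succ_le_of_lt hτ)) hS1 hS2
    (fun ξ hξ a ha => hS3 ξ hξ a ha) hS4 hX hXν)

/-- a set which belongs to HOD is covered -/
theorem covers_of_closed {χ κ : Cardinal.{0}} (hκ : χ < κ)
    (h : ∀ X : Set Ordinal.{0}, Cardinal.mk X ≤ Cardinal.lift.{1} χ → InHOD X) :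
    HODCovers χ κ := by
  intro X hX
  obtain ⟨x, hx, h1⟩ := h X hX
  refine ⟨x, hx, fun a ha => (h1 _).2 ⟨a, ha, rfl⟩, ?_⟩
  have h2 : ∀ z : {z : ZFSet.{0} // z ∈ x}, ∃ a, a ∈ X ∧ z.1 = a.toZFSet := fun z =>
    (h1 z.1).1 z.2
  choose f hf hf' using h2
  have h3 : Cardinal.mk {z : ZFSet.{0} // z ∈ x} ≤ Cardinal.mk X := by
    refine Cardinal.mk_le_of_injective (f := fun z => (⟨f z, hf z⟩ : X)) fun z w hzw => ?_
    apply Subtype.ext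
    rw [hf' z, hf' w, (Subtype.mk.inj hzw : f z = f w)]
  exact (h3.trans hX).trans_lt (Cardinal.lift_lt.2 hκ)

/-- the HOD Hypothesis and closure under sequences of length `χ` -/
theorem hyp_iff_closedG {χ κ : Cardinal.{0}} (hχ : ℵ₀ ≤ χ) (hκ : χ < κ)
    (hR : ExactRefl χ κ) : HODHypothesis ↔
    ∀ X : Set Ordinal.{0}, Cardinal.mk X ≤ Cardinal.lift.{1} χ → InHOD X := by
  have hmain := main χ κ hχ hκ (simRefl_of_exact hχ hκ hR)
  have hκ0 : ℵ₀ < κ := hχ.trans_lt hκ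
  constructor
  · intro hH X hX
    by_contra hcon
    have hs : _root_.Small.{0} X := by
      obtain ⟨ι, z, -, rfl⟩ := index hX
      infer_instance
    obtain ⟨ν, hν⟩ : BddAbove X := Ordinal.bddAbove_of_small
    set lam : Cardinal.{0} := succ (max κ ν.card) with hlam
    have hν' : ν < lam.ord :=
      lt_ord.2 (lt_of_le_of_lt (le_max_right _ _) (lt_succ _))
    have h1 : κ ≤ lam := (le_max_left _ _).trans (le_succ _)
    have h8 : ∀ θ : Cardinal.{0}, ∃ c : Cardinal.{0}, θ < c ∧ c.IsRegular ∧ ¬ Large c :=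
      (hmain.out 0 8).1 hH
    obtain ⟨c, h2, h3, h4⟩ := h8 ((2 : Cardinal.{0}) ^ lam)
    refine h4 (large_of_exact facts hκ0 hR (hκ0.le.trans h1) ?_ hX
      (fun a ha => (hν ha).trans_lt hν') hcon h3 h2)
    exact (h1.trans (Cardinal.cantor lam).le).trans (le_succ _)
  · intro h
    exact (hmain.out 0 1).2 (covers_of_closed hκ h)

end Pool.Agent.Helper16.HR
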