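import Pool.Agent.Helper16.HR.Ord

/-! # HR: the successor cardinals of HOD if the HOD Hypothesis fails -/

set_option autoImplicit false

namespace Pool.Agent.Helper16.HR

open Ordinal Cardinal ZFSet Order Pool.Agent.Helper73.HODC Pool.Agent.Helper73.HE
open Pool.Agent.Helper73.HM Pool.Agent.Helper73.HU Pool.Agent.Helper73.HV
open Pool.Agent.Helper36.HS Pool.Agent.Helper73.HX

theorem conclW (hUU : StUU) (hSD : StSD) (hLE : StLE)
    (hEXG : StEXG) (hRX : StRX) (hFN : StFN) (hNU : StNU) (hM : StM) (hMA : StMA)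
    {κ θ : Cardinal.{0}} (hκ : ℵ₀ < κ) (hκθ : κ ≤ θ) (hAt : AtomsH κ θ) :
    Concl κ θ := by
  intro μ τ hμ hn
  have hμl : IsSuccLimit μ := by
    rcases hμ with h | ⟨σ, hσ, rfl⟩
    · exact h.1
    · exact Cardinal.isSuccLimit_ord hσ
  by_cases hω : τ.cof = ℵ₀
  · exact Or.inl hω
  right
  have hτ : ℵ₀ < τ.cof := lt_of_le_of_ne
    (Ordinal.aleph0_le_cof_iff.2 (Ordinal.one_lt_cof_iff.2 hn.2.1.1)) (Ne.symm hω)
  by_cases hle : τ.cof ≤ θ
  · -- small cofinality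
    left
    refine ⟨?_, hle⟩
    by_contra hlt
    rw [not_le] at hlt
    obtain ⟨γ, hγ, h⟩ := hM μ τ hn hμl hτ hlt.ne'
    by_cases hr : HODReg μ
    · exact absurd (h μ hr hγ le_rfl) (not_le.2 hlt)
    · obtain ⟨σ, hσ, rfl⟩ := hμ.resolve_left hr
      have hns : ¬ σ.IsRegular := fun h => hr (hodReg_of_regular h)
      have hc : τ.cof < σ := hlt.trans_le (Ordinal.cof_ord_le σ)
      obtain ⟨d, hd, h1, h2, h3⟩ := exists_reg hσ hns hγ hc
      have h4 := h d.ord (hodReg_of_regular hd) h1 (Cardinal.ord_le_ord.2 h3.le)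
      rw [hd.cof_ord] at h4
      exact absurd h4 (not_le.2 h2)
  · -- large cofinality
    right
    rw [not_le] at hle
    have hatom : ∀ ν : Cardinal.{0}, ν.IsRegular → ν < κ →
        ∃ A, DPs A ∧ (∀ a ∈ A, a.cof = ν ∧ a < τ) ∧ Atom τ A := by
      intro ν hν hνκ
      have hντ : ν < τ.cof := hνκ.trans_le (hκθ.trans hle.le)
      exact hAt τ _ hle (hNU ν hν).1 ((hNU ν hν).2 τ hντ)
        (fun a ha => lt_of_eq_of_lt ha hνκ)
    have hcof : μ.cof = τ.cof := by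
      by_contra hne
      obtain ⟨A, hA, hA1, hA2⟩ := hatom ℵ₀ Cardinal.isRegular_aleph0 hκ
      obtain ⟨γ, hγ, h⟩ := hMA μ τ A hn hμl hτ hne hA (fun a ha => ⟨
        Ordinal.one_lt_cof_iff.1 (by rw [(hA1 a ha).1]; exact Cardinal.one_lt_aleph0),
        (hA1 a ha).2⟩) hA2
      by_cases hr : HODReg μ
      · exact hne (h μ hr hγ le_rfl)
      · obtain ⟨σ, hσ, rfl⟩ := hμ.resolve_left hr
        have hns : ¬ σ.IsRegular := fun h => hr (hodReg_of_regular h)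
        have hω : ℵ₀ < σ := lt_of_le_of_ne hσ (fun h => hns (h ▸ Cardinal.isRegular_aleph0))
        obtain ⟨d, hd, h1, h2, h3⟩ := exists_reg hσ hns hγ hω
        obtain ⟨d', hd', h1', h2', h3'⟩ := exists_reg hσ hns hγ h3
        have h4 := h d.ord (hodReg_of_regular hd) h1 (Cardinal.ord_le_ord.2 h3.le)
        have h5 := h d'.ord (hodReg_of_regular hd') h1' (Cardinal.ord_le_ord.2 h3'.le)
        rw [hd.cof_ord] at h4
        rw [hd'.cof_ord] at h5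
        rw [h4, h5] at h2'
        exact lt_irrefl _ h2'
    refine ⟨hle, hcof.symm, fun ν hν hνκ δ hδμ hδ => ?_⟩
    obtain ⟨A, hA, hA1, hA2⟩ := hatom ν hν hνκ
    rw [hcof]
    exact exists_fine hLE hSD hEXG hUU hRX hFN hn hτ hν.aleph0_le hδ hA
      (fun a ha => (hA1 a ha).2) (fun a ha => (hA1 a ha).1) hA2


theorem conclFW {κ θ : Cardinal.{0}} (hκ : ℵ₀ < κ) (hκθ : κ ≤ θ)
    (hV : Concl κ θ) (hM : StM) {σ : Cardinal.{0}} (hσ : θ < σ) : ConclF θ σ := by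
  have hωθ : ℵ₀ < θ := hκ.trans_le hκθ
  have hωσ : ℵ₀ < σ := hωθ.trans hσ
  have hlim : IsSuccLimit σ.ord := Cardinal.isSuccLimit_ord hωσ.le
  intro τ hn
  rcases hV σ.ord τ (Or.inr ⟨σ, hωσ.le, rfl⟩) hn with h | ⟨h1, h2⟩ | ⟨h1, h2, h3⟩
  · refine ⟨Or.inl h, fun h4 => ?_⟩
    rw [h] at h4
    exact absurd h4 (not_lt.2 hωθ.le)
  · by_cases hc : τ.cof = ℵ₀
    · exact ⟨Or.inl hc, fun h4 => absurd h4 (not_lt.2 h2)⟩
    have hτ : ℵ₀ < τ.cof := lt_of_le_of_ne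
      (Ordinal.aleph0_le_cof_iff.2 (Ordinal.one_lt_cof_iff.2 hn.2.1.1)) (Ne.symm hc)
    have hns : ¬ σ.IsRegular := by
      intro hr
      rw [hr.cof_ord] at h1
      exact absurd (h1.trans h2) (not_le.2 hσ)
    refine ⟨Or.inr ?_, fun h4 => absurd h4 (not_lt.2 h2)⟩
    by_contra hne
    obtain ⟨γ, hγ, h⟩ := hM σ.ord τ hn hlim hτ (Ne.symm hne)
    obtain ⟨d, hd, h4, h5, h6⟩ := exists_reg hωσ.le hns hγ (h2.trans_lt hσ)
    have h7 := h d.ord (hodReg_of_regular hd) h4 (Cardinal.ord_le_ord.2 h6.le)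
    rw [hd.cof_ord] at h7
    exact absurd h7 (not_le.2 h5)
  · have h4 : ℵ₀ < σ.ord.cof := by
      rw [← h2]
      exact hωθ.trans h1
    refine ⟨Or.inr h2, fun _ => ?_⟩
    refine h3 ℵ₀ Cardinal.isRegular_aleph0 hκ σ.ord le_rfl fun ζ h6 h7 _ => ?_
    rw [le_antisymm h7 h6]
    exact h4.ne'


end Pool.Agent.Helper16.HR
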