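import Pool.Agent.Helper16.HR.Local

/-! # HR: the final theorem -/

set_option autoImplicit false

namespace Pool.Agent.Helper16.HR

open Ordinal Cardinal ZFSet Order Pool.Agent.Helper73.HODC Pool.Agent.Helper73.HE
open Pool.Agent.Helper73.HM Pool.Agent.Helper73.HU Pool.Agent.Helper73.HV
open Pool.Agent.Helper36.HS Pool.Agent.Helper73.HX

theorem simRefl_any {χ κ : Cardinal.{0}} (hχ : ℵ₀ ≤ χ) (hκ : χ < κ)
    (h : Extendible κ ∨ ExtFilters (succ χ) κ ∨ SimRefl χ κ) : SimRefl χ κ := by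
  rcases h with h | h | h
  · exact simRefl_ext hχ hκ (ext_of_stronglyCompact hκ (Extendible.stronglyCompact h))
  · exact simRefl_ext hχ hκ h
  · exact h

theorem countable_le {χ : Cardinal.{0}} (hχ : ℵ₀ ≤ χ) {X : Set Ordinal.{0}} :
    X.Countable → Cardinal.mk X ≤ Cardinal.lift.{1} χ := by
  intro h
  have h1 : Cardinal.mk X ≤ ℵ₀ := Cardinal.le_aleph0_iff_set_countable.2 h
  refine h1.trans ?_
  rw [← Cardinal.lift_aleph0.{1, 0}]
  exact Cardinal.lift_le.2 hχ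

theorem fin (χ κ : Cardinal.{0}) (hχ : ℵ₀ ≤ χ) (hκ : χ < κ)
    (h : Extendible κ ∨ ExtFilters (succ χ) κ ∨ SimRefl χ κ) :
    (∀ (ν : Ordinal.{0}) (θ : Cardinal.{0}), ℵ₀ < θ → κ ≤ succ θ → ν.card ≤ θ →
      (∀ ζ < ν, (2 : Cardinal.{0}) ^ ζ.card ≤ θ) →
      (∀ c : Cardinal.{0}, c.IsRegular → θ < c → Large c) ∨ Close χ κ ν) ∧
    List.TFAE [
      HODHypothesis,
      ∀ ν : Ordinal.{0}, Close χ κ ν,
      ∀ X : Set Ordinal.{0}, Cardinal.mk X ≤ Cardinal.lift.{1} χ →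
        ∃ η < κ.ord, ∃ b : ZFSet.{0}, b ⊆ η.toZFSet ∧ SetODFrom b X,
      ∃ B : ZFSet.{0}, ∀ X : Set Ordinal.{0}, X.Countable → ∃ b ∈ B, SetODFrom b X,
      ∀ θ : Cardinal.{0}, ∃ σ : Cardinal.{0}, θ < σ ∧ SuccCorrect σ,
      ∀ c : Cardinal.{0}, c.IsRegular → κ < c → ¬ OmegaStronglyMeasurable c.ord,
      ∀ θ : Cardinal.{0}, ∃ c : Cardinal.{0}, θ < c ∧ c.IsRegular ∧ ¬ Large c] := by
  have hR := simRefl_any hχ hκ h
  have hκ0 : ℵ₀ < κ := hχ.trans_lt hκ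
  have hmain := main χ κ hχ hκ hR
  refine ⟨fun ν θ h0 h1 h2 h3 => local_dich facts hχ hκ hR h0 h1 h2 h3, ?_⟩
  have hcov : HODCovers χ κ → ∀ X : Set Ordinal.{0}, Cardinal.mk X ≤ Cardinal.lift.{1} χ →
        ∃ η < κ.ord, ∃ b : ZFSet.{0}, b ⊆ η.toZFSet ∧ SetODFrom b X :=
    fun h2 X hX => from_of_covers h2 X hX
  tfae_have 1 → 2 := by
    intro h1 ν
    have h2 : HODCovers χ κ := (hmain.out 0 1).1 h1
    refine close_of_cover facts hχ hκ (fun X _ hX => h2 X hX)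
      fun hE X _ hX => (hyp_iff_closedG hχ hκ hE).1 h1 X hX
  tfae_have 2 → 3 := by
    intro h1
    refine hcov fun X hX => ?_
    obtain ⟨ι, z, -, rfl⟩ := index hX
    obtain ⟨ν, hν⟩ : BddAbove (Set.range z) := Ordinal.bddAbove_of_small
    exact (h1 (succ ν)).2.1 _ (fun a ha => lt_succ_iff.2 (hν ha)) hX
  tfae_have 3 → 4 := by
    intro h3
    obtain ⟨B, hB⟩ := from_set h3
    exact ⟨B, fun X hX => hB X (countable_le hχ hX)⟩
  tfae_have 4 → 1 := by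
    rintro ⟨B, hB⟩
    refine hyp_of_from (χ := ℵ₀) le_rfl ⟨B, fun X hX => hB X ?_⟩
    rw [Cardinal.lift_aleph0] at hX
    exact Cardinal.le_aleph0_iff_set_countable.1 hX
  tfae_have 1 ↔ 5 := hmain.out 0 4
  tfae_have 2 → 6 := fun h1 c hc hκc => (h1 c.ord).1 c hc hκc le_rfl
  tfae_have 6 → 1 := by
    intro h6 θ
    have h0 : ℵ₀ ≤ max κ θ.card := hκ0.le.trans (le_max_left _ _)
    exact ⟨succ (max κ θ.card), isRegular_succ h0,
      lt_ord.2 (lt_of_le_of_lt (le_max_right _ _) (lt_succ _)),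
      h6 _ (isRegular_succ h0) (lt_of_le_of_lt (le_max_left _ _) (lt_succ _))⟩
  tfae_have 1 ↔ 7 := hmain.out 0 8
  tfae_finish

end Pool.Agent.Helper16.HR
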