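import Pool.Agent.Helper16.HR.Exact2

/-! # HR: definability from a set -/

set_option autoImplicit false

namespace Pool.Agent.Helper16.HR

open Ordinal Cardinal ZFSet Order Pool.Agent.Helper73.HODC Pool.Agent.Helper73.HE
open Pool.Agent.Helper73.HM Pool.Agent.Helper73.HU Pool.Agent.Helper73.HV
open Pool.Agent.Helper36.HS Pool.Agent.Helper73.HX

/-- definability from a set, from definability over the universe -/
theorem odFrom_of_dp {A x : ZFSet.{0}} {Q : (ℕ → ZFSet.{0}) → Prop} (hQ : DP Q)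
    (h : ∀ v : ℕ → ZFSet.{0}, v 1 = A → (Q v ↔ v 0 = x)) : ODFrom A x := by
  obtain ⟨P, p, hP, hQP⟩ := hQ
  obtain ⟨φ, hφ⟩ := hP.rename (fun n => if n % 2 = 0 then (if n = 0 then 0 else if n = 2 then 1
      else 2) else n / 2 + 2)
  obtain ⟨θ, hθ, hr⟩ := reflection φ (max (max A.rank x.rank) (⨆ k, p k))
  have hA : A ∈ V_ θ := mem_vonNeumann.2
    (lt_of_le_of_lt ((le_max_left _ _).trans (le_max_left _ _)) hθ)
  have hx : x ∈ V_ θ := mem_vonNeumann.2
    (lt_of_le_of_lt ((le_max_right _ _).trans (le_max_left _ _)) hθ)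
  have hp : ∀ k, p k < θ := by
    intro k
    refine lt_of_le_of_lt ?_ hθ
    exact (le_ciSup (f := p) bddAbove_of_small k).trans (le_max_right _ _)
  refine ⟨θ, φ, p, hA, hp, hx, fun y hy => ?_⟩
  rw [hr, hφ]
  · have h1 := h (fun n => if n = 0 then y else if n = 1 then A else (p 0).toZFSet) (by simp)
    rw [hQP] at h1
    simp only [if_true] at h1
    rw [← h1]
    have : mixZ (fun n => if n = 0 then y else if n = 1 then A else (p 0).toZFSet)
        (fun k => (p k).toZFSet) = fun n => cons y (cons A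
          (fun k => (p k).toZFSet)) (if n % 2 = 0 then (if n = 0 then 0 else if n = 2 then 1
            else 2) else n / 2 + 2) := by
      funext n
      by_cases hn : n % 2 = 0
      · rw [mixZ, if_pos hn, if_pos hn]
        by_cases h0 : n = 0
        · subst h0; rfl
        · by_cases h2 : n = 2
          · subst h2; rfl
          · have h3 : n / 2 ≠ 0 := by omega
            have h4 : n / 2 ≠ 1 := by omega
            rw [if_neg h0, if_neg h2, if_neg h3, if_neg h4]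
            rfl
      · rw [mixZ, if_neg hn, if_neg hn]
        rfl
    rw [this]
  · intro n
    rcases n with _ | _ | n
    · exact hy
    · exact hA
    · rw [mem_vonNeumann]
      simp only [cons, rank_toZFSet]
      exact hp n

/-- all elements of a small set are enumerated, at indices below one ordinal -/
theorem enum_all {Γ : Set Ordinal.{0}} {κ : Cardinal.{0}}
    (hk : Cardinal.mk Γ < Cardinal.lift.{1} κ) :
    ∃ τ < κ.ord, (∀ b ∈ Γ, ∃ a < τ, Enum Γ a b) ∧ ∀ a b, Enum Γ a b → a < τ := by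
  have hex : ∃ τ < κ.ord, ¬ ∃ b, Enum Γ τ b := by
    by_contra hcon
    push Not at hcon
    choose! g hg using hcon
    have hinj : Function.Injective (fun x : Set.Iio κ.ord => (⟨g x.1, (hg x.1 x.2).1⟩ : Γ)) := by
      intro x y hxy
      have h1 : g x.1 = g y.1 := congrArg Subtype.val hxy
      have h2 := hg x.1 x.2
      rw [h1] at h2
      exact Subtype.ext (enum_inj h2 (hg y.1 y.2))
    have h1 := Cardinal.mk_le_of_injective hinj
    rw [Cardinal.mk_Iio_ordinal, Cardinal.card_ord] at h1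
    exact absurd h1 (not_le.mpr hk)
  let τ := sInf {τ : Ordinal.{0} | τ < κ.ord ∧ ¬ ∃ b, Enum Γ τ b}
  have hτ : τ ∈ {τ : Ordinal.{0} | τ < κ.ord ∧ ¬ ∃ b, Enum Γ τ b} := csInf_mem hex
  have hmin : ∀ ξ < τ, ∃ b, Enum Γ ξ b := by
    intro ξ hξ
    by_contra hcon
    exact absurd (csInf_le' (show ξ ∈ {τ : Ordinal.{0} | τ < κ.ord ∧ ¬ ∃ b, Enum Γ τ b} from
      ⟨hξ.trans hτ.1, hcon⟩)) (not_le.mpr hξ)
  refine ⟨τ, hτ.1, ?_, ?_⟩
  · intro b hb
    choose! g hg using hmin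
    by_contra hcon
    push Not at hcon
    obtain ⟨b', -, h'⟩ := enum_step (g := g) hg hb (fun x hx => by
      by_contra h
      rcases lt_or_eq_of_le (not_lt.1 h) with h1 | h1
      · obtain ⟨-, k, k1, k2, k3⟩ := hg x hx
        obtain ⟨y, hy, hyb⟩ := k3 b hb h1
        have h2 := enum_restrict k1 k2 k3 hy
        rw [hyb] at h2
        exact hcon y (hy.trans hx) h2
      · have h2 := hg x hx
        rw [← h1] at h2
        exact hcon x hx h2)
    exact hτ.2 ⟨b', h'⟩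
  · intro a b hab
    by_contra hcon
    rcases lt_or_eq_of_le (not_lt.1 hcon) with h1 | h1
    · obtain ⟨-, k, k1, k2, k3⟩ := hab
      exact hτ.2 ⟨_, enum_restrict k1 k2 k3 h1⟩
    · rw [← h1] at hab
      exact hτ.2 ⟨_, hab⟩

/-- the ordinals in a set which belongs to HOD -/
theorem dp_of_hod {y : ZFSet.{0}} (hy : HOD y) :
    DP (fun v => (v 0).rank ∈ {a : Ordinal.{0} | a.toZFSet ∈ y}) := by
  have h2 : DP (fun v => ∃ u : ZFSet.{0}, (u = u.rank.toZFSet ∧ u.rank = (v 1).rank) ∧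
      u ∈ v 0) := by
    refine DP.ex (Q := fun u v => (u = u.rank.toZFSet ∧ u.rank = (v 1).rank) ∧ u ∈ v 0) ?_
    exact ((DP.isOrd 0).and (DP.rank_eq 0 2)).and (DP.mem 0 1)
  refine (dp_subst_HOD (Q := fun x v => ∃ u : ZFSet.{0}, (u = u.rank.toZFSet ∧
    u.rank = (v 0).rank) ∧ u ∈ x) h2 hy).congr fun v => ?_
  constructor
  · intro h3
    exact ⟨_, ⟨by rw [rank_toZFSet], rank_toZFSet _⟩, h3⟩
  · rintro ⟨u, ⟨h3, h4⟩, h5⟩
    rw [h3, h4] at h5
    exact h5

theorem st_ordSet (lam : Ordinal.{0}) (Y : Set Ordinal.{0}) (a : Ordinal.{0}) :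
    a ∈ st (ordSet lam Y) ↔ a < lam ∧ a ∈ Y := by
  constructor
  · rintro ⟨z, hz, rfl⟩
    obtain ⟨b, hb, hbY, rfl⟩ := (mem_ordSet _ _ _).1 hz
    rw [rank_toZFSet]
    exact ⟨hb, hbY⟩
  · rintro ⟨h1, h2⟩
    exact ⟨a.toZFSet, (mem_ordSet _ _ _).2 ⟨a, h1, h2, rfl⟩, rank_toZFSet a⟩

/-- covering implies definability from bounded subsets of `κ` -/
theorem from_of_covers {χ κ : Cardinal.{0}} (hC : HODCovers χ κ) (X : Set Ordinal.{0})
    (hX : Cardinal.mk X ≤ Cardinal.lift.{1} χ) :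
    ∃ η < κ.ord, ∃ b : ZFSet.{0}, b ⊆ η.toZFSet ∧ SetODFrom b X := by
  obtain ⟨y, hy, hy1, hy2⟩ := hC X hX
  obtain ⟨ι, z, hι, rfl⟩ := index hX
  obtain ⟨ν, hν⟩ : BddAbove (Set.range z) := Ordinal.bddAbove_of_small
  set Γ : Set Ordinal.{0} := {a : Ordinal.{0} | a.toZFSet ∈ y} with hΓ
  have hΓk : Cardinal.mk Γ < Cardinal.lift.{1} κ := by
    refine lt_of_le_of_lt ?_ hy2
    refine Cardinal.mk_le_of_injective (f := fun a => (⟨a.1.toZFSet, a.2⟩ :
      {z : ZFSet.{0} // z ∈ y})) fun a b hab => ?_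
    exact Subtype.ext (toZFSet_injective (Subtype.mk.inj hab))
  obtain ⟨η, hη, hη1, hη2⟩ := enum_all hΓk
  set E : Set Ordinal.{0} := {a | ∃ b ∈ Set.range z, Enum Γ a b} with hE
  have hmem : ∀ w : ZFSet.{0}, w ∈ ordSet (succ ν) (Set.range z) ↔
      ∃ a ∈ Set.range z, w = a.toZFSet := by
    intro w
    rw [mem_ordSet]
    constructor
    · rintro ⟨a, -, h1, h2⟩
      exact ⟨a, h1, h2⟩
    · rintro ⟨a, h1, h2⟩
      exact ⟨a, lt_succ_iff.2 (hν h1), h1, h2⟩
  refine ⟨η, hη, ordSet η E, ?_, ordSet (succ ν) (Set.range z), ?_, hmem⟩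
  · intro w hw
    obtain ⟨a, ha, -, rfl⟩ := (mem_ordSet _ _ _).1 hw
    exact mem_toZFSet_iff.2 ⟨a, ha, rfl⟩
  have hen := DP.enum (dp_of_hod hy)
  -- the definition
  let Q : (ℕ → ZFSet.{0}) → Prop := fun v => ∀ w, w ∈ v 0 ↔ (w = w.rank.toZFSet ∧
    ∃ a : Ordinal.{0}, a ∈ st (v 1) ∧ Enum Γ a w.rank)
  have hQ : DP Q := by
    refine DP.all (Q := fun w v => w ∈ v 0 ↔ (w = w.rank.toZFSet ∧
      ∃ a : Ordinal.{0}, a ∈ st (v 1) ∧ Enum Γ a w.rank)) ?_
    refine (DP.mem 0 1).iff ((DP.isOrd 0).and ?_)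
    refine DP.exO (Q := fun a v => a ∈ st (v 2) ∧ Enum Γ a (v 0).rank) ?_
    exact (DP.st 0 3).and (hen.rename (fun n => if n = 0 then 0 else 1))
  refine odFrom_of_dp hQ fun v hv => ?_
  have hX' : ∀ w : ZFSet.{0}, (w = w.rank.toZFSet ∧
      ∃ a : Ordinal.{0}, a ∈ st (v 1) ∧ Enum Γ a w.rank) ↔
        w ∈ ordSet (succ ν) (Set.range z) := by
    intro w
    rw [hmem, hv]
    constructor
    · rintro ⟨h1, a, h3, h4⟩
      rw [st_ordSet] at h3
      obtain ⟨b, hb, h8⟩ := h3.2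
      have h9 := enum_unique h4 h8
      exact ⟨b, hb, by rw [h1, h9]⟩
    · rintro ⟨b, hb, rfl⟩
      refine ⟨by rw [rank_toZFSet], ?_⟩
      have hbΓ : b ∈ Γ := hy1 b hb
      obtain ⟨a, ha, hab⟩ := hη1 b hbΓ
      refine ⟨a, (st_ordSet _ _ _).2 ⟨ha, ⟨b, hb, hab⟩⟩, ?_⟩
      rw [rank_toZFSet]
      exact hab
  constructor
  · intro h
    ext w
    exact (h w).trans (hX' w)
  · intro h w
    rw [hX' w, h]

/-- definability from bounded subsets of `κ` implies definability from the elements of one set -/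
theorem from_set {χ κ : Cardinal.{0}} (h : ∀ X : Set Ordinal.{0},
    Cardinal.mk X ≤ Cardinal.lift.{1} χ →
      ∃ η < κ.ord, ∃ b : ZFSet.{0}, b ⊆ η.toZFSet ∧ SetODFrom b X) :
    ∃ B : ZFSet.{0}, ∀ X : Set Ordinal.{0}, Cardinal.mk X ≤ Cardinal.lift.{1} χ →
      ∃ b ∈ B, SetODFrom b X := by
  refine ⟨powerset κ.ord.toZFSet, fun X hX => ?_⟩
  obtain ⟨η, hη, b, hb, hbX⟩ := h X hX
  refine ⟨b, mem_powerset.2 fun w hw => ?_, hbX⟩
  obtain ⟨a, ha, rfl⟩ := mem_toZFSet_iff.1 (hb hw)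
  exact mem_toZFSet_iff.2 ⟨a, ha.trans hη, rfl⟩

/-- satisfaction in `V_θ` with ordinal parameters -/
theorem dp_sat (θ : Ordinal.{0}) (φ : Fm) (p : ℕ → Ordinal.{0}) :
    DP (fun v => Sat {z | z ∈ V_ θ} φ (cons (v 0) (cons (v 1) (fun k => (p k).toZFSet)))) := by
  refine ⟨fun w => Sat {z | z ∈ V_ (w 1).rank} φ (fun n => w (if n = 0 then 0 else
    if n = 1 then 2 else 2 * (n - 1) + 1)), fun k => if k = 0 then θ else p (k - 1),
    dfn_satV φ 1 _, fun v => ?_⟩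
  have h1 : (mixZ v (fun k => (if k = 0 then θ else p (k - 1)).toZFSet) 1).rank = θ := by
    have h2 := mixZ_odd v (fun k => (if k = 0 then θ else p (k - 1)).toZFSet) 0
    simp only [mul_zero, zero_add, if_true] at h2
    rw [h2, rank_toZFSet]
  have h3 : cons (v 0) (cons (v 1) (fun k => (p k).toZFSet)) = fun n =>
      mixZ v (fun k => (if k = 0 then θ else p (k - 1)).toZFSet) (if n = 0 then 0 else
        if n = 1 then 2 else 2 * (n - 1) + 1) := by
    funext n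
    rcases n with _ | _ | n
    · rfl
    · rfl
    · rw [if_neg (by omega), if_neg (by omega), mixZ_odd, if_neg (by omega)]
      have h4 : n + 1 + 1 - 1 - 1 = n := by omega
      rw [h4]
      rfl
  beta_reduce
  rw [h1, h3]

/-- definability from the elements of one set implies that all large ordinals of cofinality `ω`
are singular in HOD -/
theorem sing_of_from {χ : Cardinal.{0}} (hχ : ℵ₀ ≤ χ) {B₀ : ZFSet.{0}}
    (hC : ∀ X : Set Ordinal.{0}, Cardinal.mk X ≤ Cardinal.lift.{1} χ →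
      ∃ b ∈ B₀, SetODFrom b X) :
    ∃ κ : Cardinal.{0}, ℵ₀ < κ ∧ ∀ α : Ordinal.{0}, κ.ord ≤ α → α.cof = ℵ₀ → HODSing α := by
  classical
  set γ : Ordinal.{0} := B₀.rank with hγ
  let T : Type := Shrink.{0} {B : ZFSet.{0} // B ∈ V_ γ}
  let eT : {B : ZFSet.{0} // B ∈ V_ γ} ≃ T := equivShrink _
  set κ : Cardinal.{0} := succ (max ℵ₀ (Cardinal.mk T)) with hκ
  have hκ0 : ℵ₀ < κ := lt_of_le_of_lt (le_max_left _ _) (lt_succ _)
  refine ⟨κ, hκ0, fun α hκα hαc => ?_⟩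
  have hα : IsSuccLimit α := by
    rw [← one_lt_cof_iff, hαc]; exact one_lt_aleph0
  obtain ⟨ι, z, hι, hz, hz'⟩ := Helper96.HM.cv_cofinal α
  rw [hαc] at hι
  have hX : Cardinal.mk (Set.range z) ≤ Cardinal.lift.{1} χ := by
    have h1 := Cardinal.mk_range_le_lift (f := z)
    rw [Cardinal.lift_uzero, hι] at h1
    exact h1.trans (Cardinal.lift_le.2 hχ)
  obtain ⟨A, hAB, x, ⟨θ, φ, p, hAθ, hp, hxθ, hx⟩, hxX⟩ := hC _ hX
  -- the sets defined from the elements of `V_γ`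
  let D : ZFSet.{0} → ZFSet.{0} → Prop := fun B u => u.rank < θ ∧ ∀ y : ZFSet.{0}, y.rank < θ →
    (Sat {z | z ∈ V_ θ} φ (cons y (cons B (fun k => (p k).toZFSet))) ↔ y = u)
  let K : ZFSet.{0} → Prop := fun u => ∃ g : ZFSet.{0}, ∀ η : Ordinal.{0}, η ∈ st u →
    ∃ n : Ordinal.{0}, n < ω ∧ fn g n = η
  let Y : Set Ordinal.{0} := {η | ∃ B, B.rank < γ ∧ ∃ u, D B u ∧ K u ∧ η ∈ st u}
  have hDP : DP (fun v => (v 0).rank ∈ Y) := by
    show DP (fun v => ∃ B, B.rank < γ ∧ ∃ u, D B u ∧ K u ∧ (v 0).rank ∈ st u)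
    refine DP.ex (Q := fun B v => B.rank < γ ∧ ∃ u, D B u ∧ K u ∧ (v 0).rank ∈ st u) ?_
    refine (DP.rank_lt_ord 0 γ).and ?_
    refine DP.ex (Q := fun u v => D (v 0) u ∧ K u ∧ (v 1).rank ∈ st u) ?_
    refine DP.and ?_ (DP.and ?_ (DP.st 2 0))
    · refine (DP.rank_lt_ord 0 θ).and ?_
      refine DP.all (Q := fun y v => y.rank < θ →
        (Sat {z | z ∈ V_ θ} φ (cons y (cons (v 1) (fun k => (p k).toZFSet))) ↔ y = v 0)) ?_
      refine (DP.rank_lt_ord 0 θ).imp (DP.iff ?_ (DP.eq 0 1))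
      exact (dp_sat θ φ p).rename (fun n => if n = 0 then 0 else 2)
    · refine DP.ex (Q := fun g v => ∀ η : Ordinal.{0}, η ∈ st (v 0) →
        ∃ n : Ordinal.{0}, n < ω ∧ fn g n = η) ?_
      refine DP.allO (Q := fun η v => η ∈ st (v 1) → ∃ n : Ordinal.{0}, n < ω ∧
        fn (v 0) n = η) ?_
      refine (DP.st 0 2).imp ?_
      refine DP.exO (Q := fun n v => n < ω ∧ fn (v 1) n = (v 0).rank) ?_
      exact (DP.rank_lt_ord 0 ω).and (DP.fn 2 0 1)
  -- the cardinality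
  have huniq : ∀ B u u', D B u → D B u' → u = u' := by
    intro B u u' h h'
    exact (h'.2 u h.1).1 ((h.2 u h.1).2 rfl)
  have hYcard : Cardinal.mk Y < Cardinal.lift.{1} κ := by
    let G : T × ℕ → Ordinal.{0} := fun q =>
      if h : ∃ u, D (eT.symm q.1).1 u ∧ K u then fn h.choose_spec.2.choose (q.2 : Ordinal.{0})
        else 0
    have hsub : Y ⊆ Set.range G := by
      rintro η ⟨B, hB, u, h1, h2, h3⟩
      have hB' : B ∈ V_ γ := mem_vonNeumann.2 hB
      have hex : ∃ u, D (eT.symm (eT ⟨B, hB'⟩)).1 u ∧ K u := by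
        rw [Equiv.symm_apply_apply]
        exact ⟨u, h1, h2⟩
      have hu : hex.choose = u := by
        have h4 := hex.choose_spec.1
        have h5 : D (eT.symm (eT ⟨B, hB'⟩)).1 u := by
          rw [Equiv.symm_apply_apply]
          exact h1
        exact huniq _ _ _ h4 h5
      obtain ⟨n, hn, h7⟩ := hex.choose_spec.2.choose_spec η (by rw [hu]; exact h3)
      obtain ⟨m, rfl⟩ := lt_omega0.1 hn
      refine ⟨(eT ⟨B, hB'⟩, m), ?_⟩
      show (if h : ∃ u, D (eT.symm (eT ⟨B, hB'⟩)).1 u ∧ K u then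
        fn h.choose_spec.2.choose (m : Ordinal.{0}) else 0) = η
      rw [dif_pos hex]
      exact h7
    have h1 := (Cardinal.mk_le_mk_of_subset hsub)
    have h2 := Cardinal.mk_range_le_lift (f := G)
    rw [Cardinal.lift_uzero] at h2
    have h3 : Cardinal.mk (T × ℕ) < κ := by
      rw [Cardinal.mk_prod, Cardinal.lift_id, Cardinal.lift_id, Cardinal.mk_nat]
      refine lt_of_le_of_lt ?_ (lt_succ (max ℵ₀ (Cardinal.mk T)))
      refine (Cardinal.mul_le_max _ _).trans ?_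
      refine max_le (max_le (le_max_right _ _) (le_max_left _ _)) (le_max_left _ _)
    exact (h1.trans h2).trans_lt (Cardinal.lift_lt.2 h3)
  refine hodSing_of_set hα hκα (one_lt_of hκ0 hκα) hDP hYcard fun β hβ => ?_
  obtain ⟨i, hi⟩ := hz' (succ β) (hα.succ_lt hβ)
  refine ⟨z i, ⟨A, rank_lt_of_mem hAB, x, ⟨mem_vonNeumann.1 hxθ, fun y hy => hx y (mem_vonNeumann.2 hy)⟩,
    ?_, ?_⟩, (lt_succ β).trans_le hi, hz i⟩
  · -- the set is countable
    have hcount : ∃ f : ℕ → ι, Function.Surjective f := by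
      have h1 : Cardinal.mk ι = Cardinal.mk ℕ := by rw [hι, Cardinal.mk_nat]
      obtain ⟨e⟩ := Cardinal.eq.1 h1
      exact ⟨e.symm, e.symm.surjective⟩
    obtain ⟨f, hf⟩ := hcount
    obtain ⟨g, hg⟩ : ∃ g : ZFSet.{0}, ∀ m : ℕ, fn g (m : Ordinal.{0}) = z (f m) := by
      let F : Ordinal.{0} → Ordinal.{0} := fun a => if h : ∃ m : ℕ, a = m then z (f h.choose) else 0
      refine ⟨graph ω F, fun m => ?_⟩
      rw [fn_graph (natCast_lt_omega0 m)]
      have hex : ∃ n : ℕ, (m : Ordinal.{0}) = n := ⟨m, rfl⟩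
      show (if h : ∃ n : ℕ, (m : Ordinal.{0}) = n then z (f h.choose) else 0) = z (f m)
      rw [dif_pos hex, ← Nat.cast_inj.1 hex.choose_spec]
    refine ⟨g, ?_⟩
    rintro η ⟨w, hw, rfl⟩
    obtain ⟨a, ⟨j, rfl⟩, rfl⟩ := (hxX w).1 hw
    obtain ⟨m, rfl⟩ := hf j
    exact ⟨m, natCast_lt_omega0 m, by rw [hg, rank_toZFSet]⟩
  · exact ⟨(z i).toZFSet, (hxX _).2 ⟨z i, ⟨i, rfl⟩, rfl⟩, rank_toZFSet _⟩

/-- definability from the elements of one set implies the HOD Hypothesis -/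
theorem hyp_of_from {χ : Cardinal.{0}} (hχ : ℵ₀ ≤ χ) (hC : ∃ B : ZFSet.{0},
    ∀ X : Set Ordinal.{0}, Cardinal.mk X ≤ Cardinal.lift.{1} χ → ∃ b ∈ B, SetODFrom b X) :
    HODHypothesis := by
  obtain ⟨B, hB⟩ := hC
  obtain ⟨κ, hκ, h⟩ := sing_of_from hχ hB
  exact hyp_of_sing hκ h

end Pool.Agent.Helper16.HR
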