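import Pool.Agent.Helper16.HR.Sharp
import Pool.Agent.Helper16.HR.Defs3

/-! # HR: the local dichotomy -/

set_option autoImplicit false

namespace Pool.Agent.Helper16.HR

open Ordinal Cardinal ZFSet Order Pool.Agent.Helper73.HODC Pool.Agent.Helper73.HE
open Pool.Agent.Helper73.HM Pool.Agent.Helper73.HU Pool.Agent.Helper73.HV
open Pool.Agent.Helper36.HS Pool.Agent.Helper73.HX

theorem nearL (hPS : StPS) (hKEY : StKEY) (hRC : Helper36.HS.StRC) (hNMp : StNMap)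
    (hTR : StTR) {κ : Cardinal.{0}}
    (hκ : ℵ₀ ≤ κ) {τ : Ordinal.{0}}
    (h7 : ∀ α : Ordinal.{0}, HODReg α → κ.ord ≤ α → α ≤ τ → α.cof ≠ ℵ₀)
    (hτ : HODReg τ) (hκτ : κ.ord ≤ τ) (hne : τ.cof ≠ κ.ord.cof) :
    τ.cof = τ.card := by
  classical
  have hlt : κ.ord < τ := lt_of_le_of_ne hκτ fun h => hne (by rw [← h])
  have hunc : ℵ₀ < τ.cof := by
    refine lt_of_le_of_ne (aleph0_le_cof_iff.2 (one_lt_cof_iff.2 hτ.1)) fun h => ?_
    exact h7 τ hτ hκτ le_rfl h.symm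
  obtain ⟨ρ, cf, H⟩ := hRC τ
  have hρ : ∀ a < τ, a.cof = ℵ₀ → ρ a < κ.ord := by
    intro a ha hac
    have hl : IsSuccLimit a := by
      rw [← one_lt_cof_iff, hac]; exact one_lt_aleph0
    by_contra hcon
    rw [not_lt] at hcon
    exact h7 _ (H.reg a ha hl) hcon ((H.le a ha hl).trans ha.le) (by rw [H.cof a ha hl, hac])
  have hpos := pos_of H hρ
  set X : Set Ordinal.{0} := {a | a.cof = ℵ₀ ∧ a < τ} with hX
  set C : Ordinal.{0} → Ordinal.{0} → Ordinal.{0} → Prop :=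
    fun a γ b => ∃ x, x ≤ γ ∧ x < ρ a ∧ cf a x = b with hC
  have hXd : DPs X := DP.and (DP.of (dfn_cof_omega 0)) (DP.rank_lt_ord 0 τ)
  have hXs : Stat X τ := (stat_cof_omega hunc).mono fun a ha hat => ⟨ha, hat⟩
  let P : Ordinal.{0} → Ordinal.{0} → Ordinal.{0} → Prop := fun ξ η γ =>
    Stat {a | a ∈ X ∧ ∃ b, C a γ b ∧ ξ ≤ b ∧ b ≤ η} τ
  obtain ⟨γ, hγ, e, hed, he⟩ := hKEY τ κ.ord P hτ hunc hlt (dp_P hXd hpos.dp τ)
    (fun ξ ξ' η η' γ γ' h6 h7 h8 h9 => h9.mono fun a ha _ => ⟨ha.1, by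
      obtain ⟨b, hb1, hb2, hb3⟩ := ha.2
      exact ⟨b, hpos.mono a _ _ b h8 hb1, h6.trans hb2, hb3.trans h7⟩⟩)
    (fun ξ hξ => hPS τ κ.ord X C hunc (Cardinal.isSuccLimit_ord hκ) (Ne.symm hne) hXs hpos ξ hξ)
  -- a club of order type the cofinality
  obtain ⟨h, hh, hhτ⟩ := hNMp τ hτ.1
  have hμ : ℵ₀ < (τ.cof.ord).cof := by
    rw [Ordinal.cof_ord_cof]; exact hunc
  have hpt : ∀ i : Set.Iio τ, ∃ k : Set.Iio τ.cof.ord, ∃ x : Set.Iio (γ + 1), x.1 < ρ (h k.1) ∧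
      e i.1 ≤ cf (h k.1) x.1 ∧ ∀ j : Set.Iio τ, i < j → cf (h k.1) x.1 < e j.1 := by
    rintro ⟨i, hi⟩
    obtain ⟨-, η, -, h1, h2⟩ := he i hi
    have h3 := h1
    simp only [P] at h3
    rw [← hhτ, hTR h hh _ hμ] at h3
    obtain ⟨k, ⟨-, b, ⟨x, hx1, hx2, rfl⟩, h4, h5⟩, -, hk⟩ :=
      h3 _ (club_univ (isSuccLimit_of_cof hμ))
    exact ⟨⟨k, hk⟩, ⟨x, hx1.trans_lt (lt_add_one γ)⟩, hx2, h4, fun j hij =>
      h5.trans_lt (h2 j.1 hij j.2)⟩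
  choose k x hx hk1 hk2 using hpt
  have hinj : Function.Injective (fun i : Set.Iio τ => (k i, x i)) := by
    intro i j hij
    simp only [Prod.mk.injEq] at hij
    rcases lt_trichotomy i j with h1 | h1 | h1
    · have h2 := hk2 i j h1
      rw [hij.1, hij.2] at h2
      exact absurd (hk1 j) (not_le.2 h2)
    · exact h1
    · have h2 := hk2 j i h1
      rw [← hij.1, ← hij.2] at h2
      exact absurd (hk1 i) (not_le.2 h2)
  have hcard := Cardinal.mk_le_of_injective hinj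
  rw [Cardinal.mk_prod, Cardinal.lift_id, Cardinal.lift_id, Cardinal.mk_Iio_ordinal,
    Cardinal.mk_Iio_ordinal, Cardinal.mk_Iio_ordinal, card_ord, ← Cardinal.lift_mul,
    Cardinal.lift_le] at hcard
  refine le_antisymm (cof_le_card τ) ?_
  by_contra hcon
  rw [not_le] at hcon
  have hκc : κ ≤ τ.card := by
    rw [← Cardinal.card_ord κ]; exact card_le_card hκτ
  have h0 : ℵ₀ ≤ τ.card := hκ.trans hκc
  have h1 : (γ + 1).card < τ.card := by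
    have h2 : γ + 1 < κ.ord := by
      rw [← Order.succ_eq_add_one]
      exact (Cardinal.isSuccLimit_ord hκ).succ_lt hγ
    exact (Cardinal.lt_ord.1 h2).trans_le hκc
  exact absurd hcard (not_le.2 (Cardinal.mul_lt_of_lt h0 hcon h1))

theorem near3L (hPS : StPS) (hKEY : StKEY) (hRC : Helper36.HS.StRC) (hNMp : StNMap)
    (hTR : StTR) {κ : Cardinal.{0}} (hκ : ℵ₀ ≤ κ) {τ : Ordinal.{0}}
    (h7 : ∀ α : Ordinal.{0}, HODReg α → κ.ord ≤ α → α ≤ τ → α.cof ≠ ℵ₀)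
    (hτ : HODReg τ) (hκτ : κ.ord ≤ τ) (h : κ.IsRegular ∨ κ < τ.card) :
    τ.cof = τ.card := by
  by_cases hne : τ.cof = κ.ord.cof
  · by_cases hlt : κ < τ.card
    · refine nearL hPS hKEY hRC hNMp hTR (κ := succ κ) (hκ.trans (le_succ κ)) ?_ hτ ?_ ?_
      · exact fun α h0 h1 h2 => h7 α h0 ((ord_le_ord.2 (le_succ κ)).trans h1) h2
      · rw [ord_le]
        exact succ_le_of_lt hlt
      · have h1 : (succ κ).ord.cof = succ κ := (isRegular_succ hκ).cof_ord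
        rw [h1, hne]
        have h2 : κ.ord.cof ≤ κ := by
          have := cof_le_card κ.ord
          rwa [card_ord] at this
        exact (h2.trans_lt (lt_succ κ)).ne
    · have hr : κ.IsRegular := h.resolve_right hlt
      have h1 : κ ≤ τ.card := by
        rw [← card_ord κ]; exact card_le_card hκτ
      rw [hne, hr.cof_ord]
      exact le_antisymm h1 (not_lt.1 hlt)
  · exact nearL hPS hKEY hRC hNMp hTR hκ h7 hτ hκτ hne

/-- covering below `ν` and singular ordinals -/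
theorem sing_of_coverBelow {χ κ : Cardinal.{0}} {ν : Ordinal.{0}} (hκ : ℵ₀ < κ)
    (hC : CoverBelow χ κ ν) {α : Ordinal.{0}} (hα : IsSuccLimit α) (hκα : κ.ord ≤ α)
    (hαν : α ≤ ν) (hcof : α.cof ≤ χ) : HODSing α := by
  obtain ⟨ι, z, hι, hz, hz'⟩ := Helper96.HM.cv_cofinal α
  have hX : Cardinal.mk (Set.range z) ≤ Cardinal.lift.{1} χ := by
    have h1 := Cardinal.mk_range_le_lift (f := z)
    rw [Cardinal.lift_uzero, hι] at h1
    exact h1.trans (Cardinal.lift_le.2 hcof)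
  obtain ⟨y, hy, hy1, hy2⟩ := hC _ (by
    rintro a ⟨i, rfl⟩
    exact (hz i).trans_le hαν) hX
  refine hodSing_of_set (Y := {a | a.toZFSet ∈ y}) hα hκα (one_lt_of hκ hκα) (dp_of_hod hy) ?_
    fun β hβ => ?_
  · refine lt_of_le_of_lt ?_ hy2
    refine Cardinal.mk_le_of_injective (f := fun a => (⟨a.1.toZFSet, a.2⟩ :
      {z : ZFSet.{0} // z ∈ y})) fun a b hab => ?_
    exact Subtype.ext (toZFSet_injective (Subtype.mk.inj hab))
  · obtain ⟨i, hi⟩ := hz' (succ β) (hα.succ_lt hβ)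
    exact ⟨z i, hy1 _ ⟨i, rfl⟩, (lt_succ β).trans_le hi, hz i⟩

/-- covering below `ν` implies the other parts of `Close` -/
theorem close_of_cover (F : Facts) {χ κ : Cardinal.{0}} {ν : Ordinal.{0}} (hχ : ℵ₀ ≤ χ)
    (hκ : χ < κ) (hC : CoverBelow χ κ ν) (hE : ExactRefl χ κ → ∀ X : Set Ordinal.{0},
      (∀ a ∈ X, a < ν) → Cardinal.mk X ≤ Cardinal.lift.{1} χ → InHOD X) : Close χ κ ν := by
  have hκ0 : ℵ₀ < κ := hχ.trans_lt hκ
  have key : ∀ τ, HODReg τ → κ.ord ≤ τ → τ ≤ ν →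
      χ < τ.cof ∧ (κ.IsRegular ∨ κ < τ.card → τ.cof = τ.card) := by
    intro τ hτ hκτ hτν
    constructor
    · by_contra hcon
      exact hτ.2 (sing_of_coverBelow hκ0 hC hτ.1 hκτ hτν (not_lt.1 hcon))
    · intro h
      refine near3L F.ps F.key F.rc F.nmp F.tr hκ0.le (fun α h1 h2 h3 h4 => ?_) hτ hκτ h
      exact h1.2 (sing_of_coverBelow hκ0 hC h1.1 h2 (h3.trans hτν) (by rw [h4]; exact hχ))
  refine ⟨fun c hc hκc hcν => ?_, hC, hE, key, fun σ hσ hs hσν => ?_⟩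
  · rintro ⟨κ₁, h1, h2, -, h3⟩
    have hcof : ℵ₀ < c.ord.cof := by rw [hc.cof_ord]; exact hκ0.trans hκc
    refine h3 (hodSplits hc (hκ0.trans hκc) ?_ κ₁.ord ?_ h2.le)
    · refine (Stat.inter_club hcof (stat_cof_omega hcof)
        (club_Ioi (isSuccLimit_of_cof hcof) (ord_lt_ord.2 hκc))).mono ?_
      rintro a ⟨ha1, ha2⟩ hac
      have ha1' : a.cof = ℵ₀ := ha1
      have ha2' : κ.ord < a := ha2
      refine ⟨ha1', sing_of_coverBelow hκ0 hC ?_ ha2'.le (hac.le.trans hcν)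
        (by rw [ha1']; exact hχ)⟩
      rw [← one_lt_cof_iff, ha1']; exact one_lt_aleph0
    · rw [pos_iff_ne_zero]
      intro h
      exact h1 (ord_eq_zero.1 h)
  obtain ⟨τ, hτ, hle⟩ := exists_next hs.aleph0_le
  have h1 : τ = (succ σ).ord := by
    refine hle.eq_of_not_lt fun hlt => ?_
    have h2 : τ.card = σ := by
      refine le_antisymm (lt_succ_iff.1 (lt_ord.1 hlt)) ?_
      rw [← card_ord σ]; exact card_le_card hτ.1.le
    have h3 := (key τ hτ.2.1 ((ord_le_ord.2 hσ.le).trans hτ.1.le) (hle.trans hσν)).2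
      (Or.inr (by rw [h2]; exact hσ))
    rw [h2] at h3
    rw [← h3] at hs
    exact hs.not_isRegular (isRegular_cof hτ.2.1.1)
  rw [h1] at hτ
  exact hτ

/-- covering from a definable sequence -/
theorem cover_of_seq (F : Facts) {χ κ : Cardinal.{0}} (hκ : ℵ₀ < κ) (hR : SimRefl χ κ)
    {τ ν : Ordinal.{0}} (hκτ : κ ≤ τ.cof) {S : Ordinal.{0} → Set Ordinal.{0}}
    (hS : ODRel (fun ξ a => ξ < ν ∧ a < τ ∧ a ∈ S ξ)) (hstat : ∀ ξ < ν, Stat (S ξ) τ)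
    (hcof : ∀ ξ < ν, ∀ a ∈ S ξ, a.cof = ℵ₀)
    (hdisj : ∀ ξ < ν, ∀ η < ν, ∀ a, a ∈ S ξ → a ∈ S η → ξ = η) : CoverBelow χ κ ν := by
  intro X hXν hX
  obtain ⟨ι, z, hι, rfl⟩ := index hX
  have hz : ∀ i, z i < ν := fun i => hXν _ ⟨i, rfl⟩
  obtain ⟨σ, hσc, hσ1, hσ2, hσ3⟩ := simReflO F.nmp F.tr hκ hR hκτ ι hι
    (fun i => S (z i)) (fun i => hstat _ (hz i)) (fun i => hcof _ (hz i))
  have hd : DP (fun v => (v 0).rank ∈ {ξ | ξ < ν ∧ Stat (S ξ) σ}) := by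
    rw [odRel_iff_DP] at hS
    have h3 : DP (fun v => Stat {a | (v 0).rank < ν ∧ a < τ ∧ a ∈ S (v 0).rank} σ) := by
      refine DP.statC (Q := fun a v => (v 0).rank < ν ∧ a < τ ∧ a ∈ S (v 0).rank) ?_ σ
      exact hS.rename (fun n => if n = 0 then 1 else 0)
    refine ((DP.rank_lt_ord 0 ν).and h3).congr fun v => ?_
    constructor
    · rintro ⟨h4, h5⟩
      exact ⟨h4, h5.mono fun a ha haσ => ⟨h4, haσ.trans hσc, ha⟩⟩
    · rintro ⟨h4, h5⟩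
      exact ⟨h4, h5.mono fun a ha _ => ha.2.2⟩
  refine ⟨ordSet ν {ξ | ξ < ν ∧ Stat (S ξ) σ}, HOD_ordSet _ _ hd, ?_, ?_⟩
  · rintro a ⟨i, rfl⟩
    exact (mem_ordSet _ _ _).2 ⟨z i, hz i, ⟨hz i, hσ3 i⟩, rfl⟩
  · exact (mk_ordSet _ _).trans_lt (lt_of_le_of_lt (Helper66.HM.dj σ {ξ | ξ < ν ∧ Stat (S ξ) σ} S
      hσ1 (fun ξ hξ => hξ.2) (fun ξ hξ η hη a => hdisj ξ hξ.1 η hη.1 a))
      (Cardinal.lift_lt.2 hσ2))

/-- the local dichotomy -/
theorem local_dich (F : Facts) {χ κ : Cardinal.{0}} (hχ : ℵ₀ ≤ χ) (hκ : χ < κ)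
    (hR : SimRefl χ κ) {ν : Ordinal.{0}} {θ : Cardinal.{0}} (h0 : ℵ₀ < θ) (hθ : κ ≤ succ θ)
    (h1 : ν.card ≤ θ) (h2 : ∀ ζ < ν, (2 : Cardinal.{0}) ^ ζ.card ≤ θ) :
    (∀ c : Cardinal.{0}, c.IsRegular → θ < c → Large c) ∨ Close χ κ ν := by
  by_cases hL : ∀ c : Cardinal.{0}, c.IsRegular → θ < c → Large c
  · exact Or.inl hL
  right
  have hκ0 : ℵ₀ < κ := hχ.trans_lt hκ
  have hex : ∃ τ : Ordinal.{0}, θ < τ.cof ∧ ¬ NoSeqL ν τ {a | a.cof = ℵ₀} := by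
    by_contra hcon
    push Not at hcon
    exact hL fun c hc hθc => large_of_noL F h0 h1 h2 hcon hc hθc
  obtain ⟨τ, hτ, hno⟩ := hex
  have hno' := not_not.1 hno
  obtain ⟨S, hS1, hS2, hS3, hS4⟩ := hno'
  have hκτ : κ ≤ τ.cof := hθ.trans (succ_le_of_lt hτ)
  have h3 : ∀ ξ < ν, ∀ a ∈ S ξ, a.cof = ℵ₀ := fun ξ hξ a ha => hS3 ξ hξ a ha
  exact close_of_cover F hχ hκ (cover_of_seq F hκ0 hR hκτ hS1 hS2 h3 hS4)
    fun hE X hXν hX => exact_codeG F.nmp F.tr hκ0 hE hκτ hS1 hS2 h3 hS4 hX hXν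

end Pool.Agent.Helper16.HR
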