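import Pool.Agent.Helper16.HR.Real

/-! # HR: the theorems -/

set_option autoImplicit false

namespace Pool.Agent.Helper16.HR

open Ordinal Cardinal ZFSet Order Pool.Agent.Helper73.HODC Pool.Agent.Helper73.HE
open Pool.Agent.Helper73.HM Pool.Agent.Helper73.HU Pool.Agent.Helper73.HV
open Pool.Agent.Helper36.HS Pool.Agent.Helper73.HX

/-- all regular cardinals above `κ` split -/
theorem splits_of_sing {κ : Cardinal.{0}} (hκ' : ℵ₀ < κ)
    (hsing : ∀ α : Ordinal.{0}, κ.ord ≤ α → α.cof = ℵ₀ → HODSing α) {c : Cardinal.{0}}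
    (hreg : c.IsRegular) (hκc : κ < c) {ν : Ordinal.{0}} (hν : 0 < ν) (hνc : ν < c.ord) :
    HODSplits ν c.ord := by
  have hcof : ℵ₀ < c.ord.cof := by rw [hreg.cof_ord]; exact hκ'.trans hκc
  refine hodSplits hreg (hκ'.trans hκc) ?_ ν hν hνc.le
  refine (Stat.inter_club hcof (stat_cof_omega hcof)
    (club_Ioi (isSuccLimit_of_cof hcof) (ord_lt_ord.2 hκc))).mono ?_
  rintro a ⟨ha1, ha2⟩ -
  have ha1' : a.cof = ℵ₀ := ha1
  have ha2' : κ.ord < a := ha2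
  exact ⟨ha1', hsing a ha2'.le ha1'⟩

/-- the HOD dichotomy from simultaneous reflection -/
theorem main (χ κ : Cardinal.{0}) (hχ : ℵ₀ ≤ χ) (hκ : χ < κ) (hR : SimRefl χ κ) : List.TFAE [
    HODHypothesis,
    HODCovers χ κ,
    ∀ τ, HODReg τ → κ.ord ≤ τ → χ < τ.cof ∧ (κ.IsRegular ∨ κ < τ.card → τ.cof = τ.card),
    ∀ σ : Cardinal.{0}, κ < σ → σ.IsSingular → HODSing σ.ord ∧ SuccCorrect σ,
    ∀ θ : Cardinal.{0}, ∃ σ : Cardinal.{0}, θ < σ ∧ SuccCorrect σ,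
    ∀ α : Ordinal.{0}, IsSuccLimit α → κ.ord ≤ α → α.cof ≤ χ → HODSing α,
    ∀ c : Cardinal.{0}, c.IsRegular → κ < c → ∀ ν : Ordinal.{0}, 0 < ν → ν < c.ord →
      HODSplits ν c.ord,
    ∀ θ : Cardinal.{0}, ∃ c : Cardinal.{0}, θ < c ∧ c.IsRegular ∧ ∀ U, ¬ HODNormal c.ord U,
    ∀ θ : Cardinal.{0}, ∃ c : Cardinal.{0}, θ < c ∧ c.IsRegular ∧ ¬ Large c] := by
  have F := facts
  have hκ0 : ℵ₀ < κ := hχ.trans_lt hκ
  tfae_have 1 → 2 := fun h => covers_of_hyp F.pw hR h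
  tfae_have 2 → 6 := fun h α h1 h2 h3 => sing_of_covers hκ0 h h1 h2 h3
  tfae_have 6 → 3 := by
    intro h τ hτ hκτ
    have h7 : ∀ α : Ordinal.{0}, κ.ord ≤ α → α.cof = ℵ₀ → HODSing α := fun α h1 h2 => by
      refine h α ?_ h1 (by rw [h2]; exact hχ)
      rw [← one_lt_cof_iff, h2]; exact one_lt_aleph0
    refine ⟨?_, fun h1 => near3 F.ps F.key F.rc F.nmp F.tr hκ0.le h7 hτ hκτ h1⟩
    by_contra hcon
    exact hτ.2 (h τ hτ.1 hκτ (not_lt.1 hcon))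
  tfae_have 3 → 4 := fun h σ h1 h2 =>
    four_of_three hκ0.le (fun τ h3 h4 h5 => (h τ h3 h4).2 h5) h1 h2
  tfae_have 4 → 5 := by
    intro h θ
    obtain ⟨σ, h1, -, h2⟩ := five_of_four (fun σ h1 h2 => (h σ h1 h2).2) θ
    exact ⟨σ, h1, h2⟩
  tfae_have 5 → 8 := by
    intro h θ
    obtain ⟨σ, h1, h2⟩ := h (max θ ℵ₀)
    have h3 : ℵ₀ ≤ σ := (le_max_right _ _).trans h1.le
    exact ⟨succ σ, ((le_max_left _ _).trans_lt h1).trans (lt_succ σ), isRegular_succ h3,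
      fun U hU => not_normal F.rc h3 h2 hU⟩
  tfae_have 8 → 9 := by
    intro h θ
    obtain ⟨c, h1, h2, h3⟩ := h θ
    refine ⟨c, h1, h2, fun hL => ?_⟩
    obtain ⟨-, ⟨U, hU⟩, -⟩ := hL
    exact h3 U hU
  tfae_have 9 → 1 := by
    intro h
    refine hyp_of_sing hκ0 fun α h1 h2 => ?_
    by_contra hcon
    obtain ⟨c, h3, h4, h5⟩ := h ((2 : Cardinal.{0}) ^ (succ α.card))
    exact h5 (large_of_refl F hR hκ0 (by rw [← one_lt_cof_iff, h2]; exact one_lt_aleph0) h1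
      (by rw [h2]; exact hχ) hcon h4 h3)
  tfae_have 6 → 7 := by
    intro h c h1 h2 ν h3 h4
    refine splits_of_sing hκ0 (fun α h5 h6 => ?_) h1 h2 h3 h4
    refine h α ?_ h5 (by rw [h6]; exact hχ)
    rw [← one_lt_cof_iff, h6]; exact one_lt_aleph0
  tfae_have 7 → 1 := by
    intro h θ
    have h0 : ℵ₀ ≤ max κ θ.card := hκ0.le.trans (le_max_left _ _)
    refine ⟨succ (max κ θ.card), isRegular_succ h0,
      lt_ord.2 (lt_of_le_of_lt (le_max_right _ _) (lt_succ _)), ?_⟩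
    rintro ⟨κ₁, h1, h2, -, h3⟩
    refine h3 (h _ (isRegular_succ h0) (lt_of_le_of_lt (le_max_left _ _) (lt_succ _)) _ ?_ h2)
    rw [pos_iff_ne_zero]
    intro h4
    exact h1 (ord_eq_zero.1 h4)
  tfae_finish

/-- the local form for `SimRefl` -/
theorem refl_local (χ κ : Cardinal.{0}) (hχ : ℵ₀ ≤ χ) (hκ : χ < κ) (hR : SimRefl χ κ)
    (α : Ordinal.{0}) (hlim : IsSuccLimit α) (hκα : κ.ord ≤ α) (hα : α.cof ≤ χ) :
    HODSing α ∨ ∀ c : Cardinal.{0}, c.IsRegular → (2 : Cardinal.{0}) ^ (succ α.card) < c →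
      Large c := by
  by_cases hs : HODSing α
  · exact Or.inl hs
  · exact Or.inr fun c hc h => large_of_refl facts hR (hχ.trans_lt hκ) hlim hκα hα hs hc h

/-- the local form for `MMRefl` -/
theorem mm_local (hR : MMRefl) (κ₁ : Cardinal.{0}) (h0 : ℵ₀ ≤ κ₁) :
    (∀ X : Set Ordinal.{0}, Cardinal.mk X ≤ Cardinal.lift.{1} (ℵ_ 1 : Cardinal.{0}) →
      (∀ a ∈ X, a < κ₁.ord) → InHOD X) ∨
    ∀ c : Cardinal.{0}, c.IsRegular → (2 : Cardinal.{0}) ^ κ₁ < c → Large c := by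
  by_cases h : ∀ X : Set Ordinal.{0}, Cardinal.mk X ≤ Cardinal.lift.{1} (ℵ_ 1 : Cardinal.{0}) →
      (∀ a ∈ X, a < κ₁.ord) → InHOD X
  · exact Or.inl h
  · push Not at h
    obtain ⟨X, h1, h2, h3⟩ := h
    exact Or.inr fun c hc h4 => large_of_mm facts hR h0 h1 h2 h3 hc h4

/-- the HOD Hypothesis and closure under `ℵ₁`-sequences -/
theorem hyp_iff_closed (hR : MMRefl) : HODHypothesis ↔
    ∀ X : Set Ordinal.{0}, Cardinal.mk X ≤ Cardinal.lift.{1} (ℵ_ 1 : Cardinal.{0}) →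
      InHOD X := by
  have hmain := main (ℵ_ 1) (ℵ_ 2) aleph0_lt_aleph_one.le aleph_one_lt_two (simRefl_of_MM hR)
  constructor
  · intro hH X hX
    by_contra hcon
    have hs : _root_.Small.{0} X := by
      obtain ⟨ι, z, -, rfl⟩ := index hX
      infer_instance
    obtain ⟨ν, hν⟩ : BddAbove X := Ordinal.bddAbove_of_small
    have hν' : ν < (succ (max ℵ₀ ν.card)).ord :=
      lt_ord.2 (lt_of_le_of_lt (le_max_right _ _) (lt_succ _))
    have h8 : ∀ θ : Cardinal.{0}, ∃ c : Cardinal.{0}, θ < c ∧ c.IsRegular ∧ ¬ Large c :=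
      (hmain.out 0 8).1 hH
    obtain ⟨c, h1, h2, h3⟩ := h8 ((2 : Cardinal.{0}) ^ (succ (max ℵ₀ ν.card)))
    refine h3 (large_of_mm facts hR ((le_max_left _ _).trans (le_succ _)) hX
      (fun a ha => (hν ha).trans_lt hν') hcon h2 h1)
  · intro h
    refine (hmain.out 0 1).2 fun X hX => ?_
    obtain ⟨x, hx, h1⟩ := h X hX
    refine ⟨x, hx, fun a ha => (h1 _).2 ⟨a, ha, rfl⟩, ?_⟩
    have h2 : ∀ z : {z : ZFSet.{0} // z ∈ x}, ∃ a, a ∈ X ∧ z.1 = a.toZFSet := fun z =>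
      (h1 z.1).1 z.2
    choose f hf hf' using h2
    have h3 : Cardinal.mk {z : ZFSet.{0} // z ∈ x} ≤ Cardinal.mk X := by
      refine Cardinal.mk_le_of_injective (f := fun z => (⟨f z, hf z⟩ : X)) fun z w hzw => ?_
      apply Subtype.ext
      rw [hf' z, hf' w, (Subtype.mk.inj hzw : f z = f w)]
    exact (h3.trans hX).trans_lt (Cardinal.lift_lt.2 aleph_one_lt_two)

/-- the case of the subsets of `ω₁` -/
theorem mm_three (hR : MMRefl) :
    (∀ X : Set Ordinal.{0}, (∀ a ∈ X, a < (ℵ_ 1 : Cardinal.{0}).ord) → InHOD X) ∨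
    ∀ c : Cardinal.{0}, c.IsRegular → ℵ_ 3 ≤ c → Large c := by
  rcases mm_local hR (ℵ_ 1) aleph0_lt_aleph_one.le with h | h
  · refine Or.inl fun X hX => h X ?_ hX
    have h1 : Cardinal.mk X ≤ Cardinal.mk (Set.Iio (ℵ_ 1 : Cardinal.{0}).ord) :=
      Cardinal.mk_le_mk_of_subset (fun a ha => hX a ha)
    rwa [Cardinal.mk_Iio_ordinal, card_ord] at h1
  · refine Or.inr fun c hc h3 => h c hc ?_
    refine ((pow_le hR).trans_lt ?_).trans_le h3
    rw [aleph_lt_aleph]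
    exact_mod_cast (by norm_num : (2 : ℕ) < 3)

/-- the case of the subsets of `ω` -/
theorem mm_two (hR : MMRefl) : (∀ X : Set Ordinal.{0}, (∀ a ∈ X, a < ω) → InHOD X) ∨
    ∀ c : Cardinal.{0}, c.IsRegular → ℵ_ 2 ≤ c → Large c := by
  by_cases h : ∀ X : Set Ordinal.{0}, (∀ a ∈ X, a < ω) → InHOD X
  · exact Or.inl h
  · push Not at h
    obtain ⟨X, h1, h2⟩ := h
    exact Or.inr fun c hc h3 => large_of_real facts hR h1 h2 hc h3

/-- `ω₂` is measurable in HOD if and only if some real does not belong to HOD -/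
theorem mm_iff (hR : MMRefl) (h2 : ℵ_ 2 ≤ (2 : Cardinal.{0}) ^ ℵ₀) :
    (∃ U, HODNormal (ℵ_ 2 : Cardinal.{0}).ord U) ↔
      ∃ X : Set Ordinal.{0}, (∀ a ∈ X, a < ω) ∧ ¬ InHOD X := by
  have F := facts
  have h12 : succ (ℵ_ 1 : Cardinal.{0}) = ℵ_ 2 := by
    rw [succ_aleph, one_add_one_eq_two]
  have hc : (ℵ_ 2 : Cardinal.{0}).IsRegular := by
    rw [← h12]
    exact isRegular_succ aleph0_lt_aleph_one.le
  have h02 : ℵ₀ < (ℵ_ 2 : Cardinal.{0}) := aleph0_lt_aleph_one.trans aleph_one_lt_two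
  constructor
  · rintro ⟨U, hU⟩
    by_contra hcon
    push Not at hcon
    have hω : (ω : Ordinal.{0}) < (ℵ_ 2 : Cardinal.{0}).ord := by
      rw [← ord_aleph0]; exact ord_lt_ord.2 h02
    obtain ⟨β, hβ, e, he1, he2, -⟩ :=
      powLt_of_normal F.le F.ld F.re (isSuccLimit_ord h02.le) hω hU
    have hx : ∀ X : Set ℕ, ∃ x, x ∈ hodPow ω ∧ ∀ n : ℕ, (n : Ordinal.{0}) ∈ st x ↔ n ∈ X := by
      intro X
      obtain ⟨x, hx, h3⟩ := hcon {a | ∃ n ∈ X, a = (n : Ordinal.{0})} (by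
        rintro a ⟨n, -, rfl⟩
        exact natCast_lt_omega0 n)
      have hsub : x ⊆ (ω : Ordinal.{0}).toZFSet := by
        intro z hz
        obtain ⟨a, ⟨n, -, rfl⟩, rfl⟩ := (h3 z).1 hz
        exact mem_toZFSet_iff.2 ⟨_, natCast_lt_omega0 n, rfl⟩
      refine ⟨x, mem_hodPow.2 ⟨hsub, Pool.Agent.Helper73.HM.HOD.od hx⟩, fun n => ?_⟩
      rw [mem_st_iff hsub, h3]
      constructor
      · rintro ⟨a, ⟨m, hm, rfl⟩, h4⟩
        have h5 : (n : Ordinal.{0}) = m := toZFSet_injective h4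
        rw [Nat.cast_inj.1 h5]
        exact hm
      · intro hn
        exact ⟨_, ⟨n, hn, rfl⟩, rfl⟩
    choose x hx1 hx2 using hx
    have hinj : Function.Injective (fun X : Set ℕ =>
        (ToType.mk ⟨e (x X), he1 _ (hx1 X)⟩ : β.ToType)) := by
      intro X Y hXY
      have h4 := Subtype.ext_iff.1 (ToType.mk.injective hXY)
      have h5 := he2 _ (hx1 X) _ (hx1 Y) h4
      ext n
      rw [← hx2 X n, ← hx2 Y n, h5]
    have h6 := Cardinal.mk_le_of_injective hinj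
    rw [Cardinal.mk_set, Cardinal.mk_nat, Cardinal.mk_toType] at h6
    exact absurd (h2.trans h6) (not_le.2 (Cardinal.lt_ord.1 hβ))
  · rintro ⟨X, h1, h3⟩
    obtain ⟨-, h4, -⟩ := large_of_real F hR h1 h3 hc le_rfl
    exact h4

end Pool.Agent.Helper16.HR
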