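import Pool.Agent.Helper16.HR.CV
import Pool.Agent.Helper73.HV.MM
import Pool.Agent.Helper36.HS.St

/-! # HR: regular cardinals of HOD and their cofinality -/

set_option autoImplicit false

namespace Pool.Agent.Helper16.HR

open Ordinal Cardinal ZFSet Order Pool.Agent.Helper73.HODC Pool.Agent.Helper73.HE
open Pool.Agent.Helper73.HM Pool.Agent.Helper73.HU Pool.Agent.Helper73.HV
open Pool.Agent.Helper36.HS

theorem pos_of {τ : Ordinal.{0}} {κ : Cardinal.{0}} {ρ : Ordinal.{0} → Ordinal.{0}}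
    {cf : Ordinal.{0} → Ordinal.{0} → Ordinal.{0}} (H : CofFn τ ρ cf)
    (hρ : ∀ a < τ, a.cof = ℵ₀ → ρ a < κ.ord) :
    Pos κ.ord {a | a.cof = ℵ₀ ∧ a < τ} (fun a γ b => ∃ x, x ≤ γ ∧ x < ρ a ∧ cf a x = b) where
  dp := by
    refine DP.exO (Q := fun x v => x ≤ (v 1).rank ∧ x < ρ (v 0).rank ∧
      cf (v 0).rank x = (v 2).rank) ?_
    refine (DP.rank_le 0 2).and (DP.and ?_ ?_)
    · refine (DP.exO (Q := fun r v => ρ (v 1).rank = r ∧ (v 0).rank < r) ?_).congr fun v => ?_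
      · exact (H.dpr.rename (fun n => if n = 0 then 2 else 0)).and (DP.rank_lt 1 0)
      · constructor
        · intro h
          exact ⟨_, rfl, h⟩
        · rintro ⟨r, h1, h2⟩
          rw [← h1] at h2
          exact h2
    · exact H.dpc.rename (fun n => if n = 0 then 1 else if n = 1 then 0 else 3)
  mono := by
    rintro a γ γ' b h ⟨x, h1, h2⟩
    exact ⟨x, h1.trans h, h2⟩
  otp := by
    rintro a ⟨ha, haτ⟩ γ hγ
    have hl : IsSuccLimit a := by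
      rw [← one_lt_cof_iff, ha]; exact one_lt_aleph0
    have hg : ∀ b, ∃ x, (∃ y, y ≤ γ ∧ y < ρ a ∧ cf a y = b) → x ≤ γ ∧ x < ρ a ∧ cf a x = b := by
      intro b
      by_cases h : ∃ y, y ≤ γ ∧ y < ρ a ∧ cf a y = b
      · obtain ⟨y, hy⟩ := h
        exact ⟨y, fun _ => hy⟩
      · exact ⟨0, fun h' => absurd h' h⟩
    choose g hg using hg
    refine ⟨γ + 1, ?_, g, ?_, ?_⟩
    · rw [← one_add_one_eq_two, ← add_assoc]
      exact lt_add_one _
    · intro b hb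
      exact (hg b hb).1.trans_lt (lt_add_one γ)
    · intro b hb b' hb' hlt
      obtain ⟨-, h1, h2⟩ := hg b hb
      obtain ⟨-, h3, h4⟩ := hg b' hb'
      by_contra hcon
      rw [not_lt] at hcon
      rcases hcon.eq_or_lt with h5 | h5
      · rw [← h2, ← h4, h5] at hlt
        exact absurd hlt (lt_irrefl _)
      · have h6 := H.mono a haτ hl _ _ h5 h1
        rw [h2, h4] at h6
        exact absurd hlt (not_lt.2 h6.le)
  unb := by
    rintro a ⟨ha, haτ⟩ β hβ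
    have hl : IsSuccLimit a := by
      rw [← one_lt_cof_iff, ha]; exact one_lt_aleph0
    obtain ⟨x, hx, h1⟩ := H.unb a haτ hl β hβ
    exact ⟨x, hx.trans (hρ a haτ ha), cf a x, ⟨x, le_rfl, hx, rfl⟩, h1.le, H.lt a haτ hl x hx⟩

theorem near (hPS : StPS) (hKEY : StKEY) (hRC : Helper36.HS.StRC) (hNMp : StNMap)
    (hTR : StTR) {κ : Cardinal.{0}}
    (hκ : ℵ₀ ≤ κ) (h7 : ∀ α : Ordinal.{0}, κ.ord ≤ α → α.cof = ℵ₀ → HODSing α)
    {τ : Ordinal.{0}} (hτ : HODReg τ) (hκτ : κ.ord ≤ τ) (hne : τ.cof ≠ κ.ord.cof) :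
    τ.cof = τ.card := by
  classical
  have hlt : κ.ord < τ := lt_of_le_of_ne hκτ fun h => hne (by rw [← h])
  have hunc : ℵ₀ < τ.cof := by
    refine lt_of_le_of_ne (aleph0_le_cof_iff.2 (one_lt_cof_iff.2 hτ.1)) fun h => ?_
    exact hτ.2 (h7 τ hκτ h.symm)
  obtain ⟨ρ, cf, H⟩ := hRC τ
  have hρ : ∀ a < τ, a.cof = ℵ₀ → ρ a < κ.ord := by
    intro a ha hac
    have hl : IsSuccLimit a := by
      rw [← one_lt_cof_iff, hac]; exact one_lt_aleph0
    by_contra hcon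
    rw [not_lt] at hcon
    exact (H.reg a ha hl).2 (h7 _ hcon (by rw [H.cof a ha hl, hac]))
  have hpos := pos_of H hρ
  set X : Set Ordinal.{0} := {a | a.cof = ℵ₀ ∧ a < τ} with hX
  set C : Ordinal.{0} → Ordinal.{0} → Ordinal.{0} → Prop :=
    fun a γ b => ∃ x, x ≤ γ ∧ x < ρ a ∧ cf a x = b with hC
  have hXd : DPs X := DP.and (DP.of (dfn_cof_omega 0)) (DP.rank_lt_ord 0 τ)
  have hXs : Stat X τ := (stat_cof_omega hunc).mono fun a ha hat => ⟨ha, hat⟩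
  let P : Ordinal.{0} → Ordinal.{0} → Ordinal.{0} → Prop := fun ξ η γ =>
    Stat {a | a ∈ X ∧ ∃ b, C a γ b ∧ ξ ≤ b ∧ b ≤ η} τ
  obtain ⟨γ, hγ, e, hed, he⟩ := hKEY τ κ.ord P hτ hunc hlt (dp_P hXd hpos.dp τ)
    (fun ξ ξ' η η' γ γ' h6 h7 h8 h9 => h9.mono fun a ha _ => ⟨ha.1, by
      obtain ⟨b, hb1, hb2, hb3⟩ := ha.2
      exact ⟨b, hpos.mono a _ _ b h8 hb1, h6.trans hb2, hb3.trans h7⟩⟩)
    (fun ξ hξ => hPS τ κ.ord X C hunc (Cardinal.isSuccLimit_ord hκ) (Ne.symm hne) hXs hpos ξ hξ)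
  -- a club of order type the cofinality
  obtain ⟨h, hh, hhτ⟩ := hNMp τ hτ.1
  have hμ : ℵ₀ < (τ.cof.ord).cof := by
    rw [Ordinal.cof_ord_cof]; exact hunc
  have hpt : ∀ i : Set.Iio τ, ∃ k : Set.Iio τ.cof.ord, ∃ x : Set.Iio (γ + 1), x.1 < ρ (h k.1) ∧
      e i.1 ≤ cf (h k.1) x.1 ∧ ∀ j : Set.Iio τ, i < j → cf (h k.1) x.1 < e j.1 := by
    rintro ⟨i, hi⟩
    obtain ⟨-, η, -, h1, h2⟩ := he i hi
    have h3 := h1
    simp only [P] at h3
    rw [← hhτ, hTR h hh _ hμ] at h3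
    obtain ⟨k, ⟨-, b, ⟨x, hx1, hx2, rfl⟩, h4, h5⟩, -, hk⟩ :=
      h3 _ (club_univ (isSuccLimit_of_cof hμ))
    exact ⟨⟨k, hk⟩, ⟨x, hx1.trans_lt (lt_add_one γ)⟩, hx2, h4, fun j hij =>
      h5.trans_lt (h2 j.1 hij j.2)⟩
  choose k x hx hk1 hk2 using hpt
  have hinj : Function.Injective (fun i : Set.Iio τ => (k i, x i)) := by
    intro i j hij
    simp only [Prod.mk.injEq] at hij
    rcases lt_trichotomy i j with h1 | h1 | h1
    · have h2 := hk2 i j h1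
      rw [hij.1, hij.2] at h2
      exact absurd (hk1 j) (not_le.2 h2)
    · exact h1
    · have h2 := hk2 j i h1
      rw [← hij.1, ← hij.2] at h2
      exact absurd (hk1 i) (not_le.2 h2)
  have hcard := Cardinal.mk_le_of_injective hinj
  rw [Cardinal.mk_prod, Cardinal.lift_id, Cardinal.lift_id, Cardinal.mk_Iio_ordinal,
    Cardinal.mk_Iio_ordinal, Cardinal.mk_Iio_ordinal, card_ord, ← Cardinal.lift_mul,
    Cardinal.lift_le] at hcard
  refine le_antisymm (cof_le_card τ) ?_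
  by_contra hcon
  rw [not_le] at hcon
  have hκc : κ ≤ τ.card := by
    rw [← Cardinal.card_ord κ]; exact card_le_card hκτ
  have h0 : ℵ₀ ≤ τ.card := hκ.trans hκc
  have h1 : (γ + 1).card < τ.card := by
    have h2 : γ + 1 < κ.ord := by
      rw [← Order.succ_eq_add_one]
      exact (Cardinal.isSuccLimit_ord hκ).succ_lt hγ
    exact (Cardinal.lt_ord.1 h2).trans_le hκc
  exact absurd hcard (not_le.2 (Cardinal.mul_lt_of_lt h0 hcon h1))

end Pool.Agent.Helper16.HR
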