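import Pool.Agent.Helper16.HR.CV
import Pool.Agent.Helper73.HX.Top

/-! # HR: reflection and atoms below ordinals of large cofinality -/

set_option autoImplicit false

namespace Pool.Agent.Helper16.HR

open Ordinal Cardinal ZFSet Order Pool.Agent.Helper73.HODC Pool.Agent.Helper73.HE
open Pool.Agent.Helper73.HM Pool.Agent.Helper73.HU Pool.Agent.Helper73.HX

theorem simReflO (h2 : StNMap) (h3 : StTR) {χ κ : Cardinal.{0}} (hκ : ℵ₀ < κ)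
    (hR : SimRefl χ κ) {τ : Ordinal.{0}} (hκτ : κ ≤ τ.cof) (ι : Type)
    (hι : Cardinal.mk ι ≤ χ) (A : ι → Set Ordinal.{0}) (hA : ∀ i, Stat (A i) τ)
    (hAc : ∀ i, ∀ a ∈ A i, a.cof = ℵ₀) :
    ∃ σ < τ, ℵ₀ < σ.cof ∧ σ.cof < κ ∧ ∀ i, Stat (A i) σ := by
  have hun : ℵ₀ < τ.cof := hκ.trans_le hκτ
  have hτ : IsSuccLimit τ := isSuccLimit_of_cof hun
  obtain ⟨h, hN, hh⟩ := h2 τ hτ
  have hreg : τ.cof.IsRegular := Helper68.HU.isRegular_cof' hτ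
  have hcc : τ.cof.ord.cof = τ.cof := hreg.cof_ord
  have hμ : ℵ₀ < τ.cof.ord.cof := by rw [hcc]; exact hun
  obtain ⟨σ, hσc, hσ1, hσ2, hσ3⟩ := hR τ.cof hreg hκτ ι hι
    (fun i => {j | h j ∈ A i ∧ IsSuccLimit j}) (by
      intro i
      have h4 : Stat {j | h j ∈ A i} τ.cof.ord := by
        rw [← h3 h hN τ.cof.ord hμ, hh]
        exact hA i
      exact (Stat.inter_club hμ h4 (club_limit hμ)).mono fun a ha _ => ⟨ha.1, ha.2⟩) (by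
      rintro i j ⟨hj, hl⟩
      rw [← cof_map_of_isNormal hN hl]
      exact hAc i _ hj)
  have hσlim := isSuccLimit_of_cof hσ1
  have hcof := cof_map_of_isNormal hN hσlim
  refine ⟨h σ, ?_, by rw [hcof]; exact hσ1, by rw [hcof]; exact hσ2, fun i => ?_⟩
  · rw [← hh]
    exact hN.strictMono hσc
  · rw [h3 h hN σ hσ1]
    exact (hσ3 i).mono fun a ha _ => ha.1

theorem cvrO (h2 : StNMap) (h3 : StTR) {χ κ : Cardinal.{0}} (hR : SimRefl χ κ) (hκ : ℵ₀ < κ)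
    {τ : Ordinal.{0}} (hκτ : κ ≤ τ.cof) {α ν : Ordinal.{0}} (hα : IsSuccLimit α)
    (hκα : κ.ord ≤ α) (hαcof : α.cof ≤ χ) (hαν : α ≤ ν) {S : Ordinal.{0} → Set Ordinal.{0}}
    (hS : ODRel (fun ξ a => ξ < ν ∧ a < τ ∧ a ∈ S ξ))
    (hstat : ∀ ξ < ν, Stat (S ξ) τ) (hcof : ∀ ξ < ν, ∀ a ∈ S ξ, a.cof = ℵ₀)
    (hdisj : ∀ ξ < ν, ∀ η < ν, ∀ a, a ∈ S ξ → a ∈ S η → ξ = η) : HODSing α := by
  obtain ⟨ι, z, hι, hz, hz'⟩ := Helper96.HM.cv_cofinal α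
  obtain ⟨σ, hσc, hσ1, hσ2, hσ3⟩ := simReflO h2 h3 hκ hR hκτ ι (by rw [hι]; exact hαcof)
    (fun i => S (z i)) (fun i => hstat _ ((hz i).trans_le hαν))
    (fun i => hcof _ ((hz i).trans_le hαν))
  have hd : DP (fun v => (v 0).rank ∈ {ξ | ξ < ν ∧ Stat (S ξ) σ}) := by
    rw [odRel_iff_DP] at hS
    have h3 : DP (fun v => Stat {a | (v 0).rank < ν ∧ a < τ ∧ a ∈ S (v 0).rank} σ) := by
      refine DP.statC (Q := fun a v => (v 0).rank < ν ∧ a < τ ∧ a ∈ S (v 0).rank) ?_ σ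
      exact hS.rename (fun n => if n = 0 then 1 else 0)
    refine ((DP.rank_lt_ord 0 ν).and h3).congr fun v => ?_
    constructor
    · rintro ⟨h4, h5⟩
      exact ⟨h4, h5.mono fun a ha haσ => ⟨h4, haσ.trans hσc, ha⟩⟩
    · rintro ⟨h4, h5⟩
      exact ⟨h4, h5.mono fun a ha _ => ha.2.2⟩
  refine hodSing_of_set hα hκα (one_lt_of hκ hκα) hd
    (lt_of_le_of_lt (Helper66.HM.dj σ {ξ | ξ < ν ∧ Stat (S ξ) σ} S hσ1 (fun ξ hξ => hξ.2)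
      (fun ξ hξ η hη a => hdisj ξ hξ.1 η hη.1 a)) (Cardinal.lift_lt.2 hσ2)) fun β hβ => ?_
  obtain ⟨i, hi⟩ := hz' (succ β) (hα.succ_lt hβ)
  exact ⟨z i, ⟨(hz i).trans_le hαν, hσ3 i⟩, (lt_succ β).trans_le hi, hz i⟩

/-- atoms consisting of ordinals of cofinality `ω`, if there are no long definable sequences of
disjoint stationary sets of such ordinals -/
theorem atoms_of (hNA : StNAO) {κ₁ : Cardinal.{0}} (h0 : ℵ₀ ≤ κ₁)
    (hno : ∀ τ : Ordinal.{0}, (2 : Cardinal.{0}) ^ κ₁ < τ.cof → NoSeqO κ₁ τ {a | a.cof = ℵ₀}) :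
    AtomsH (succ ℵ₀) ((2 : Cardinal.{0}) ^ κ₁) := by
  intro τ X hτ hX hX' hXc
  have hunc : ℵ₀ < τ.cof := h0.trans_lt ((Cardinal.cantor κ₁).trans hτ)
  have hX1 : DPs {a | a ∈ X ∧ a.cof = ℵ₀} := hX.and dps_cof_omega
  have hX2 : Stat {a | a ∈ X ∧ a.cof = ℵ₀} τ := by
    refine (Stat.inter_club hunc hX' (club_limit hunc)).mono fun a ha _ => ⟨ha.1, ?_⟩
    have h4 : a.cof < succ ℵ₀ := hXc a ha.1
    have h5 : IsSuccLimit a := ha.2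
    exact le_antisymm (lt_succ_iff.1 h4) (aleph0_le_cof_iff.2 (one_lt_cof_iff.2 h5))
  obtain ⟨A, hA, hA1, hA2⟩ := hNA κ₁ τ _ hunc hτ hX1 hX2 (by
    rintro ⟨S, hS1, hS2, hS3, hS4⟩
    exact hno τ hτ ⟨S, hS1, hS2, fun ξ hξ a ha => (hS3 ξ hξ a ha).2, hS4⟩)
  exact ⟨A, hA, fun a ha => ⟨(hA1 a ha).1.1, (hA1 a ha).2⟩, hA2⟩

/-- no long sequences, from reflection -/
theorem noSeq_refl (h2 : StNMap) (h3 : StTR) {χ κ : Cardinal.{0}}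
    (hR : SimRefl χ κ) (hκ : ℵ₀ < κ) {α : Ordinal.{0}} (hlim : IsSuccLimit α)
    (hκα : κ.ord ≤ α) (hα : α.cof ≤ χ) (hs : ¬ HODSing α) {τ : Ordinal.{0}}
    (hτ : (2 : Cardinal.{0}) ^ (succ α.card) < τ.cof) :
    NoSeqO (succ α.card) τ {a | a.cof = ℵ₀} := by
  set κ₁ : Cardinal.{0} := succ α.card with hκ₁
  have hα1 : α ≤ κ₁.ord := (lt_ord.2 (lt_succ α.card)).le
  have hlt : κ₁ < τ.cof := (Cardinal.cantor κ₁).trans hτ
  have hκ1 : κ ≤ κ₁ := by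
    rw [← ord_le_ord]
    exact hκα.trans hα1
  rintro ⟨S, hS1, hS2, hS3, hS4⟩
  exact hs (cvrO h2 h3 hR hκ (hκ1.trans hlt.le) hlim hκα hα hα1 hS1 hS2
    (fun ξ hξ a ha => hS3 ξ hξ a ha) hS4)

end Pool.Agent.Helper16.HR
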