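import Pool.Agent.Helper16.HR.Exact

/-! # HR: cardinal arithmetic from exact reflection (Foreman, Magidor and Shelah) -/

set_option autoImplicit false

namespace Pool.Agent.Helper16.HR

open Ordinal Cardinal ZFSet Order Pool.Agent.Helper73.HODC Pool.Agent.Helper73.HE
open Pool.Agent.Helper73.HM Pool.Agent.Helper73.HU

/-- a regressive function which is unbounded on stationary sets -/
theorem exists_regr {c : Cardinal.{0}} (hc : c.IsRegular) (hc' : ℵ₀ < c) :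
    ∃ g : Ordinal.{0} → Ordinal.{0}, (∀ a, a.cof = ℵ₀ → g a < a) ∧
      ∀ β < c.ord, Stat {a | a.cof = ℵ₀ ∧ β ≤ g a} c.ord := by
  have hcof : ℵ₀ < c.ord.cof := by rw [hc.cof_ord]; exact hc'
  have hlim := isSuccLimit_of_cof hcof
  have hex : ∀ x : Ordinal.{0}, ∃ F : ℕ → Ordinal.{0}, x.cof = ℵ₀ →
      (∀ n, F n < x) ∧ ∀ b < x, ∃ n, b ≤ F n := by
    intro x
    by_cases hx : x.cof = ℵ₀
    · obtain ⟨_, f, hf⟩ := dn_cof_omega_iff_seq.1 hx
      exact ⟨f, fun _ => hf⟩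
    · exact ⟨fun _ => 0, fun h => absurd h hx⟩
  choose F hF using hex
  have h1 : ∃ n : ℕ, ∀ β < c.ord, Stat {a | a.cof = ℵ₀ ∧ β ≤ F a n} c.ord := by
    by_contra hcon
    push Not at hcon
    choose β hβ hβ' using hcon
    have hs : (⨆ n, β n) < c.ord := by
      refine Ordinal.iSup_lt_of_lt_cof ?_ hβ
      simpa using hcof
    have h2 := Stat.inter_club hcof (stat_cof_omega hcof) (club_Ioi hlim hs)
    obtain ⟨n, hn⟩ := stat_of_iUnion hcof h2 (A := fun n : ℕ => {a | (⨆ n, β n) ≤ F a n}) (by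
      rintro a ⟨ha1, ha2⟩ -
      have ha1' : a.cof = ℵ₀ := ha1
      have ha2' : (⨆ n, β n) < a := ha2
      obtain ⟨n, hn⟩ := (hF a ha1').2 _ ha2'
      exact ⟨n, hn⟩)
    refine hβ' n (hn.mono ?_)
    rintro a ⟨⟨ha1, -⟩, ha2⟩ -
    exact ⟨ha1, (Ordinal.le_iSup β n).trans ha2⟩
  obtain ⟨n, hn⟩ := h1
  exact ⟨fun a => F a n, fun a ha => (hF a ha).1 n, hn⟩

theorem pow_le (hR : MMRefl) : (2 : Cardinal.{0}) ^ (ℵ_ 1 : Cardinal.{0}) ≤ ℵ_ 2 := by
  classical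
  set c : Cardinal.{0} := ℵ_ 2 with hcdef
  have hc : c.IsRegular := by
    have h2 : succ (ℵ_ 1 : Cardinal.{0}) = ℵ_ 2 := by
      rw [succ_aleph, one_add_one_eq_two]
    rw [hcdef, ← h2]
    exact isRegular_succ aleph0_lt_aleph_one.le
  have hc' : ℵ₀ < c := aleph0_lt_aleph_one.trans aleph_one_lt_two
  have hcof : ℵ₀ < c.ord.cof := by rw [hc.cof_ord]; exact hc'
  obtain ⟨g, hg1, hg2⟩ := exists_regr hc hc'
  set Γ : Set Ordinal.{0} := {γ | γ < c.ord ∧ Stat {a | a.cof = ℵ₀ ∧ g a = γ} c.ord} with hΓ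
  have hΓu : ∀ β < c.ord, ∃ γ ∈ Γ, β ≤ γ := by
    intro β hβ
    obtain ⟨γ, hγ, h⟩ := fodor hc hc' (hg2 β hβ) (r := g) (fun a ha _ _ => hg1 a ha.1)
    obtain ⟨a, ⟨⟨h1, h2⟩, h3⟩, -, -⟩ := h _ (club_univ (isSuccLimit_of_cof hcof))
    refine ⟨γ, ⟨hγ, h.mono fun a ha _ => ⟨ha.1.1, ha.2⟩⟩, ?_⟩
    rw [← h3]; exact h2
  have hΓc : Cardinal.lift.{1} (ℵ_ 1 : Cardinal.{0}) ≤ Cardinal.mk Γ := by
    by_contra hcon
    rw [not_le] at hcon
    have hsub : Γ ⊆ Set.Iio c.ord := fun x hx => hx.1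
    have : _root_.Small.{0} Γ := small_subset hsub
    have hlt : (⨆ x : Γ, x.1) < c.ord := by
      refine Ordinal.lift_iSup_lt_of_lt_cof ?_ fun x => x.2.1
      rw [← Ordinal.lift_cof, hc.cof_ord]
      rw [Cardinal.lift_id'.{0, 1}]
      exact hcon.trans (Cardinal.lift_lt.2 aleph_one_lt_two)
    obtain ⟨γ, h1, h2⟩ := hΓu _ ((isSuccLimit_of_cof hcof).succ_lt hlt)
    have h3 := Ordinal.le_iSup (fun x : Γ => x.1) ⟨γ, h1⟩
    exact absurd (h2.trans h3) (not_le.2 (lt_succ _))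
  obtain ⟨e⟩ : Nonempty ((ℵ_ 1 : Cardinal.{0}).out ↪ Γ) := by
    rw [← Cardinal.lift_mk_le', Cardinal.mk_out, Cardinal.lift_uzero]
    exact hΓc
  have hex : ∀ X : Set (ℵ_ 1 : Cardinal.{0}).out, ∃ σ : Option c.ord.ToType,
      (X.Nonempty → ∃ s : c.ord.ToType, σ = some s ∧ ∀ t, t ∈ X ↔
        Stat {a | a.cof = ℵ₀ ∧ g a = (e t).1} (ToType.mk.symm s).1) ∧
      (¬ X.Nonempty → σ = none) := by
    intro X
    by_cases hX : X.Nonempty
    · obtain ⟨t₀, ht₀⟩ := hX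
      obtain ⟨σ, hσ, hσ1, hσ2, C, hC, hC'⟩ := hR c hc le_rfl X ⟨⟨t₀, ht₀⟩⟩ (by
        have := Cardinal.mk_set_le X
        rwa [Cardinal.mk_out] at this) (fun t => {a | a.cof = ℵ₀ ∧ g a = (e t.1).1})
        (fun t => (e t.1).2.2) (fun t a ha => ha.1)
      refine ⟨some (ToType.mk ⟨σ, hσ⟩), fun _ => ⟨_, rfl, fun t => ?_⟩,
        fun h => absurd ⟨t₀, ht₀⟩ h⟩
      rw [OrderIso.symm_apply_apply]
      constructor
      · intro ht
        exact hσ2 ⟨t, ht⟩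
      · intro ht
        obtain ⟨a, ⟨-, ha⟩, haC, haσ⟩ := ht C hC
        obtain ⟨t', -, ha'⟩ := hC' a haC haσ
        have h1 : e t = e t'.1 := Subtype.ext (ha.symm.trans ha')
        rw [e.injective h1]
        exact t'.2
    · exact ⟨none, fun h => absurd h hX, fun _ => rfl⟩
  choose σ hσ1 hσ2 using hex
  have hinj : Function.Injective σ := by
    intro X Y hXY
    by_cases hX : X.Nonempty
    · by_cases hY : Y.Nonempty
      · obtain ⟨s, hs, h1⟩ := hσ1 X hX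
        obtain ⟨s', hs', h2⟩ := hσ1 Y hY
        rw [hs, hs', Option.some_inj] at hXY
        ext t
        rw [h1, h2, hXY]
      · obtain ⟨s, hs, -⟩ := hσ1 X hX
        rw [hσ2 Y hY, hs] at hXY
        exact absurd hXY (Option.some_ne_none s)
    · by_cases hY : Y.Nonempty
      · obtain ⟨s, hs, -⟩ := hσ1 Y hY
        rw [hσ2 X hX, hs] at hXY
        exact absurd hXY.symm (Option.some_ne_none s)
      · rw [Set.not_nonempty_iff_eq_empty.1 hX, Set.not_nonempty_iff_eq_empty.1 hY]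
  have h1 := Cardinal.mk_le_of_injective hinj
  rw [Cardinal.mk_set, Cardinal.mk_out, Cardinal.mk_option, mk_toType, card_ord,
    Cardinal.add_one_eq hc'.le] at h1
  exact h1

end Pool.Agent.Helper16.HR
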