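import Pool.Agent.Helper16.HR.Meas
import Pool.Agent.Helper29.HM.PW

/-! # HR: the power sets in HOD are small below a measurable cardinal of HOD -/

set_option autoImplicit false

namespace Pool.Agent.Helper16.HR

open Ordinal Cardinal ZFSet Order Pool.Agent.Helper73.HODC Pool.Agent.Helper73.HE
open Pool.Agent.Helper73.HM Pool.Agent.Helper73.HU Pool.Agent.Helper29.HM.PW

theorem compl_mem {lam : Ordinal.{0}} {U : ZFSet.{0}} (h : HODNormal lam U)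
    {S : Set Ordinal.{0}} (hS : DPs S) (hn : ordSet lam S ∉ U) :
    ordSet lam {a | a ∉ S} ∈ U := by
  have h1 : ordSet lam S ∈ hodPow lam := mem_hodPow.2 ⟨ordSet_sub _ _, od_ordSet hS _⟩
  have h2 := (h.ultra _ h1).not.1 hn
  rw [not_not] at h2
  have h3 : lam.toZFSet \ ordSet lam S = ordSet lam {a | a ∉ S} := by
    ext z
    rw [ZFSet.mem_sdiff, mem_ordSet, mem_ordSet]
    constructor
    · rintro ⟨h4, h5⟩
      obtain ⟨a, ha, rfl⟩ := mem_toZFSet_iff.1 h4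
      exact ⟨a, ha, fun h6 => h5 ⟨a, ha, h6, rfl⟩, rfl⟩
    · rintro ⟨a, ha, h4, rfl⟩
      refine ⟨mem_toZFSet_iff.2 ⟨a, ha, rfl⟩, ?_⟩
      rintro ⟨b, hb, hb', hab⟩
      rw [← toZFSet_injective hab] at hb'
      exact h4 hb'
  rw [h3] at h2
  exact h2

theorem dp_memU {lam : Ordinal.{0}} {U : ZFSet.{0}} (hU : HOD U)
    {T : Ordinal.{0} → Set Ordinal.{0}} (hT : DP (fun v => (v 0).rank ∈ T (v 1).rank)) :
    DP (fun v => ordSet lam (T (v 0).rank) ∈ U) := by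
  have h1 : DP (fun v => v 0 = ordSet lam (T (v 1).rank)) := by
    refine (DP.all (Q := fun w v => w ∈ v 0 ↔ w = w.rank.toZFSet ∧ w.rank < lam ∧
      w.rank ∈ T (v 1).rank) ?_).congr fun v => ?_
    · refine (DP.mem 0 1).iff ((DP.isOrd 0).and ((DP.rank_lt_ord 0 lam).and ?_))
      exact hT.rename (fun n => if n = 0 then 0 else 2)
    · rw [ZFSet.ext_iff]
      refine forall_congr' fun w => iff_congr Iff.rfl ?_
      rw [mem_ordSet]
      constructor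
      · rintro ⟨a, ha, ha', rfl⟩
        rw [rank_toZFSet]
        exact ⟨rfl, ha, ha'⟩
      · rintro ⟨h2, h3, h4⟩
        exact ⟨_, h3, h4, h2⟩
  have h2 : DP (fun v => ∃ z : ZFSet.{0}, z = ordSet lam (T (v 1).rank) ∧ z ∈ v 0) := by
    refine DP.ex (Q := fun z v => z = ordSet lam (T (v 1).rank) ∧ z ∈ v 0) ?_
    exact (h1.rename (fun n => if n = 0 then 0 else 2)).and (DP.mem 0 1)
  refine (dp_subst_HOD (Q := fun x v => ∃ z : ZFSet.{0}, z = ordSet lam (T (v 0).rank) ∧ z ∈ x)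
    h2 hU).congr fun v => ?_
  constructor
  · intro h
    exact ⟨_, rfl, h⟩
  · rintro ⟨z, rfl, h⟩
    exact h

theorem R_lt_normal (h1 : StLE) (h2 : StLD) (h3 : StRE) {κ lam : Ordinal.{0}}
    (hlim : IsSuccLimit lam) (hκ : κ < lam) {U : ZFSet.{0}} (hU : HODNormal lam U) :
    ∃ ζ < lam, ¬ ∃ x, R κ x ζ := by
  by_contra hcon
  push Not at hcon
  have h0 : (0 : Ordinal.{0}) < lam := lt_of_le_of_lt zero_le hκ
  have hdH := dp_H h2 h3 κ
  set Y : Set Ordinal.{0} := {ξ | ordSet lam {a | ξ ∈ H κ a} ∈ U} with hY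
  have hYd : DP (fun v => (v 0).rank ∈ Y) :=
    dp_memU hU.hod (T := fun ξ => {a | ξ ∈ H κ a})
      (hdH.rename (fun n => if n = 0 then 1 else 0))
  have hE : ∀ ξ, ordSet lam {a | ξ ∈ H κ a ↔ ξ ∈ Y} ∈ U := by
    intro ξ
    by_cases hξ : ξ ∈ Y
    · have h4 : {a | ξ ∈ H κ a ↔ ξ ∈ Y} = {a | ξ ∈ H κ a} := by
        ext a
        exact iff_true_right hξ
      rw [h4]
      exact hξ
    · have h4 : {a | ξ ∈ H κ a ↔ ξ ∈ Y} = {a | a ∉ {a | ξ ∈ H κ a}} := by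
        ext a
        exact iff_false_right hξ
      rw [h4]
      refine compl_mem hU ?_ hξ
      exact dp_subst_at (Q := fun x v => x ∈ H κ (v 0).rank) hdH ξ
  -- at most one number belongs to `Y`
  obtain ⟨s, hs, hs'⟩ : ∃ s < lam, ∀ a, s ≤ a → a < lam → ∃ ξ < κ, ¬ (ξ ∈ H κ a ↔ ξ ∈ Y) := by
    by_cases hex : ∃ a₀ < lam, ∀ ξ < κ, (ξ ∈ H κ a₀ ↔ ξ ∈ Y)
    · obtain ⟨a₀, ha₀, h4⟩ := hex
      refine ⟨succ a₀, hlim.succ_lt ha₀, fun a ha hal => ?_⟩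
      by_contra h5
      push Not at h5
      obtain ⟨x, hx⟩ := hcon a hal
      obtain ⟨x₀, hx₀⟩ := hcon a₀ ha₀
      have h6 : x = x₀ := by
        refine ext_st hx.1.2.1 hx₀.1.2.1 fun b => ?_
        rw [← H_eq h1 hx, ← H_eq h1 hx₀]
        have key : ∀ d, d < lam → b ∈ H κ d → b < κ := by
          intro d hd hb
          obtain ⟨B, hB, hb⟩ := mem_H.1 hb
          exact lt_of_mem_st hB.1.2.1 hb
        constructor
        · intro hb
          have h7 := key _ hal hb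
          exact (h4 b h7).2 ((h5 b h7).1 hb)
        · intro hb
          have h7 := key _ ha₀ hb
          exact (h5 b h7).2 ((h4 b h7).1 hb)
      rw [h6] at hx
      have h7 := R_unique h1 hx hx₀
      rw [h7] at ha
      exact absurd (lt_succ a₀) (not_lt.2 ha)
    · push Not at hex
      refine ⟨0, h0, fun a _ hal => ?_⟩
      obtain ⟨ξ, h4, h5⟩ := hex a hal
      refine ⟨ξ, h4, fun h6 => ?_⟩
      rcases h5 with ⟨h7, h8⟩ | ⟨h7, h8⟩
      · exact h8 (h6.1 h7)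
      · exact h7 (h6.2 h8)
  set m : Ordinal.{0} := max s (succ κ) with hm
  have hmlam : m < lam := max_lt hs (hlim.succ_lt hκ)
  have hx : ∀ a, m ≤ a → a < lam → sInf {ξ | ξ < κ ∧ ¬ (ξ ∈ H κ a ↔ ξ ∈ Y)} ∈
      {ξ | ξ < κ ∧ ¬ (ξ ∈ H κ a ↔ ξ ∈ Y)} := by
    intro a ha hal
    obtain ⟨ξ, h4, h5⟩ := hs' a ((le_max_left _ _).trans ha) hal
    exact csInf_mem ⟨ξ, h4, h5⟩
  obtain ⟨ξ, -, hξ⟩ := press hU (f := fun a => sInf {ξ | ξ < κ ∧ ¬ (ξ ∈ H κ a ↔ ξ ∈ Y)})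
    (Helper86.HU.EX.dp_sInf (S := fun a => {ξ | ξ < κ ∧ ¬ (ξ ∈ H κ a ↔ ξ ∈ Y)}) (by
      refine (DP.rank_lt_ord 1 κ).and (DP.not ?_)
      exact (hdH.rename (fun n => if n = 0 then 1 else 0)).iff (hYd.rename (fun _ => 1))) 0 1)
    (hU.tail m hmlam) (by
      intro a ha hal _
      have ha' : m ≤ a := ha
      refine (hx a ha' hal).1.trans_le ?_
      exact (lt_succ κ).le.trans ((le_max_right _ _).trans ha'))
  obtain ⟨a, hal, ⟨h4, h5⟩, h6⟩ := exists_mem hU h0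
    (inter_mem hU (inter_mem hU hξ (hE ξ)) (hU.tail m hmlam))
  have h4' : sInf {ξ | ξ < κ ∧ ¬ (ξ ∈ H κ a ↔ ξ ∈ Y)} = ξ := h4
  have h6' : m ≤ a := h6
  have h7 := hx a h6' hal
  rw [h4'] at h7
  exact h7.2 h5

theorem powLt_of (h1 : StLE) (h2 : StLD) (h3 : StRE) {κ lam : Ordinal.{0}}
    (hR : ∃ ζ < lam, ¬ ∃ x, R κ x ζ) : HODPowLt κ lam := by
  obtain ⟨β, hβ, hβm⟩ : ∃ β, (β < lam ∧ ¬ ∃ x, R κ x β) ∧
      ∀ ζ < β, ∃ x, R κ x ζ := by
    obtain ⟨ζ, hζ, hζ'⟩ := hR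
    have hne : {ζ | ζ < lam ∧ ¬ ∃ x, R κ x ζ}.Nonempty := ⟨ζ, hζ, hζ'⟩
    refine ⟨sInf {ζ | ζ < lam ∧ ¬ ∃ x, R κ x ζ}, csInf_mem hne, fun ξ hξ => ?_⟩
    by_contra h5
    exact notMem_of_lt_csInf' hξ ⟨hξ.trans (csInf_mem hne).1, h5⟩
  have hex : ∀ x ∈ hodPow κ, ∃ ζ < β, R κ x ζ := by
    intro x hx
    obtain ⟨hx1, hx2⟩ := mem_hodPow.1 hx
    by_contra hcon
    push Not at hcon
    apply hβ.2
    apply h1.2
    refine ⟨x, hx2, hx1, fun η hη h5 => ?_⟩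
    obtain ⟨y, hy⟩ := hβm η hη
    rw [H_eq h1 hy] at h5
    have h6 : x = y := ext_st hx1 hy.1.2.1 fun a => by rw [h5]
    rw [← h6] at hy
    exact hcon η hη hy
  have he : ∀ x, ∀ ζ, R κ x ζ → sInf {ζ | R κ x ζ} = ζ := by
    intro x ζ hζ
    have h5 : sInf {ζ | R κ x ζ} ∈ {ζ | R κ x ζ} := csInf_mem ⟨ζ, hζ⟩
    exact R_unique h1 h5 hζ
  refine ⟨β, hβ.1, fun x => sInf {ζ | R κ x ζ}, ?_, ?_, ?_⟩
  · intro x hx
    obtain ⟨ζ, h5, h6⟩ := hex x hx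
    show sInf {ζ | R κ x ζ} < β
    rw [he x ζ h6]
    exact h5
  · intro x hx y hy hxy
    obtain ⟨ζ, h5, h6⟩ := hex x hx
    obtain ⟨ζ', h7, h8⟩ := hex y hy
    change sInf {ζ | R κ x ζ} = sInf {ζ | R κ y ζ} at hxy
    rw [he x ζ h6, he y ζ' h8] at hxy
    rw [← hxy] at h8
    exact h1.1 _ _ _ _ h6 h8
  · refine HOD.intro _ (DP.od ?_) ?_
    · refine (DP.all (Q := fun z v => z ∈ v 0 ↔ ∃ x w, z = ZFSet.pair x w ∧
        w = w.rank.toZFSet ∧ R κ x w.rank) ?_).congr ?_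
      · refine (DP.mem 0 1).iff ?_
        refine DP.ex (Q := fun x v => ∃ w, v 0 = ZFSet.pair x w ∧
          w = w.rank.toZFSet ∧ R κ x w.rank) ?_
        refine DP.ex (Q := fun w v => v 1 = ZFSet.pair (v 0) w ∧
          w = w.rank.toZFSet ∧ R κ (v 0) w.rank) ?_
        exact (DP.pair 2 1 0).and ((DP.isOrd 0).and (dp_R h2 h3 κ 1 0))
      · intro v
        rw [ZFSet.ext_iff]
        refine forall_congr' fun z => iff_congr Iff.rfl ?_
        rw [mem_range]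
        constructor
        · rintro ⟨⟨x, hx⟩, rfl⟩
          obtain ⟨ζ, h5, h6⟩ := hex x hx
          refine ⟨x, _, rfl, ?_, ?_⟩
          · rw [rank_toZFSet]
          · rw [rank_toZFSet]
            show R κ x (sInf {ζ | R κ x ζ})
            rw [he x ζ h6]
            exact h6
        · rintro ⟨x, w, rfl, h5, h6⟩
          refine ⟨⟨x, mem_hodPow.2 ⟨h6.1.2.1, h6.1.1⟩⟩, ?_⟩
          show ZFSet.pair x (sInf {ζ | R κ x ζ}).toZFSet = ZFSet.pair x w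
          rw [he x _ h6, ← h5]
    · intro y hy
      rw [mem_range] at hy
      obtain ⟨⟨x, hx⟩, rfl⟩ := hy
      obtain ⟨hx1, hx2⟩ := mem_hodPow.1 hx
      have h5 := hod_of_sub hx1 hx2
      have h6 := HOD_toZFSet (sInf {ζ | R κ x ζ})
      exact HOD_pair h5 h6 (dp_eq_HOD h5 0) (dp_eq_HOD h6 0)

theorem powLt_of_normal (h1 : StLE) (h2 : StLD) (h3 : StRE) {κ lam : Ordinal.{0}}
    (hlim : IsSuccLimit lam) (hκ : κ < lam) {U : ZFSet.{0}} (hU : HODNormal lam U) :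
    HODPowLt κ lam := powLt_of h1 h2 h3 (R_lt_normal h1 h2 h3 hlim hκ hU)

end Pool.Agent.Helper16.HR
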