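import Pool.Agent.Helper16.HR.Pow
import Pool.Agent.Helper16.HR.AtomW
import Pool.Agent.Helper16.HR.PwN

/-! # HR: exact reflection and subsets of `ω` which do not belong to HOD -/

set_option autoImplicit false

namespace Pool.Agent.Helper16.HR

open Ordinal Cardinal ZFSet Order Pool.Agent.Helper73.HODC Pool.Agent.Helper73.HE
open Pool.Agent.Helper73.HM Pool.Agent.Helper73.HU Pool.Agent.Helper73.HV
open Pool.Agent.Helper36.HS Pool.Agent.Helper73.HX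

/-- the alternative, if there are no infinite definable sequences -/
theorem large_of_noW (F : Facts) {θ : Cardinal.{0}} (hθ : ℵ₀ < θ)
    (hno : ∀ τ : Ordinal.{0}, θ < τ.cof → NoSeqO ℵ₀ τ {a | a.cof = ℵ₀})
    {c : Cardinal.{0}} (hc : c.IsRegular) (hθc : θ < c) : Large c := by
  have hAt : AtomsH (succ ℵ₀) θ := by
    intro τ X hτ hX hX' hXc
    have hunc : ℵ₀ < τ.cof := hθ.trans hτ
    have hX1 : DPs {a | a ∈ X ∧ a.cof = ℵ₀} := hX.and dps_cof_omega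
    have hX2 : Stat {a | a ∈ X ∧ a.cof = ℵ₀} τ := by
      refine (Stat.inter_club hunc hX' (club_limit hunc)).mono fun a ha _ => ⟨ha.1, ?_⟩
      have h4 : a.cof < succ ℵ₀ := hXc a ha.1
      have h5 : IsSuccLimit a := ha.2
      exact le_antisymm (lt_succ_iff.1 h4) (aleph0_le_cof_iff.2 (one_lt_cof_iff.2 h5))
    obtain ⟨A, hA, hA1, hA2⟩ := atomW F.re F.ld F.le hX1 hX2 (by
      rintro ⟨S, hS1, hS2, hS3, hS4⟩
      exact hno τ hτ ⟨S, hS1, hS2, fun ξ hξ a ha => (hS3 ξ hξ a ha).2, hS4⟩)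
    exact ⟨A, hA, fun a ha => ⟨(hA1 a ha).1.1, (hA1 a ha).2⟩, hA2⟩
  refine large_of F hθ hAt (fun d hd h => ?_) hc hθc
  obtain ⟨U, hU⟩ := normal_at F hθ hAt hd h
  have hd0 : ℵ₀ < d := hθ.trans h
  refine ⟨ℵ₀, aleph0_ne_zero, ord_lt_ord.2 hd0,
    powLt_of_normal F.le F.ld F.re (isSuccLimit_ord hd.aleph0_le) (ord_lt_ord.2 hd0) hU, ?_⟩
  rintro ⟨S, hS1, hS2, hS3, hS4, hS5⟩
  exact hno d.ord (by rw [hd.cof_ord]; exact h)
    ⟨S, odRel_of_hod hS5, hS1, fun ξ hξ a ha => (hS2 ξ hξ a ha).2, hS4⟩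

/-- the alternative, from exact reflection and a subset of `ω` -/
theorem large_of_real (F : Facts) (hR : MMRefl) {X : Set Ordinal.{0}}
    (hX : ∀ a ∈ X, a < ω) (hn : ¬ InHOD X) {c : Cardinal.{0}} (hc : c.IsRegular)
    (hθc : ℵ_ 2 ≤ c) : Large c := by
  have h12 : succ (ℵ_ 1 : Cardinal.{0}) = ℵ_ 2 := by
    rw [succ_aleph, one_add_one_eq_two]
  refine large_of_noW F (θ := ℵ_ 1) aleph0_lt_aleph_one (fun τ hτ => ?_) hc
    (aleph_one_lt_two.trans_le hθc)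
  rintro ⟨S, hS1, hS2, hS3, hS4⟩
  refine hn (exact_code F.nmp F.tr hR ?_ hS1 hS2 (fun ξ hξ a ha => hS3 ξ hξ a ha) hS4 ?_ ?_)
  · rw [← h12]
    exact succ_le_of_lt hτ
  · have h1 : Cardinal.mk X ≤ Cardinal.mk (Set.Iio (ω : Ordinal.{0})) :=
      Cardinal.mk_le_mk_of_subset (fun a ha => hX a ha)
    rw [Cardinal.mk_Iio_ordinal, card_omega0] at h1
    exact h1.trans (Cardinal.lift_le.2 aleph0_lt_aleph_one.le)
  · intro a ha
    rw [ord_aleph0]
    exact hX a ha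

end Pool.Agent.Helper16.HR
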