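import Pool.Agent.Helper16.HR.Top
import Pool.Agent.Helper16.HR.Defs2
import Pool.Agent.Helper32.HM.RA
import Pool.Agent.Helper38.HM.RC
import Pool.Agent.Helper11.HM.RS
import Pool.Agent.Helper73.HX.SC2

/-! # HR: simultaneous reflection from the extension of filters -/

set_option autoImplicit false

namespace Pool.Agent.Helper16.HR

open Ordinal Cardinal ZFSet Order Filter Pool.Agent.Helper73.HODC Pool.Agent.Helper73.HE
open Pool.Agent.Helper73.HM

/-- RA for two cardinals -/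
theorem raG {δ κ c : Cardinal.{0}} (hδ : ℵ₀ < δ) (hκ' : ℵ₀ < κ) (hreg : κ.IsRegular)
    (hE : ExtFilters δ κ) (hc : c.IsRegular) (hκc : κ ≤ c) :
    ∃ (I : Type) (U : Ultrafilter I) (g : I → Ordinal.{0}),
    CardinalInterFilter (U : Filter I) δ ∧
    (∀ β < c.ord, ∀ᶠ x in (U : Filter I), β < g x) ∧
    (∀ f : I → Ordinal.{0}, (∀ᶠ x in (U : Filter I), f x < g x) →
      ∃ β < c.ord, ∀ᶠ x in (U : Filter I), f x ≤ β) ∧
    (∀ᶠ x in (U : Filter I), g x < c.ord ∧ (g x).cof < κ) := by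
  have hκ : ℵ₀ ≤ κ := hκ'.le
  obtain ⟨U, hU, hUF⟩ := hE (Helper32.HM.Sm κ c) (Helper32.HM.fineF κ c hκ)
    (Helper32.HM.fineF_neBot κ c hκ) (Helper32.HM.fineF_card κ c hκ hreg)
  have : CountableInterFilter (U : Filter (Helper32.HM.Sm κ c)) :=
    CardinalInterFilter.toCountableInterFilter (c := δ) (U : Filter (Helper32.HM.Sm κ c)) hδ
  -- values of elements
  let e : ∀ β : Ordinal.{0}, β < c.ord → c.ord.ToType := fun β hβ => ToType.mk ⟨β, hβ⟩
  let v : c.ord.ToType → Ordinal.{0} := fun t => (ToType.mk.symm t).1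
  have hve : ∀ β (hβ : β < c.ord), v (e β hβ) = β := fun β hβ => by
    show ((ToType.mk.symm (ToType.mk ⟨β, hβ⟩)) : Set.Iio c.ord).1 = β
    rw [OrderIso.symm_apply_apply]
  have hvlt : ∀ t, v t < c.ord := fun t => (ToType.mk.symm t).2
  have hfine : ∀ β (hβ : β < c.ord), ∀ᶠ x in (U : Filter (Helper32.HM.Sm κ c)), e β hβ ∈ x.1 := by
    intro β hβ
    refine hUF (Helper32.HM.mem_fineF.2 ⟨{e β hβ}, ?_, fun x hx => hx rfl⟩)
    rw [Cardinal.mk_singleton]
    exact lt_of_lt_of_le Cardinal.one_lt_aleph0 hκ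
  -- the sup function
  let g0 : Helper32.HM.Sm κ c → Ordinal.{0} := fun x => ⨆ t : x.1, v t.1 + 1
  have hg0lt : ∀ x, g0 x < c.ord := fun x => by
    refine Ordinal.iSup_add_one_lt_of_lt_cof ?_ fun t => hvlt t.1
    rw [hc.cof_ord]
    exact x.2.trans_le hκc
  have hg0 : ∀ β < c.ord, ∀ᶠ x in (U : Filter (Helper32.HM.Sm κ c)), β < g0 x := by
    intro β hβ
    filter_upwards [hfine β hβ] with x hx
    have h1 := Ordinal.lt_iSup_add_one (fun t : x.1 => v t.1) ⟨e β hβ, hx⟩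
    have h2 : v (e β hβ) < ⨆ t : x.1, v t.1 + 1 := h1
    rwa [hve] at h2
  -- the order of functions modulo `U`
  let R : (Helper32.HM.Sm κ c → Ordinal.{0}) → (Helper32.HM.Sm κ c → Ordinal.{0}) → Prop :=
    fun f g => ∀ᶠ x in (U : Filter (Helper32.HM.Sm κ c)), f x < g x
  have hR : WellFounded R := by
    rw [wellFounded_iff_isEmpty_descending_chain]
    refine ⟨fun ⟨f, hf⟩ => ?_⟩
    have h1 : ∀ᶠ x in (U : Filter (Helper32.HM.Sm κ c)), ∀ n, f (n + 1) x < f n x :=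
      eventually_countable_forall.2 hf
    obtain ⟨x, hx⟩ := h1.exists
    exact not_strictAnti_of_wellFoundedLT (fun n => f n x) (strictAnti_nat_of_succ_lt hx)
  let G : Set (Helper32.HM.Sm κ c → Ordinal.{0}) := {g | ∀ β < c.ord, ∀ᶠ x in (U : Filter (Helper32.HM.Sm κ c)), β < g x}
  have hG : G.Nonempty := ⟨g0, hg0⟩
  let g := hR.min G hG
  have hgG : g ∈ G := hR.min_mem G hG
  have hgmin : ∀ f : Helper32.HM.Sm κ c → Ordinal.{0}, R f g → ∃ β < c.ord,
      ∀ᶠ x in (U : Filter (Helper32.HM.Sm κ c)), f x ≤ β := by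
    intro f hf
    have h1 : f ∉ G := fun h => hR.not_lt_min G h hf
    by_contra hno
    apply h1
    intro β hβ
    by_contra h2
    exact hno ⟨β, hβ, (Ultrafilter.eventually_not.2 h2).mono fun x hx => not_lt.1 hx⟩
  have hgle : ∀ᶠ x in (U : Filter (Helper32.HM.Sm κ c)), g x ≤ g0 x := by
    by_contra h1
    have h2 : R g0 g := (Ultrafilter.eventually_not.2 h1).mono fun x hx => not_le.1 hx
    obtain ⟨β, hβ, h3⟩ := hgmin g0 h2
    obtain ⟨x, hx1, hx2⟩ := (h3.and (hg0 β hβ)).exists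
    exact absurd hx1 (not_le.2 hx2)
  refine ⟨Helper32.HM.Sm κ c, U, g, hU, hgG, hgmin, ?_⟩
  -- the cofinality
  let f : Helper32.HM.Sm κ c → Ordinal.{0} := fun x => ⨆ t : {t : x.1 // v t.1 < g x}, v t.1.1 + 1
  have hfle : ∀ x, f x ≤ g x := fun x => by
    refine Ordinal.iSup_le fun t => ?_
    exact Order.add_one_le_iff.2 t.2
  have hfg : ∀ᶠ x in (U : Filter (Helper32.HM.Sm κ c)), f x = g x := by
    by_contra h1
    have h2 : R f g := (Ultrafilter.eventually_not.2 h1).mono fun x hx =>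
      lt_of_le_of_ne (hfle x) hx
    obtain ⟨β, hβ, h3⟩ := hgmin f h2
    obtain ⟨x, hx1, hx2, hx3⟩ := (h3.and ((hfine β hβ).and (hgG β hβ))).exists
    have h4 : v (e β hβ) < g x := by rw [hve]; exact hx3
    have h5 := Ordinal.lt_iSup_add_one (fun t : {t : x.1 // v t.1 < g x} => v t.1.1)
      ⟨⟨e β hβ, hx2⟩, h4⟩
    have h6 : v (e β hβ) < f x := h5
    rw [hve] at h6
    exact absurd hx1 (not_le.2 h6)
  filter_upwards [hgle, hfg] with x hx1 hx2
  refine ⟨hx1.trans_lt (hg0lt x), ?_⟩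
  rw [← hx2]
  calc (f x).cof ≤ Cardinal.mk {t : x.1 // v t.1 < g x} := Ordinal.cof_iSup_add_one_le _
    _ ≤ Cardinal.mk x.1 := Cardinal.mk_subtype_le _
    _ < κ := x.2

/-- RC for two cardinals -/
theorem rcG {δ c : Cardinal.{0}} {I : Type} {U : Ultrafilter I} {g : I → Ordinal.{0}}
    (hδ : ℵ₀ < δ) (hc : c.IsRegular) (hc0 : ℵ₀ < c) (hU : CardinalInterFilter (U : Filter I) δ)
    (h1 : ∀ β < c.ord, ∀ᶠ x in (U : Filter I), β < g x)
    (h2 : ∀ f : I → Ordinal.{0}, (∀ᶠ x in (U : Filter I), f x < g x) →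
      ∃ β < c.ord, ∀ᶠ x in (U : Filter I), f x ≤ β) :
    ∀ᶠ x in (U : Filter I), ℵ₀ < (g x).cof := by
  classical
  have hcl : IsSuccLimit c.ord := isSuccLimit_ord hc.aleph0_le
  have hcount : CountableInterFilter (U : Filter I) := CardinalInterFilter.toCountableInterFilter _ hδ
  have hsucc : ∀ β < c.ord, succ β < c.ord := fun β hβ => hcl.succ_lt hβ
  have hpos : ∀ᶠ x in (U : Filter I), 0 < g x := h1 0 (pos_of_cof (by rw [hc.cof_ord]; exact hc0))
  -- limit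
  have hlim : ∀ᶠ x in (U : Filter I), IsSuccLimit (g x) := by
    by_contra hcon
    rw [← Ultrafilter.eventually_not] at hcon
    have h4 : ∀ᶠ x in (U : Filter I), ∃ a, g x = succ a := by
      filter_upwards [hcon, hpos] with x hx hx0
      rcases Ordinal.zero_or_succ_or_isSuccLimit (g x) with h | ⟨a, h⟩ | h
      · rw [h] at hx0; exact absurd hx0 (lt_irrefl _)
      · exact ⟨a, h.symm⟩
      · exact absurd h hx
    obtain ⟨β, hβ, hfβ⟩ := h2 (fun x => if h : ∃ a, g x = succ a then h.choose else 0) (by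
      filter_upwards [h4] with x hx
      rw [dif_pos hx]
      conv_rhs => rw [hx.choose_spec]
      exact lt_succ _)
    obtain ⟨x, hx, hxβ, hx1⟩ := (h4.and (hfβ.and (h1 _ (hsucc β hβ)))).exists
    rw [dif_pos hx] at hxβ
    rw [hx.choose_spec, succ_lt_succ_iff] at hx1
    exact absurd (hx1.trans_le hxβ) (lt_irrefl _)
  -- cofinality is not countable
  have hne : ∀ᶠ x in (U : Filter I), (g x).cof ≠ ℵ₀ := by
    by_contra hcon
    have hcon' : ∀ᶠ x in (U : Filter I), ¬ (g x).cof ≠ ℵ₀ := Ultrafilter.eventually_not.2 hcon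
    have hex : ∀ x, ∃ F : ℕ → Ordinal.{0}, (g x).cof = ℵ₀ →
        (∀ n, F n < g x) ∧ ∀ b < g x, ∃ n, b ≤ F n := by
      intro x
      by_cases hx : (g x).cof = ℵ₀
      · obtain ⟨_, f, hf⟩ := dn_cof_omega_iff_seq.1 hx
        exact ⟨f, fun _ => hf⟩
      · exact ⟨fun _ => 0, fun h => absurd h hx⟩
    choose F hF using hex
    have h5 : ∀ n : ℕ, ∃ β < c.ord, ∀ᶠ x in (U : Filter I), F x n ≤ β := by
      intro n
      refine h2 (fun x => F x n) ?_
      filter_upwards [hcon'] with x hx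
      exact (hF x (not_not.1 hx)).1 n
    choose β hβ hFβ using h5
    have hs : (⨆ n, β n) < c.ord := by
      refine Ordinal.iSup_lt_of_lt_cof ?_ hβ
      rw [hc.cof_ord]
      simpa using hc0
    have h6 : ∀ᶠ x in (U : Filter I), ∀ n, F x n ≤ β n := eventually_countable_forall.2 hFβ
    obtain ⟨x, hx, hx6, hx1⟩ := (hcon'.and (h6.and (h1 _ (hsucc _ hs)))).exists
    obtain ⟨n, hn⟩ := (hF x (not_not.1 hx)).2 _ hx1
    have h7 : β n ≤ ⨆ n, β n := Ordinal.le_iSup β n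
    exact absurd (lt_succ (⨆ n, β n)) (not_lt.2 (hn.trans ((hx6 n).trans h7)))
  filter_upwards [hlim, hne] with x hx hx'
  have h8 : ℵ₀ ≤ (g x).cof := by
    rw [aleph0_le_cof_iff, one_lt_cof_iff]
    exact hx
  exact lt_of_le_of_ne h8 (Ne.symm hx')

/-- RS for two cardinals -/
theorem rsG {δ c : Cardinal.{0}} {I : Type} {U : Ultrafilter I} {g : I → Ordinal.{0}}
    (hδ : ℵ₀ < δ) (hc : c.IsRegular) (hc0 : ℵ₀ < c) (hU : CardinalInterFilter (U : Filter I) δ)
    (hg1 : ∀ β < c.ord, ∀ᶠ x in (U : Filter I), β < g x)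
    (hg2 : ∀ f : I → Ordinal.{0}, (∀ᶠ x in (U : Filter I), f x < g x) →
      ∃ β < c.ord, ∀ᶠ x in (U : Filter I), f x ≤ β)
    {A : Set Ordinal.{0}} (hA : Stat A c.ord) (hAcof : ∀ a ∈ A, a.cof < δ) :
    ∀ᶠ x in (U : Filter I), Stat A (g x) := by
  have hcof : c.ord.cof = c := hc.cof_ord
  have hκ : ℵ₀ < c.ord.cof := by rw [hcof]; exact hc0
  have hlim := isSuccLimit_of_cof hκ
  by_contra hcon
  rw [← Ultrafilter.eventually_not] at hcon
  have hch : ∀ x : I, ∃ C : Set Ordinal.{0}, ¬ Stat A (g x) →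
      Club C (g x) ∧ ∀ a ∈ A, a ∈ C → ¬ a < g x := by
    intro x
    by_cases h : Stat A (g x)
    · exact ⟨∅, fun h' => absurd h h'⟩
    · have h' := h
      simp only [Stat] at h'
      push Not at h'
      obtain ⟨C, hC, hC'⟩ := h'
      exact ⟨C, fun _ => ⟨hC, fun a ha haC => not_lt.mpr (hC' a ha haC)⟩⟩
  choose C hC using hch
  -- bounds
  have hs : ∀ β : Ordinal.{0}, ∃ s : Ordinal.{0}, β < c.ord →
      β < s ∧ s < c.ord ∧ ∀ᶠ x in (U : Filter I), ∃ γ ∈ C x, β < γ ∧ γ ≤ s := by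
    intro β
    by_cases hβ : β < c.ord
    · have hf : ∀ x : I, ∃ γ : Ordinal.{0}, (∃ γ ∈ C x, β < γ ∧ γ < g x) →
          γ ∈ C x ∧ β < γ ∧ γ < g x := by
        intro x
        by_cases h : ∃ γ ∈ C x, β < γ ∧ γ < g x
        · obtain ⟨γ, h1, h2, h3⟩ := h
          exact ⟨γ, fun _ => ⟨h1, h2, h3⟩⟩
        · exact ⟨0, fun h' => absurd h' h⟩
      choose f hf using hf
      have hall : ∀ᶠ x in (U : Filter I), f x ∈ C x ∧ β < f x ∧ f x < g x := by
        filter_upwards [hcon, hg1 β hβ] with x hx1 hx2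
        exact hf x ((hC x hx1).1.1 β hx2)
      obtain ⟨s, hs1, hs2⟩ := hg2 f (hall.mono fun x hx => hx.2.2)
      refine ⟨max s (Order.succ β), fun _ => ⟨?_, max_lt hs1 (hlim.succ_lt hβ), ?_⟩⟩
      · exact lt_of_lt_of_le (Order.lt_succ β) (le_max_right _ _)
      · filter_upwards [hall, hs2] with x hx1 hx2
        exact ⟨f x, hx1.1, hx1.2.1, hx2.trans (le_max_left _ _)⟩
    · exact ⟨0, fun h => absurd h hβ⟩
  choose s hs using hs
  haveI : CountableInterFilter (U : Filter I) := hU.toCountableInterFilter _ hδ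
  set D : Set Ordinal.{0} := {β | β < c.ord ∧ ∀ᶠ x in (U : Filter I), β ∈ C x} with hD
  -- `D` is unbounded
  have hDu : ∀ β < c.ord, ∃ d ∈ D, β < d ∧ d < c.ord := by
    intro β hβ
    let u : ℕ → Ordinal.{0} := fun n => s^[n] β
    have hsucc : ∀ n, u (n + 1) = s (u n) := fun n => Function.iterate_succ_apply' s n β
    have hu : ∀ n, u n < c.ord := by
      intro n
      induction n with
      | zero => exact hβ
      | succ n ih => rw [hsucc]; exact (hs _ ih).2.1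
    have hmono : StrictMono u := by
      apply strictMono_nat_of_lt_succ
      intro n
      rw [hsucc]
      exact (hs _ (hu n)).1
    have hle : ∀ n, u n ≤ ⨆ n, u n := fun n => Ordinal.le_iSup u n
    have hlt : ∀ n, u n < ⨆ n, u n := fun n => (hmono (Nat.lt_succ_self n)).trans_le (hle _)
    have hsup : (⨆ n, u n) < c.ord := by
      apply iSup_lt_of_lt_cof _ hu
      rw [Cardinal.mk_nat]
      exact hκ
    have hev : ∀ᶠ x in (U : Filter I), ∀ n, ∃ γ ∈ C x, u n < γ ∧ γ ≤ u (n + 1) := by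
      rw [eventually_countable_forall]
      intro n
      rw [hsucc]
      exact (hs _ (hu n)).2.2
    refine ⟨⨆ n, u n, ⟨hsup, ?_⟩, hlt 0, hsup⟩
    filter_upwards [hev, hcon, hg1 _ hsup] with x hx1 hx2 hx3
    refine (hC x hx2).1.2 _ hx3 (ne_of_gt (lt_of_le_of_lt zero_le (hlt 0))) ?_
    intro b hb
    obtain ⟨n, hn⟩ := Ordinal.lt_iSup_iff.mp hb
    obtain ⟨γ, h1, h2, h3⟩ := hx1 n
    exact ⟨γ, h1, hn.trans h2, h3.trans_lt (hlt _)⟩
  -- limit points of `D`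
  have hclub : Club {β | UnbIn D β ∧ 0 < β} c.ord := by
    refine ⟨?_, ?_⟩
    · intro a ha
      have hch : ∀ x : Ordinal.{0}, ∃ y, x < c.ord → y ∈ D ∧ x < y ∧ y < c.ord := by
        intro x
        by_cases hx : x < c.ord
        · obtain ⟨d, h1, h2, h3⟩ := hDu x hx
          exact ⟨d, fun _ => ⟨h1, h2, h3⟩⟩
        · exact ⟨0, fun h' => absurd h' hx⟩
      choose f hf using hch
      obtain ⟨t, hat, htκ, -, ht⟩ := exists_lim hκ f (fun x hx => (hf x hx).2) a ha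
      refine ⟨t, ⟨?_, lt_of_le_of_lt zero_le hat⟩, hat, htκ⟩
      intro b hb
      obtain ⟨x, hbx, hxκ, hxt⟩ := ht b hb
      exact ⟨f x, (hf x hxκ).1, hbx.trans (hf x hxκ).2.1, hxt⟩
    · intro a ha ha0 hu
      refine ⟨?_, pos_iff_ne_zero.mpr ha0⟩
      intro b hb
      obtain ⟨b', ⟨h1, _⟩, h2, h3⟩ := hu b hb
      obtain ⟨d, hd, h4, h5⟩ := h1 b h2
      exact ⟨d, hd, h4, h5.trans h3⟩
  obtain ⟨β, hβA, ⟨hβD, hβ0⟩, hβc⟩ := hA _ hclub
  obtain ⟨ι, f, hι, hf1, hf2⟩ := Helper11.HM.RS.exists_cofinal β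
  have hch : ∀ i, ∃ d ∈ D, f i < d ∧ d < β := fun i => hβD (f i) (hf1 i)
  choose d hd1 hd2 hd3 using hch
  have hall : ∀ᶠ x in (U : Filter I), ∀ i, d i ∈ C x := by
    rw [eventually_cardinal_forall (c := δ) (by rw [hι]; exact hAcof β hβA)]
    exact fun i => (hd1 i).2
  have hfalse : ∀ᶠ x in (U : Filter I), False := by
    filter_upwards [hall, hcon, hg1 β hβc] with x hx1 hx2 hx3
    refine (hC x hx2).2 β hβA ((hC x hx2).1.2 β hx3 hβ0.ne' ?_) hx3
    intro b hb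
    obtain ⟨i, hi⟩ := hf2 b hb
    exact ⟨d i, hx1 i, hi.trans_lt (hd2 i), hd3 i⟩
  exact (hfalse.exists).elim fun _ h => h

/-- simultaneous reflection, for regular `κ` -/
theorem simRefl_reg {χ κ : Cardinal.{0}} (hχ : ℵ₀ ≤ χ) (hκ : χ < κ) (hreg : κ.IsRegular)
    (hE : ExtFilters (succ χ) κ) : SimRefl χ κ := by
  intro c hc hκc ι hι A hA hAc
  have hδ : ℵ₀ < succ χ := hχ.trans_lt (lt_succ χ)
  have hκ0 : ℵ₀ < κ := hχ.trans_lt hκ
  have hc0 : ℵ₀ < c := hκ0.trans_le hκc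
  obtain ⟨I, U, g, hU, h1, h2, h3⟩ := raG hδ hκ0 hreg hE hc hκc
  have h4 := rcG hδ hc hc0 hU h1 h2
  have h5 : ∀ᶠ x in (U : Filter I), ∀ i, Stat (A i) (g x) := by
    rw [eventually_cardinal_forall (c := succ χ) (hι.trans_lt (lt_succ χ))]
    exact fun i => rsG hδ hc hc0 hU h1 h2 (hA i) fun a ha => by rw [hAc i a ha]; exact hδ
  obtain ⟨x, hx1, hx2, hx3⟩ := (h3.and (h4.and h5)).exists
  exact ⟨g x, hx1.1, hx2, hx1.2, hx3⟩

theorem ExtFilters.mono {δ κ κ' : Cardinal.{0}} (hE : ExtFilters δ κ) (h : κ ≤ κ') :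
    ExtFilters δ κ' := fun I F hF hF' => hE I F hF (CardinalInterFilter.of_cardinalInterFilter_of_le F h)

/-- simultaneous reflection from the extension of filters -/
theorem simRefl_ext {χ κ : Cardinal.{0}} (hχ : ℵ₀ ≤ χ) (hκ : χ < κ)
    (hE : ExtFilters (succ χ) κ) : SimRefl χ κ := by
  by_cases hreg : κ.IsRegular
  · exact simRefl_reg hχ hκ hreg hE
  · have h0 : ℵ₀ ≤ κ := hχ.trans hκ.le
    have h1 := simRefl_reg hχ (hκ.trans (lt_succ κ)) (isRegular_succ h0) (hE.mono (le_succ κ))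
    intro c hc hκc ι hι A hA hAc
    have h2 : κ ≠ c := fun h => hreg (h ▸ hc)
    obtain ⟨σ, h3, h4, h5, h6⟩ := h1 c hc (succ_le_of_lt (lt_of_le_of_ne hκc h2)) ι hι A hA hAc
    refine ⟨σ, h3, h4, lt_of_le_of_ne (lt_succ_iff.1 h5) fun h7 => hreg ?_, h6⟩
    rw [← h7]
    exact Helper68.HU.isRegular_cof' (isSuccLimit_of_cof h4)

theorem ext_of_stronglyCompact {χ κ : Cardinal.{0}} (hκ : χ < κ) (hS : StronglyCompact κ) :
    ExtFilters (succ χ) κ := by
  intro I F hF hF'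
  obtain ⟨U, hU, hUF⟩ := hS.ext I F hF hF'
  exact ⟨U, CardinalInterFilter.of_cardinalInterFilter_of_le (U : Filter I) (succ_le_of_lt hκ), hUF⟩

end Pool.Agent.Helper16.HR
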