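import Pool.Agent.Helper16.HR.From

/-! # HR: definable sequences of stationary sets of ordinal length -/

set_option autoImplicit false

namespace Pool.Agent.Helper16.HR

open Ordinal Cardinal ZFSet Order Pool.Agent.Helper73.HODC Pool.Agent.Helper73.HE
open Pool.Agent.Helper73.HM Pool.Agent.Helper73.HU Pool.Agent.Helper73.HV
open Pool.Agent.Helper36.HS Pool.Agent.Helper73.HX

/-- there is no definable sequence of length `μ` of pairwise disjoint stationary subsets of `X` -/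
def NoSeqL (μ τ : Ordinal.{0}) (X : Set Ordinal.{0}) : Prop :=
  ¬ ∃ S : Ordinal.{0} → Set Ordinal.{0},
    ODRel (fun ξ a => ξ < μ ∧ a < τ ∧ a ∈ S ξ) ∧
    (∀ ξ < μ, Stat (S ξ) τ) ∧ (∀ ξ < μ, ∀ a ∈ S ξ, a ∈ X) ∧
    (∀ ξ < μ, ∀ η < μ, ∀ a, a ∈ S ξ → a ∈ S η → ξ = η)

theorem nsoL (h1 : StLE) (h2 : StNE) (h3 : StND) {μ τ : Ordinal.{0}} {X : Set Ordinal.{0}}
    (hX : DPs X) (hno : NoSeqL μ τ X) (α : Ordinal.{0}) : α ∉ Helper73.HM.Nd τ X α μ := by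
  intro hα
  obtain ⟨hanti, hsucc, -, -⟩ := h2 τ X
  have hB : ∀ ξ < μ, ∃ B, LeastOD τ (Helper73.HM.Spl τ (Helper73.HM.Nd τ X α ξ)) B := by
    intro ξ hξ
    obtain ⟨B, hB, -⟩ := (Helper73.HM.mem_Nd.1 hα).2.2 ξ hξ
    exact ⟨B, hB⟩
  refine hno ⟨fun ξ => {a | a ∈ Helper73.HM.Nd τ X α ξ ∧ a ∉ Helper73.HM.Nd τ X α (ξ + 1)}, ?_, ?_, ?_, ?_⟩
  · rw [odRel_iff_DP]
    have hd : DP (fun v => (v 0).rank ∈ Helper73.HM.Nd τ X α (v 1).rank) :=
      dp_subst_at (Q := fun x v => (v 0).rank ∈ Helper73.HM.Nd τ X x (v 1).rank)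
        ((h3 τ X hX).rename (fun n => if n = 0 then 1 else if n = 1 then 0 else n)) α
    have hd' : DP (fun v => ∃ s : Ordinal.{0}, ((v 0).rank < s ∧ ∀ t, t < s → ¬ (v 0).rank < t) ∧
        (v 1).rank ∉ Helper73.HM.Nd τ X α s) := by
      refine DP.exO (Q := fun s v => ((v 0).rank < s ∧ ∀ t, t < s → ¬ (v 0).rank < t) ∧
        (v 1).rank ∉ Helper73.HM.Nd τ X α s) ?_
      refine ((DP.rank_lt 1 0).and ?_).and ?_
      · refine DP.allO (Q := fun t v => t < (v 0).rank → ¬ (v 1).rank < t) ?_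
        exact (DP.rank_lt 0 1).imp (DP.rank_lt 2 0).not
      · exact (hd.rename (fun n => if n = 0 then 2 else 0)).not
    refine ((DP.rank_lt_ord 0 μ).and ((DP.rank_lt_ord 1 τ).and
      ((hd.rename (fun n => if n = 0 then 1 else 0)).and hd'))).congr fun v => ?_
    refine and_congr_right fun _ => and_congr_right fun _ => and_congr_right fun _ => ?_
    constructor
    · intro h
      exact ⟨(v 0).rank + 1, ⟨lt_add_one _, fun t ht => not_lt.2 (lt_add_one_iff.1 ht)⟩, h⟩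
    · rintro ⟨s, ⟨h4, h5⟩, h6⟩
      have : s = (v 0).rank + 1 := by
        refine le_antisymm ?_ (add_one_le_iff.2 h4)
        by_contra h7
        exact h5 _ (not_le.1 h7) (lt_add_one _)
      rw [← this]
      exact h6
  · intro ξ hξ
    obtain ⟨B, hB⟩ := hB ξ hξ
    have key : ∀ a, a ∈ Helper73.HM.Nd τ X α (ξ + 1) → (α ∈ st B ↔ a ∈ st B) := by
      intro a ha
      obtain ⟨-, B', hB', h⟩ := (hsucc α ξ a).1 ha
      rwa [h1.1 _ _ _ _ hB' hB] at h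
    by_cases hp : α ∈ st B
    · refine hB.1.2.2.2.mono fun a ha _ => ⟨ha.1, fun h => ?_⟩
      exact ha.2 ((key a h).1 hp)
    · refine hB.1.2.2.1.mono fun a ha _ => ⟨ha.1, fun h => ?_⟩
      exact hp ((key a h).2 ha.2)
  · intro ξ _ a ha
    exact (Helper73.HM.mem_Nd.1 ha.1).1
  · rintro ξ - η - a ⟨h4, h5⟩ ⟨h6, h7⟩
    rcases lt_trichotomy ξ η with h | h | h
    · exact absurd (hanti α _ _ (add_one_le_iff.2 h) h6) h5
    · exact h
    · exact absurd (hanti α _ _ (add_one_le_iff.2 h) h4) h7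

/-- the sets of indices which code the branches of length less than `μ` -/
def Cd (μ : Ordinal.{0}) : Type :=
  {y : μ.ToType × Set μ.ToType // ∀ t ∈ y.2, t < y.1}

theorem mk_Cd {μ : Ordinal.{0}} {θ : Cardinal.{0}} (h0 : ℵ₀ ≤ θ) (hμ : μ.card ≤ θ)
    (hpow : ∀ ζ < μ, (2 : Cardinal.{0}) ^ ζ.card ≤ θ) : Cardinal.mk (Cd μ) ≤ θ := by
  have hinj : Function.Injective (fun y : Cd μ =>
      (⟨y.1.1, {t | t.1 ∈ y.1.2}⟩ : Σ z : μ.ToType, Set (Set.Iio z))) := by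
    rintro ⟨⟨z, s⟩, hs⟩ ⟨⟨z', s'⟩, hs'⟩ h
    simp only [Sigma.mk.inj_iff] at h
    obtain ⟨h1, h2⟩ := h
    subst h1
    have h3 := eq_of_heq h2
    have h4 : s = s' := by
      ext t
      constructor
      · intro ht
        have h5 : (⟨t, hs t ht⟩ : Set.Iio z) ∈ {t : Set.Iio z | t.1 ∈ s} := ht
        rw [h3] at h5
        exact h5
      · intro ht
        have h5 : (⟨t, hs' t ht⟩ : Set.Iio z) ∈ {t : Set.Iio z | t.1 ∈ s'} := ht
        rw [← h3] at h5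
        exact h5
    subst h4
    rfl
  refine (Cardinal.mk_le_of_injective hinj).trans ?_
  rw [Cardinal.mk_sigma]
  have hle : ∀ z : μ.ToType, Cardinal.mk (Set (Set.Iio z)) ≤ θ := by
    intro z
    rw [Cardinal.mk_set]
    refine le_trans ?_ (hpow (ToType.mk.symm z).1 (ToType.mk.symm z).2)
    refine Cardinal.power_le_power_left two_ne_zero ?_
    have h1 : Function.Injective (fun t : Set.Iio z =>
        (⟨(ToType.mk.symm t.1).1, ToType.mk.symm.strictMono t.2⟩ :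
          Set.Iio (ToType.mk.symm z).1)) := by
      intro t t' h
      have h2 := congrArg Subtype.val h
      exact Subtype.ext (ToType.mk.symm.injective (Subtype.ext h2))
    have h2 := Cardinal.lift_mk_le_lift_mk_of_injective h1
    rw [Cardinal.mk_Iio_ordinal, Cardinal.lift_lift, Cardinal.lift_le] at h2
    exact h2
  refine (Cardinal.sum_le_sum _ _ hle).trans ?_
  rw [Cardinal.sum_const, Cardinal.lift_id, Cardinal.lift_id, mk_toType]
  exact (mul_le_mul' hμ le_rfl).trans (Cardinal.mul_eq_self h0).le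

theorem naoS (h1 : StLE) (h2 : StNE) (h3 : StND) {μ τ : Ordinal.{0}} {X : Set Ordinal.{0}}
    {θ : Cardinal.{0}} (h0 : ℵ₀ ≤ θ) (hμ : μ.card ≤ θ)
    (hpow : ∀ ζ < μ, (2 : Cardinal.{0}) ^ ζ.card ≤ θ) (hθ : θ < τ.cof) (hX : DPs X)
    (hS : Stat X τ) (hns : NoSeqL μ τ X) :
    ∃ A, DPs A ∧ (∀ a ∈ A, a ∈ X ∧ a < τ) ∧ Atom τ A := by
  classical
  have hcof : ℵ₀ < τ.cof := h0.trans_lt hθ
  obtain ⟨-, -, hself, heq⟩ := h2 τ X
  have hex : ∀ α ∈ X, α < τ → ∃ η < μ, α ∈ Helper73.HM.Nd τ X α η ∧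
      ¬ ∃ B, LeastOD τ (Helper73.HM.Spl τ (Helper73.HM.Nd τ X α η)) B := by
    intro α hα hαc
    have h5 : ∃ η < μ, ¬ ∃ B, LeastOD τ (Helper73.HM.Spl τ (Helper73.HM.Nd τ X α η)) B := by
      by_contra h6
      push Not at h6
      exact nsoL h1 h2 h3 hX hns α (hself α μ hα hαc h6)
    obtain ⟨η, ⟨hη, h6⟩, hmin⟩ := WellFounded.has_min (wellFounded_lt (α := Ordinal.{0}))
      {η | η < μ ∧ ¬ ∃ B, LeastOD τ (Helper73.HM.Spl τ (Helper73.HM.Nd τ X α η)) B} h5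
    refine ⟨η, hη, hself α η hα hαc fun η' hη' => ?_, h6⟩
    by_contra h7
    exact hmin η' ⟨hη'.trans hη, h7⟩ hη'
  choose! η hη using hex
  -- the pigeonhole principle
  have hYc : Cardinal.mk (Option (Cd μ)) < τ.cof := by
    rw [Cardinal.mk_option]
    exact Cardinal.add_lt_of_lt hcof.le ((mk_Cd h0 hμ hpow).trans_lt hθ)
      (Cardinal.one_lt_aleph0.trans_le hcof.le)
  let g : Ordinal.{0} → Option (Cd μ) := fun α =>
    if h : η α < μ then some ⟨(ToType.mk ⟨_, h⟩, {z | z < ToType.mk ⟨_, h⟩ ∧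
      (ToType.mk.symm z).1 ∈ Helper73.HM.br τ X α}), fun _ ht => ht.1⟩ else none
  have hg : ∀ α α', α ∈ X → α' ∈ X → α < τ → α' < τ → g α = g α' →
      η α = η α' ∧ ∀ ξ < η α, ξ ∈ Helper73.HM.br τ X α ↔ ξ ∈ Helper73.HM.br τ X α' := by
    intro α α' hα hα' hαc hαc' hgg
    have hm := (hη α hα hαc).1
    have hm' := (hη α' hα' hαc').1
    simp only [g] at hgg
    rw [dif_pos hm, dif_pos hm'] at hgg
    have h5 := Subtype.ext_iff.1 (Option.some.inj hgg)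
    have h6 := congrArg Prod.fst h5
    have h7 := congrArg Prod.snd h5
    simp only at h6 h7
    have h8 : η α = η α' := Subtype.ext_iff.1 (ToType.mk.injective h6)
    refine ⟨h8, fun ξ hξ => ?_⟩
    have h9 := Set.ext_iff.1 h7 (ToType.mk ⟨ξ, hξ.trans hm⟩)
    simp only [Set.mem_ofPred_eq] at h9
    rw [OrderIso.symm_apply_apply] at h9
    have h10 : (ToType.mk ⟨ξ, hξ.trans hm⟩ : μ.ToType) < ToType.mk ⟨η α, hm⟩ :=
      ToType.mk.strictMono hξ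
    have h11 : (ToType.mk ⟨ξ, hξ.trans hm⟩ : μ.ToType) < ToType.mk ⟨η α', hm'⟩ := by
      rw [← h6]; exact h10
    constructor
    · intro h12
      exact (h9.1 ⟨h10, h12⟩).2
    · intro h12
      exact (h9.2 ⟨h11, h12⟩).2
  obtain ⟨y, hy⟩ := pg τ _ X g hcof hYc hS
  obtain ⟨α₀, ⟨hα₀, hg₀⟩, -, hα₀c⟩ := hy _ (club_univ (isSuccLimit_of_cof hcof))
  obtain ⟨hη₀, hN₀, hL₀⟩ := hη α₀ hα₀ hα₀c
  refine ⟨Helper73.HM.Nd τ X α₀ (η α₀), ?_, fun a ha => Helper73.HU.Nd_sub ha, ?_, ?_⟩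
  · have h5 := h3 τ X hX
    have h6 : DP (fun v => (v 0).rank ∈ Helper73.HM.Nd τ X α₀ (v 1).rank) :=
      dp_subst_at (Q := fun x v => (v 0).rank ∈ Helper73.HM.Nd τ X x (v 1).rank)
        (h5.rename (fun n => if n = 0 then 1 else if n = 1 then 0 else n)) α₀
    exact dp_subst_at (Q := fun x v => (v 0).rank ∈ Helper73.HM.Nd τ X α₀ x)
      (h6.rename (fun n => if n = 0 then 1 else 0)) (η α₀)
  · refine hy.mono fun a ha hac => ?_
    obtain ⟨haX, hga⟩ := ha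
    obtain ⟨h5, h6⟩ := hg a α₀ haX hα₀ hac hα₀c (hga.trans hg₀.symm)
    obtain ⟨h7, h8, -⟩ := hη a haX hac
    have h9 := heq a α₀ (η a) h8 h6 (η a) le_rfl
    rw [h9, h5] at h8
    exact h8
  · intro B hB hBs hspl
    exact hL₀ ((h1.2 τ _) ⟨B, hB, hBs, hspl⟩)

/-- the alternative, if there are no sequences of length `μ` -/
theorem large_of_noL (F : Facts) {μ : Ordinal.{0}} {θ : Cardinal.{0}} (h0 : ℵ₀ < θ)
    (hμ : μ.card ≤ θ) (hpow : ∀ ζ < μ, (2 : Cardinal.{0}) ^ ζ.card ≤ θ)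
    (hno : ∀ τ : Ordinal.{0}, θ < τ.cof → NoSeqL μ τ {a | a.cof = ℵ₀})
    {c : Cardinal.{0}} (hc : c.IsRegular) (hθc : θ < c) : Large c := by
  have hAt : AtomsH (succ ℵ₀) θ := by
    intro τ X hτ hX hX' hXc
    have hunc : ℵ₀ < τ.cof := h0.trans hτ
    have hX1 : DPs {a | a ∈ X ∧ a.cof = ℵ₀} := hX.and dps_cof_omega
    have hX2 : Stat {a | a ∈ X ∧ a.cof = ℵ₀} τ := by
      refine (Stat.inter_club hunc hX' (club_limit hunc)).mono fun a ha _ => ⟨ha.1, ?_⟩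
      have h4 : a.cof < succ ℵ₀ := hXc a ha.1
      have h5 : IsSuccLimit a := ha.2
      exact le_antisymm (lt_succ_iff.1 h4) (aleph0_le_cof_iff.2 (one_lt_cof_iff.2 h5))
    obtain ⟨A, hA, hA1, hA2⟩ := naoS F.le (ne F.le) (nd F.re F.ld) h0.le hμ hpow hτ hX1 hX2 (by
      rintro ⟨S, hS1, hS2, hS3, hS4⟩
      exact hno τ hτ ⟨S, hS1, hS2, fun ξ hξ a ha => (hS3 ξ hξ a ha).2, hS4⟩)
    exact ⟨A, hA, fun a ha => ⟨(hA1 a ha).1.1, (hA1 a ha).2⟩, hA2⟩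
  refine large_of F h0 hAt (fun d hd h => ?_) hc hθc
  obtain ⟨U, hU⟩ := normal_at F h0 hAt hd h
  obtain ⟨κ₁, h1, h2, h3⟩ : ∃ κ₁ : Cardinal.{0}, κ₁ ≠ 0 ∧ κ₁ < d ∧ μ ≤ κ₁.ord := by
    by_cases hcard : μ ≤ μ.card.ord
    · have h4 : μ.card < d := hμ.trans_lt h
      by_cases h5 : μ.card = 0
      · exact ⟨1, one_ne_zero, Cardinal.one_lt_aleph0.trans (h0.trans h), by
          rw [h5, ord_zero] at hcard
          exact hcard.trans zero_le⟩
      · exact ⟨μ.card, h5, h4, hcard⟩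
    · have h4 := hpow _ (not_le.1 hcard)
      rw [card_ord] at h4
      exact ⟨succ μ.card, (lt_of_le_of_lt zero_le (lt_succ μ.card)).ne',
        (succ_le_of_lt (Cardinal.cantor _)).trans_lt (h4.trans_lt h),
        (lt_ord.2 (lt_succ μ.card)).le⟩
  refine ⟨κ₁, h1, ord_lt_ord.2 h2,
    powLt_of_normal F.le F.ld F.re (isSuccLimit_ord hd.aleph0_le) (ord_lt_ord.2 h2) hU, ?_⟩
  rintro ⟨S, hS1, hS2, hS3, hS4, hS5⟩
  have hOD := odRel_of_hod hS5
  refine hno d.ord (by rw [hd.cof_ord]; exact h) ⟨S, ?_, fun ξ hξ => hS1 ξ (hξ.trans_le h3),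
    fun ξ hξ a ha => (hS2 ξ (hξ.trans_le h3) a ha).2,
    fun ξ hξ η hη => hS4 ξ (hξ.trans_le h3) η (hη.trans_le h3)⟩
  rw [odRel_iff_DP] at hOD ⊢
  refine ((DP.rank_lt_ord 0 μ).and hOD).congr fun v => ?_
  constructor
  · rintro ⟨h4, h5, h6⟩
    exact ⟨h4, h4.trans_le h3, h5, h6⟩
  · rintro ⟨h4, -, h5, h6⟩
    exact ⟨h4, h5, h6⟩

/-- the alternative, from reflection, with the sharper bound -/
theorem large_of_reflL (F : Facts) {χ κ : Cardinal.{0}} (hR : SimRefl χ κ) (hκ : ℵ₀ < κ)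
    {α : Ordinal.{0}} (hlim : IsSuccLimit α) (hκα : κ.ord ≤ α) (hα : α.cof ≤ χ)
    (hs : ¬ HODSing α) {θ : Cardinal.{0}} (h1 : α.card ≤ θ)
    (h2 : ∀ ζ < α, (2 : Cardinal.{0}) ^ ζ.card ≤ θ) {c : Cardinal.{0}} (hc : c.IsRegular)
    (hθc : θ < c) : Large c := by
  have hκ1 : κ ≤ α.card := by
    rw [← Cardinal.card_ord κ]; exact card_le_card hκα
  refine large_of_noL F (hκ.trans_le (hκ1.trans h1)) h1 h2 (fun τ hτ => ?_) hc hθc
  rintro ⟨S, hS1, hS2, hS3, hS4⟩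
  exact hs (cvrO F.nmp F.tr hR hκ (hκ1.trans (h1.trans hτ.le)) hlim hκα hα
    le_rfl hS1 hS2 (fun ξ hξ a ha => hS3 ξ hξ a ha) hS4)

/-- the alternative, from exact reflection, with the sharper bound -/
theorem large_of_exactL (F : Facts) {χ κ : Cardinal.{0}} (hκ0 : ℵ₀ < κ) (hR : ExactRefl χ κ)
    {ν : Ordinal.{0}} {θ : Cardinal.{0}} (h0 : ℵ₀ < θ) (hθ : κ ≤ succ θ) (h1 : ν.card ≤ θ)
    (h2 : ∀ ζ < ν, (2 : Cardinal.{0}) ^ ζ.card ≤ θ)
    {X : Set Ordinal.{0}} (hX : Cardinal.mk X ≤ Cardinal.lift.{1} χ)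
    (hXν : ∀ a ∈ X, a < ν) (hn : ¬ InHOD X) {c : Cardinal.{0}} (hc : c.IsRegular)
    (hθc : θ < c) : Large c := by
  refine large_of_noL F h0 h1 h2 (fun τ hτ => ?_) hc hθc
  rintro ⟨S, hS1, hS2, hS3, hS4⟩
  exact hn (exact_codeG F.nmp F.tr hκ0 hR (hθ.trans (succ_le_of_lt hτ)) hS1 hS2
    (fun ξ hξ a ha => hS3 ξ hξ a ha) hS4 hX hXν)

end Pool.Agent.Helper16.HR
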