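import Pool.Agent.Helper16.HR.Near
import Pool.Agent.Helper73.HU.Fin

/-! # HR: singular cardinals and their successors -/

set_option autoImplicit false

namespace Pool.Agent.Helper16.HR

open Ordinal Cardinal ZFSet Order Pool.Agent.Helper73.HODC Pool.Agent.Helper73.HE
open Pool.Agent.Helper73.HM Pool.Agent.Helper73.HU Pool.Agent.Helper73.HV
open Pool.Agent.Helper36.HS

theorem near3 (hPS : StPS) (hKEY : StKEY) (hRC : Helper36.HS.StRC) (hNMp : StNMap)
    (hTR : StTR) {κ : Cardinal.{0}} (hκ : ℵ₀ ≤ κ)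
    (h7 : ∀ α : Ordinal.{0}, κ.ord ≤ α → α.cof = ℵ₀ → HODSing α)
    {τ : Ordinal.{0}} (hτ : HODReg τ) (hκτ : κ.ord ≤ τ) (h : κ.IsRegular ∨ κ < τ.card) :
    τ.cof = τ.card := by
  by_cases hne : τ.cof = κ.ord.cof
  · by_cases hlt : κ < τ.card
    · refine near hPS hKEY hRC hNMp hTR (κ := succ κ) (hκ.trans (le_succ κ)) ?_ hτ ?_ ?_
      · exact fun α h1 h2 => h7 α ((ord_le_ord.2 (le_succ κ)).trans h1) h2
      · rw [ord_le]
        exact succ_le_of_lt hlt
      · have h1 : (succ κ).ord.cof = succ κ := (isRegular_succ hκ).cof_ord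
        rw [h1, hne]
        have h2 : κ.ord.cof ≤ κ := by
          have := cof_le_card κ.ord
          rwa [card_ord] at this
        exact (h2.trans_lt (lt_succ κ)).ne
    · have hr : κ.IsRegular := h.resolve_right hlt
      have h1 : κ ≤ τ.card := by
        rw [← card_ord κ]; exact card_le_card hκτ
      rw [hne, hr.cof_ord]
      exact le_antisymm h1 (not_lt.1 hlt)
  · exact near hPS hKEY hRC hNMp hTR hκ h7 hτ hκτ hne

/-- the regular cardinals of HOD have the cofinality of their cardinality -/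
def CofCard (κ : Cardinal.{0}) : Prop :=
  ∀ τ, HODReg τ → κ.ord ≤ τ → (κ.IsRegular ∨ κ < τ.card) → τ.cof = τ.card

theorem exists_next {σ : Cardinal.{0}} (hσ : ℵ₀ ≤ σ) :
    ∃ τ, HODNext σ.ord τ ∧ τ ≤ (succ σ).ord := by
  have h1 : HODReg (succ σ).ord := hodReg_of_regular (isRegular_succ hσ)
  have h2 : σ.ord < (succ σ).ord := ord_lt_ord.2 (lt_succ σ)
  set T : Set Ordinal.{0} := {ζ | σ.ord < ζ ∧ HODReg ζ} with hT
  have hne : T.Nonempty := ⟨_, h2, h1⟩
  refine ⟨sInf T, ⟨(csInf_mem hne).1, (csInf_mem hne).2, ?_⟩, csInf_le' ⟨h2, h1⟩⟩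
  intro ζ h3 h4 h5
  exact absurd (csInf_le' (show ζ ∈ T from ⟨h3, h5⟩)) (not_le.2 h4)

/-- (3) implies (4) -/
theorem four_of_three {κ σ : Cardinal.{0}} (hκ : ℵ₀ ≤ κ) (h3 : CofCard κ) (hσ : κ < σ)
    (hs : σ.IsSingular) : HODSing σ.ord ∧ SuccCorrect σ := by
  have hσ0 : ℵ₀ ≤ σ := hκ.trans hσ.le
  have key : ∀ τ, HODReg τ → σ.ord ≤ τ → τ.cof = τ.card := by
    intro τ hτ hστ
    have h1 : σ ≤ τ.card := by
      rw [← card_ord σ]; exact card_le_card hστ
    exact h3 τ hτ ((ord_le_ord.2 hσ.le).trans hστ) (Or.inr (hσ.trans_le h1))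
  have hns : ∀ τ, HODReg τ → σ.ord ≤ τ → τ.card ≠ σ := by
    intro τ hτ hστ hc
    have h1 := key τ hτ hστ
    rw [hc] at h1
    rw [← h1] at hs
    exact hs.not_isRegular (isRegular_cof hτ.1)
  constructor
  · by_contra hcon
    exact hns σ.ord ⟨isSuccLimit_ord hσ0, hcon⟩ le_rfl (card_ord σ)
  · obtain ⟨τ, hτ, hle⟩ := exists_next hσ0
    have h1 : τ = (succ σ).ord := by
      refine hle.eq_of_not_lt fun hlt => hns τ hτ.2.1 hτ.1.le ?_
      refine le_antisymm (lt_succ_iff.1 (lt_ord.1 hlt)) ?_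
      rw [← card_ord σ]; exact card_le_card hτ.1.le
    rw [h1] at hτ
    exact hτ

theorem exists_singular (θ : Cardinal.{0}) : ∃ σ : Cardinal.{0}, θ < σ ∧ σ.IsSingular := by
  have h0 : (0 : Ordinal.{0}) < ω := omega0_pos
  have h1 : θ.ord < θ.ord + ω := lt_add_of_pos_right _ h0
  have hl : IsSuccLimit (θ.ord + ω) := by
    rw [← one_lt_cof_iff, cof_add _ h0.ne', cof_omega0]
    exact one_lt_aleph0
  refine ⟨aleph (θ.ord + ω), (le_aleph_ord θ).trans_lt (aleph_lt_aleph.2 h1),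
    aleph0_le_aleph _, ?_⟩
  rw [ord_aleph, cof_omega hl, cof_add _ h0.ne', cof_omega0]
  exact (aleph0_lt_aleph.2 (lt_of_le_of_lt zero_le h1)).ne

/-- (4) implies (5) -/
theorem five_of_four {κ : Cardinal.{0}}
    (h4 : ∀ σ : Cardinal.{0}, κ < σ → σ.IsSingular → SuccCorrect σ) (θ : Cardinal.{0}) :
    ∃ σ : Cardinal.{0}, θ < σ ∧ ℵ₀ ≤ σ ∧ SuccCorrect σ := by
  obtain ⟨σ, h1, h2⟩ := exists_singular (max κ θ)
  exact ⟨σ, (le_max_right _ _).trans_lt h1, h2.aleph0_le, h4 σ ((le_max_left _ _).trans_lt h1) h2⟩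

end Pool.Agent.Helper16.HR
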