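import Pool.Agent.Helper16.HR.Main

/-! # HR: Martin's Maximum -/

set_option autoImplicit false

namespace Pool.Agent.Helper16.HR

open Ordinal Cardinal ZFSet Order Pool.Agent.Helper73.HODC Pool.Agent.Helper73.HE
open Pool.Agent.Helper73.HM Pool.Agent.Helper73.HU Pool.Agent.Helper73.HV
open Pool.Agent.Helper36.HS Pool.Agent.Helper73.HX

theorem succ_aleph_one : succ (ℵ_ 1 : Cardinal.{0}) = ℵ_ 2 := by
  rw [succ_aleph, one_add_one_eq_two]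

theorem regular_two : (ℵ_ 2 : Cardinal.{0}).IsRegular := by
  rw [← succ_aleph_one]
  exact isRegular_succ aleph0_lt_aleph_one.le

theorem two_lt_of_singular {σ : Cardinal.{0}} (h : σ.IsSingular) : ℵ_ 2 < σ := by
  have h0 : ℵ₀ < σ := lt_of_le_of_ne h.aleph0_le fun h' => by
    rw [← h'] at h
    exact h.not_isRegular isRegular_aleph0
  have h1 : ℵ_ 1 < σ := lt_of_le_of_ne (aleph_one_le_iff.2 h0) fun h' => by
    rw [← h'] at h
    exact h.not_isRegular isRegular_aleph_one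
  have h2 : ℵ_ 2 ≤ σ := by
    rw [← succ_aleph_one]
    exact succ_le_of_lt h1
  refine lt_of_le_of_ne h2 fun h' => ?_
  rw [← h'] at h
  exact h.not_isRegular regular_two

/-- the equivalent forms of the HOD Hypothesis -/
theorem mm_tfae (hR : MMRefl) : List.TFAE [
    HODHypothesis,
    ∀ X : Set Ordinal.{0}, Cardinal.mk X ≤ Cardinal.lift.{1} (ℵ_ 1 : Cardinal.{0}) → InHOD X,
    ∀ τ, HODReg τ → (ℵ_ 2 : Cardinal.{0}).ord ≤ τ → τ.cof = τ.card,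
    ∀ σ : Cardinal.{0}, σ.IsSingular → HODSing σ.ord ∧ SuccCorrect σ,
    ∀ θ : Cardinal.{0}, ∃ σ : Cardinal.{0}, θ < σ ∧ SuccCorrect σ,
    ∀ c : Cardinal.{0}, c.IsRegular → ℵ_ 2 < c → ∀ ν : Ordinal.{0}, 0 < ν → ν < c.ord →
      HODSplits ν c.ord,
    ∀ θ : Cardinal.{0}, ∃ c : Cardinal.{0}, θ < c ∧ c.IsRegular ∧ ∀ U, ¬ HODNormal c.ord U,
    ∀ θ : Cardinal.{0}, ∃ c : Cardinal.{0}, θ < c ∧ c.IsRegular ∧ ¬ Large c] := by
  have hmain := main (ℵ_ 1) (ℵ_ 2) aleph0_lt_aleph_one.le aleph_one_lt_two (simRefl_of_MM hR)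
  have hclosed := hyp_iff_closed hR
  tfae_have 1 ↔ 2 := hclosed
  tfae_have 1 → 3 := by
    intro h τ h1 h2
    have h3 : ∀ τ, HODReg τ → (ℵ_ 2 : Cardinal.{0}).ord ≤ τ → ℵ_ 1 < τ.cof ∧
      ((ℵ_ 2 : Cardinal.{0}).IsRegular ∨ ℵ_ 2 < τ.card → τ.cof = τ.card) := (hmain.out 0 2).1 h
    exact (h3 τ h1 h2).2 (Or.inl regular_two)
  tfae_have 3 → 4 := by
    intro h σ h1
    exact four_of_three (κ := ℵ_ 2) (aleph0_le_aleph _) (fun τ h3 h4 _ => h τ h3 h4)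
      (two_lt_of_singular h1) h1
  tfae_have 4 → 5 := by
    intro h θ
    obtain ⟨σ, h1, -, h2⟩ := five_of_four (κ := ℵ_ 2) (fun σ _ h2 => (h σ h2).2) θ
    exact ⟨σ, h1, h2⟩
  tfae_have 5 → 1 := (hmain.out 0 4).2
  tfae_have 1 ↔ 6 := hmain.out 0 6
  tfae_have 1 ↔ 7 := hmain.out 0 7
  tfae_have 1 ↔ 8 := hmain.out 0 8
  tfae_finish

/-- the bounds -/
theorem mm_bounds (hR : MMRefl) (lam : Cardinal.{0}) (X : Set Ordinal.{0}) (h0 : ℵ₀ ≤ lam)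
    (hX : Cardinal.mk X ≤ Cardinal.lift.{1} (ℵ_ 1 : Cardinal.{0})) (hXl : ∀ a ∈ X, a < lam.ord)
    (hn : ¬ InHOD X) (c : Cardinal.{0}) (hc : c.IsRegular)
    (h : (2 : Cardinal.{0}) ^ lam < c ∨ (lam = ℵ_ 1 ∧ ℵ_ 3 ≤ c) ∨ (lam = ℵ₀ ∧ ℵ_ 2 ≤ c)) :
    Large c := by
  rcases h with h | ⟨rfl, h⟩ | ⟨rfl, h⟩
  · exact large_of_mm facts hR h0 hX hXl hn hc h
  · rcases mm_three hR with h1 | h1
    · exact absurd (h1 X hXl) hn
    · exact h1 c hc h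
  · refine large_of_real facts hR (fun a ha => ?_) hn hc h
    have h1 := hXl a ha
    rwa [ord_aleph0] at h1

end Pool.Agent.Helper16.HR
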